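import Pool.Agent.CHR.Mats
import Pool.Agent.H37.Chrom.Final

/-!
# CHR/Beta: growth of the amplitudes

Package family CHR (MP_5e2eaf_co), architect helper80. Paper text: /team-store/CHR_Proof.md.

PROOF of `bet_large`. Let `z = q - 2`, `T = z^2 + 2`, and `w` with `1 ≤ ‖w‖`, `w + w⁻¹ = T`
(`H37.Chrom.exists_w`). `‖w‖ ≠ 1`: otherwise `w⁻¹ = conj w`, so `T = w + conj w = 2 Re w` is real
and lies in `[-2, 2]`, i.e. `z^2` is real and `-4 ≤ z^2 ≤ 0`; `im (z^2) = 2 Re z Im z = 0` and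
`Re z ≠ 0` (hypothesis) give `Im z = 0`, `z^2 = (Re z)^2 > 0`: contradiction. So `1 < ‖w‖`.
Put `D j = bet q (j + 1) - w⁻¹ * bet q j`. The recursion gives `D (j + 1) = w * D j`, so
`D j = w ^ j * D 0`, `D 0 = 1 - (z + 1)/w ≠ 0`: otherwise `w = z + 1`, and
`(z+1) + (z+1)⁻¹ = z^2 + 2`, i.e. `(z+1)^2 + 1 = (z^2+2)(z+1)`, `z^3 = 0`, `z = 0`, against
`Re z ≠ 0`. If `‖bet q J‖ ≤ ‖q - 1‖` for all `J ≥ 2` then (also `‖bet q 0‖ = ‖q - 1‖`,
`‖bet q 1‖ = 1 < ‖q - 1‖`) `‖D j‖ ≤ 2 ‖q - 1‖` for all `j`, but `‖w‖^j ‖D 0‖ → ∞`.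

PROOF of `bet_one_ne`: at `q = 1`: `bet 0 = 0`, `bet 1 = 1`, `bet (j+2) = 3 bet (j+1) - bet j`.
Show by induction `bet 1 j = (a j : ℂ)` for naturals with `a j < a (j+1)`, or the real statement
`0 ≤ a j < a (j + 1)` with `a (j+2) = 3 a (j+1) - a j`.
-/

namespace CHR

theorem bet_large {q : ℂ} (h1 : 1 < ‖q - 1‖) (hre : q.re ≠ 2) :
    ∃ J, 2 ≤ J ∧ ‖q - 1‖ < ‖bet q J‖ := by
  obtain ⟨w, hw1, hw⟩ := H37.Chrom.exists_w ((q - 2) ^ 2 + 2)
  have hw0 : w ≠ 0 := by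
    rintro rfl
    rw [norm_zero] at hw1
    linarith
  have hzre : q.re - 2 ≠ 0 := sub_ne_zero.2 hre
  -- `‖w‖ ≠ 1`
  have hwn : 1 < ‖w‖ := by
    rcases hw1.lt_or_eq with h | h
    · exact h
    exfalso
    have hns : Complex.normSq w = 1 := by
      rw [Complex.normSq_eq_norm_sq, ← h, one_pow]
    have him := congrArg Complex.im hw
    have hree := congrArg Complex.re hw
    rw [Complex.add_im, Complex.inv_im, hns, div_one, add_neg_cancel] at him
    rw [Complex.add_re, Complex.inv_re, hns, div_one] at hree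
    have e1 : ((q - 2) ^ 2 + 2).im = 2 * (q.re - 2) * q.im := by
      simp [pow_two, Complex.mul_im]
      ring
    have e2 : ((q - 2) ^ 2 + 2).re = (q.re - 2) ^ 2 - q.im ^ 2 + 2 := by
      simp [pow_two, Complex.mul_re]
    rw [e1] at him
    rw [e2] at hree
    have h2 : q.im = 0 := by
      rcases mul_eq_zero.1 him.symm with h3 | h3
      · rcases mul_eq_zero.1 h3 with h4 | h4
        · norm_num at h4
        · exact absurd h4 hzre
      · exact h3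
    rw [h2] at hree
    have h3 : w.re ≤ 1 := by
      rw [h]
      exact (le_abs_self _).trans (Complex.abs_re_le_norm w)
    have h4 : 0 < (q.re - 2) ^ 2 := by positivity
    nlinarith
  -- the differences
  have hD : ∀ j, bet q (j + 1) - w⁻¹ * bet q j = w ^ j * (1 - w⁻¹ * (q - 1)) := by
    intro j
    induction j with
    | zero => simp [bet]
    | succ j ih =>
      rw [pow_succ, mul_comm (w ^ j) w, mul_assoc, ← ih, bet_succ_succ, ← hw]
      field_simp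
      ring
  have hD0 : 1 - w⁻¹ * (q - 1) ≠ 0 := by
    intro h
    have h2 : w = q - 1 := by
      have h3 : w⁻¹ * (q - 1) = 1 := (sub_eq_zero.1 h).symm
      field_simp at h3
      exact h3.symm
    have h3 : w ^ 2 + 1 = ((q - 2) ^ 2 + 2) * w := by
      rw [← hw]
      field_simp
    rw [h2] at h3
    have h4 : (q - 2) ^ 3 = 0 := by linear_combination -h3
    have h5 : q - 2 = 0 := pow_eq_zero_iff (by norm_num) |>.1 h4
    have h6 := congrArg Complex.re h5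
    simp at h6
    exact hzre h6
  by_contra hcon
  push Not at hcon
  have hb : ∀ J, ‖bet q J‖ ≤ ‖q - 1‖ := by
    intro J
    rcases J with _ | _ | J
    · simp [bet]
    · simp only [bet, norm_one, zero_add]
      exact h1.le
    · exact hcon _ (by omega)
  have hpos : 0 < ‖1 - w⁻¹ * (q - 1)‖ := norm_pos_iff.2 hD0
  obtain ⟨j, hj⟩ := pow_unbounded_of_one_lt (2 * ‖q - 1‖ / ‖1 - w⁻¹ * (q - 1)‖) hwn
  rw [div_lt_iff₀ hpos, ← norm_pow, ← norm_mul, ← hD j] at hj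
  have h2 : ‖bet q (j + 1) - w⁻¹ * bet q j‖ ≤ ‖bet q (j + 1)‖ + ‖w⁻¹ * bet q j‖ :=
    norm_sub_le _ _
  rw [norm_mul, norm_inv] at h2
  have h3 : ‖w‖⁻¹ ≤ 1 := inv_le_one_of_one_le₀ hw1
  have h4 : ‖w‖⁻¹ * ‖bet q j‖ ≤ 1 * ‖q - 1‖ :=
    mul_le_mul h3 (hb j) (norm_nonneg _) zero_le_one
  have h5 := hb (j + 1)
  linarith

theorem bet_one_ne {J : ℕ} (hJ : 1 ≤ J) : bet (1 : ℂ) J ≠ 0 := by
  have key : ∀ j : ℕ, ∃ x y : ℝ, bet (1 : ℂ) j = (x : ℂ) ∧ bet (1 : ℂ) (j + 1) = (y : ℂ) ∧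
      0 ≤ x ∧ x < y := by
    intro j
    induction j with
    | zero => exact ⟨0, 1, by simp [bet], by simp [bet], le_rfl, zero_lt_one⟩
    | succ j ih =>
      obtain ⟨x, y, hx, hy, h0, hxy⟩ := ih
      refine ⟨y, 3 * y - x, hy, ?_, by linarith, by linarith⟩
      rw [bet_succ_succ, hx, hy]
      push_cast
      ring
  obtain ⟨x, y, -, hy, h0, hxy⟩ := key (J - 1)
  rw [Nat.sub_add_cancel hJ] at hy
  rw [hy]
  exact Complex.ofReal_ne_zero.2 (by linarith)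

end CHR
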