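import Mathlib

/-!
# CHR/ClassKer: matrices which are invariant under permutations inside classes

Package family CHR (MP_5e2eaf_co), architect helper80. Paper text: /team-store/CHR_Proof.md.

`cl : X → J` splits a finite set in classes, all nonempty. `CK cl B s` is the matrix
`B (cl x) (cl y) / z(cl y) + s (cl x) * ([x = y] - [cl x = cl y] / z(cl x))`, `z j` = class size.

PROOFS. `sz cl j ≠ 0` by surjectivity. `CK_mul`: entry `(x, y)` of the product is `∑ u`; expand in
four sums.
(a) `∑_u B(cl x, cl u)/z(cl u) * B'(cl u, cl y)/z(cl y)`: group `u` by its class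
    (`Finset.sum_fiberwise` or `Finset.sum_comm'`): `= ∑_j B(cl x, j) B'(j, cl y) / z(cl y)`.
(b) `∑_u B(cl x, cl u)/z(cl u) * s'(cl u) * ([u = y] - [cl u = cl y]/z(cl u))`
    `= B(cl x, cl y)/z(cl y) s'(cl y) (1 - z(cl y)/z(cl y)) = 0`.
(c) the other mixed sum vanishes in the same way.
(d) `∑_u s(cl x) ([x=u] - [cl x = cl u]/z(cl x)) s'(cl u) ([u=y] - [cl u = cl y]/z(cl u))`
    `= s(cl x) s'(cl x) ([x=y] - [cl x=cl y]/z - [cl x=cl y]/z + [cl x = cl y] z/z^2)`.
`CK_one`: `(1 : Matrix) (cl x) (cl y) = [cl x = cl y]`. `CK_trace`: group by classes: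
`∑_x B(cl x, cl x)/z(cl x) = ∑_j B j j`, `∑_x s(cl x)(1 - 1/z(cl x)) = ∑_j s j (z j - 1)`.
`CK_prod`: induction on the list with `CK_one`, `CK_mul`.
-/

namespace CHR

variable {X J : Type} [Fintype X] [DecidableEq X] [Fintype J] [DecidableEq J]

/-- the size of a class, as a complex number -/
noncomputable def sz (cl : X → J) (j : J) : ℂ :=
  ((Finset.univ.filter (fun x => cl x = j)).card : ℂ)

/-- class kernel -/
noncomputable def CK (cl : X → J) (B : Matrix J J ℂ) (s : J → ℂ) : Matrix X X ℂ :=
  Matrix.of fun x y => B (cl x) (cl y) / sz cl (cl y) +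
    s (cl x) * ((if x = y then 1 else 0) - (if cl x = cl y then 1 else 0) / sz cl (cl x))

private theorem szne {cl : X → J} (hcl : Function.Surjective cl) (j : J) : sz cl j ≠ 0 := by
  obtain ⟨x, hx⟩ := hcl j
  unfold sz
  rw [Nat.cast_ne_zero]
  apply Finset.card_ne_zero_of_mem (a := x)
  simp [hx]

private theorem sumcl (cl : X → J) (f : J → ℂ) : ∑ u, f (cl u) = ∑ j, sz cl j * f j := by
  rw [← Finset.sum_fiberwise Finset.univ cl (fun u => f (cl u))]
  refine Finset.sum_congr rfl fun j _ => ?_
  rw [Finset.sum_congr rfl (g := fun _ => f j)]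
  · rw [Finset.sum_const, nsmul_eq_mul]
    rfl
  · intro x hx
    rw [(Finset.mem_filter.1 hx).2]

theorem CK_mul {cl : X → J} (hcl : Function.Surjective cl) (B B' : Matrix J J ℂ) (s s' : J → ℂ) :
    CK cl B s * CK cl B' s' = CK cl (B * B') (fun j => s j * s' j) := by
  ext x y
  have hz : ∀ j, sz cl j ≠ 0 := szne hcl
  rw [Matrix.mul_apply]
  simp only [CK, Matrix.of_apply]
  have h1 : ∀ u, (B (cl x) (cl u) / sz cl (cl u) +
      s (cl x) * ((if x = u then 1 else 0) - (if cl x = cl u then 1 else 0) / sz cl (cl x))) *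
      (B' (cl u) (cl y) / sz cl (cl y) +
      s' (cl u) * ((if u = y then 1 else 0) - (if cl u = cl y then 1 else 0) / sz cl (cl u))) =
      (fun j => (B (cl x) j / sz cl j - s (cl x) * (if cl x = j then 1 else 0) / sz cl (cl x)) *
        (B' j (cl y) / sz cl (cl y) - s' j * (if j = cl y then 1 else 0) / sz cl j)) (cl u) +
      (if u = y then (B (cl x) (cl u) / sz cl (cl u) -
        s (cl x) * (if cl x = cl u then 1 else 0) / sz cl (cl x)) * s' (cl u) else 0) +
      (if x = u then s (cl x) * (B' (cl u) (cl y) / sz cl (cl y) -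
        s' (cl u) * (if cl u = cl y then 1 else 0) / sz cl (cl u)) else 0) +
      (if x = u then (if u = y then s (cl x) * s' (cl u) else 0) else 0) := by
    intro u
    by_cases e1 : x = u
    · by_cases e2 : u = y
      · simp only [if_pos e1, if_pos e2]
        ring
      · simp only [if_pos e1, if_neg e2]
        ring
    · by_cases e2 : u = y
      · simp only [if_neg e1, if_pos e2]
        ring
      · simp only [if_neg e1, if_neg e2]
        ring
  rw [Finset.sum_congr rfl (fun u _ => h1 u), Finset.sum_add_distrib, Finset.sum_add_distrib,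
    Finset.sum_add_distrib,
    sumcl cl (fun j => (B (cl x) j / sz cl j - s (cl x) * (if cl x = j then 1 else 0) /
      sz cl (cl x)) * (B' j (cl y) / sz cl (cl y) - s' j * (if j = cl y then 1 else 0) / sz cl j)),
    Finset.sum_ite_eq' Finset.univ y, Finset.sum_ite_eq, Finset.sum_ite_eq]
  simp only [Finset.mem_univ, if_true]
  have h2 : ∀ j, sz cl j * ((B (cl x) j / sz cl j -
      s (cl x) * (if cl x = j then 1 else 0) / sz cl (cl x)) *
        (B' j (cl y) / sz cl (cl y) - s' j * (if j = cl y then 1 else 0) / sz cl j)) =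
      B (cl x) j * B' j (cl y) / sz cl (cl y) -
      (if j = cl y then B (cl x) j * s' j / sz cl j else 0) -
      (if cl x = j then s (cl x) * B' j (cl y) / sz cl (cl y) else 0) +
      (if cl x = j then (if j = cl y then s (cl x) * s' j / sz cl j else 0) else 0) := by
    intro j
    have := hz j
    have := hz (cl x)
    have := hz (cl y)
    by_cases e1 : cl x = j
    · by_cases e2 : j = cl y
      · simp only [if_pos e1, if_pos e2]
        rw [show sz cl (cl x) = sz cl j by rw [e1]]
        field_simp
        ring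
      · simp only [if_pos e1, if_neg e2]
        rw [show sz cl (cl x) = sz cl j by rw [e1]]
        field_simp
        ring
    · by_cases e2 : j = cl y
      · simp only [if_neg e1, if_pos e2]
        field_simp
        ring
      · simp only [if_neg e1, if_neg e2]
        field_simp
        ring
  rw [Finset.sum_congr rfl (fun j _ => h2 j), Finset.sum_add_distrib, Finset.sum_sub_distrib,
    Finset.sum_sub_distrib, Finset.sum_ite_eq' Finset.univ (cl y), Finset.sum_ite_eq,
    Finset.sum_ite_eq, Matrix.mul_apply, ← Finset.sum_div]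
  simp only [Finset.mem_univ, if_true]
  by_cases e1 : x = y
  · subst e1
    simp only [if_true]
    ring
  · by_cases e2 : cl x = cl y
    · simp only [e1, e2, if_true, if_false]
      ring
    · simp only [e1, e2, if_false]
      ring

theorem CK_one {cl : X → J} (hcl : Function.Surjective cl) :
    CK cl (1 : Matrix J J ℂ) (fun _ => 1) = 1 := by
  ext x y
  simp only [CK, Matrix.of_apply, Matrix.one_apply]
  by_cases e1 : x = y
  · subst e1
    simp
  · by_cases e2 : cl x = cl y
    · simp [e1, e2]
    · simp [e1, e2]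

theorem CK_trace {cl : X → J} (hcl : Function.Surjective cl) (B : Matrix J J ℂ) (s : J → ℂ) :
    (CK cl B s).trace = B.trace + ∑ j, s j * (sz cl j - 1) := by
  have hz : ∀ j, sz cl j ≠ 0 := szne hcl
  unfold Matrix.trace
  simp only [Matrix.diag_apply, CK, Matrix.of_apply, if_true]
  rw [sumcl cl (fun j => B j j / sz cl j + s j * (1 - 1 / sz cl j)), ← Finset.sum_add_distrib]
  refine Finset.sum_congr rfl fun j _ => ?_
  have := hz j
  field_simp

theorem CK_prod {cl : X → J} (hcl : Function.Surjective cl) (L : List (Matrix J J ℂ × (J → ℂ))) :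
    (L.map (fun p => CK cl p.1 p.2)).prod =
      CK cl (L.map Prod.fst).prod (fun j => (L.map (fun p => p.2 j)).prod) := by
  induction L with
  | nil =>
    simp only [List.map_nil, List.prod_nil]
    exact (CK_one hcl).symm
  | cons p L ih =>
    simp only [List.map_cons, List.prod_cons]
    rw [ih, CK_mul hcl]

end CHR
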