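import Pool.Agent.H37.Chrom.Contain

/-!
# CHR/Dom2: dominance for `|q - 1| ≤ 1`, `|q - 2| ≥ 1`

Package family CHR (MP_5e2eaf_co), architect helper80. Paper text: /team-store/CHR_Proof.md.

PROOF (compare `H37.Chrom.dominance`, the case `1 ≤ ‖a‖`). Put `A = ‖a‖`, `ρ = ‖w‖`,
`r = ‖a - 1‖^2`, `b = ‖a^2 - 3a + 3‖`, `c = ‖a^2 + a + 3‖`, `P = ‖w - 1‖^2`, `Q = ‖w + 1‖^2`. As
there: `P A = ρ b`, `Q A = ρ c`, `P + Q = 2 ρ^2 + 2`, and `b^2`, `c^2` are the polynomials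
`normSq_b`, `normSq_c` in `R = A^2` and `t = r - 1 ≥ 0`. The claim is `P < r ρ^2`, i.e.
`b < r ρ A`. If `b = 0` it is clear. Let `b > 0`.
(1) `R^2 (2-R)(4-R) + t (54 - 90R + 74R^2 - 27R^3 + 3R^4) + t^2 (81 - 117R + 72R^2 - 18R^3 + R^4)
    + t^3 (45 - 54R + 23R^2 - 3R^3) + t^4 (9 - 9R + 2R^2) > 0` for `0 < R ≤ 1`, `t ≥ 0` (every
    bracket is positive for `0 < R ≤ 1`, the first summand too), and four times the left side is
    `r^2 b^2 c^2 - (b^2 (2 - r) + 2 r^2 R)^2` (`ring` after inserting `b^2`, `c^2`, `r = 1 + t`).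
    Hence `b^2 (2 - r) + 2 r^2 R < r b c` (`abs_lt_of_sq_lt_sq` or `pow_lt_pow_left`).
(2) `ρ^2 + 1 = ρ (b + c) / (2 A)` (add `P A = ρ b`, `Q A = ρ c`), i.e.
    `2 A (ρ^2 + 1) = ρ (b + c)`.
(3) Suppose `r ρ A ≤ b`. Put `y = b / (r A) ≥ ρ ≥ 1`. Then `y + 1/y ≥ ρ + 1/ρ = (b + c)/(2A)`, but
    (1), divided by `2 r b A`, says `y + 1/y = b/(rA) + rA/b < (b + c)/(2A)`: contradiction.
    [(1): `2 b^2 + 2 r^2 R < r b c + r b^2`, divide by `2 r b A`.]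
-/

namespace CHR

private lemma brackets {R : ℝ} (h0 : 0 < R) (h1 : R ≤ 1) :
    0 < R ^ 2 * (2 - R) * (4 - R) ∧ 0 ≤ 54 - 90 * R + 74 * R ^ 2 - 27 * R ^ 3 + 3 * R ^ 4 ∧
    0 ≤ 81 - 117 * R + 72 * R ^ 2 - 18 * R ^ 3 + R ^ 4 ∧
    0 ≤ 45 - 54 * R + 23 * R ^ 2 - 3 * R ^ 3 ∧ 0 ≤ 9 - 9 * R + 2 * R ^ 2 := by
  have h2 : 0 ≤ 1 - R := by linarith
  have h3 : 0 ≤ R * (1 - R) := mul_nonneg h0.le h2
  have h4 : 0 ≤ R ^ 2 * (1 - R) := mul_nonneg (by positivity) h2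
  have h5 : 0 ≤ R ^ 3 * (1 - R) := mul_nonneg (by positivity) h2
  have h6 : 0 ≤ (1 - R) * (1 - R) := mul_nonneg h2 h2
  have h7 : 0 ≤ R * ((1 - R) * (1 - R)) := mul_nonneg h0.le h6
  have h8 : 0 ≤ (1 - R) * ((1 - R) * (1 - R)) := mul_nonneg h2 h6
  refine ⟨?_, ?_, ?_, ?_, ?_⟩
  · have : 0 < 2 - R := by linarith
    have : 0 < 4 - R := by linarith
    positivity
  · have : 0 ≤ R ^ 4 := by positivity
    nlinarith
  · have : 0 ≤ R ^ 4 := by positivity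
    nlinarith
  · nlinarith
  · nlinarith

private lemma key_ineq {R r b2 c2 : ℝ} (h0 : 0 < R) (h1 : R ≤ 1) (hr : 1 ≤ r)
    (hb : b2 = R ^ 2 - 3 * R * (r - 1) + 3 * (r - 1) ^ 2 - 6 * R + 9 * (r - 1) + 9)
    (hc : c2 = 5 * R ^ 2 - 7 * R * (r - 1) + 3 * (r - 1) ^ 2 - 2 * R - 3 * (r - 1) + 9) :
    (b2 * (2 - r) + 2 * r ^ 2 * R) ^ 2 < r ^ 2 * b2 * c2 := by
  obtain ⟨g0, g1, g2, g3, g4⟩ := brackets h0 h1
  obtain ⟨t, ht⟩ : ∃ t, t = r - 1 := ⟨_, rfl⟩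
  have ht0 : 0 ≤ t := by linarith
  have e : r ^ 2 * b2 * c2 - (b2 * (2 - r) + 2 * r ^ 2 * R) ^ 2 =
      4 * (R ^ 2 * (2 - R) * (4 - R) +
        t * (54 - 90 * R + 74 * R ^ 2 - 27 * R ^ 3 + 3 * R ^ 4) +
        t ^ 2 * (81 - 117 * R + 72 * R ^ 2 - 18 * R ^ 3 + R ^ 4) +
        t ^ 3 * (45 - 54 * R + 23 * R ^ 2 - 3 * R ^ 3) + t ^ 4 * (9 - 9 * R + 2 * R ^ 2)) := by
    have hr' : r = t + 1 := by linarith
    rw [hb, hc, hr']
    ring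
  have p1 := mul_nonneg ht0 g1
  have p2 := mul_nonneg (pow_nonneg ht0 2) g2
  have p3 := mul_nonneg (pow_nonneg ht0 3) g3
  have p4 := mul_nonneg (pow_nonneg ht0 4) g4
  linarith

theorem dominance2 {a w : ℂ} (ha : a ≠ 0) (h1 : ‖a‖ ≤ 1) (h2 : 1 ≤ ‖a - 1‖) (hw : 1 ≤ ‖w‖)
    (he : w + w⁻¹ = a - 1 + 3 / a) : ‖w - 1‖ < ‖a - 1‖ * ‖w‖ := by
  by_contra hcon
  push Not at hcon
  have hw0 : w ≠ 0 := by
    rintro rfl
    simp at hw
    linarith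
  have hA0 : 0 < ‖a‖ := norm_pos_iff.2 ha
  set A := ‖a‖ with hA
  set ρ := ‖w‖ with hρ
  set r := ‖a - 1‖ ^ 2 with hr
  set b := ‖a ^ 2 - 3 * a + 3‖ with hb
  set c := ‖a ^ 2 + a + 3‖ with hc
  set P := ‖w - 1‖ ^ 2 with hP
  set Q := ‖w + 1‖ ^ 2 with hQ
  have hr1 : 1 ≤ r := by nlinarith
  have hb0 : 0 ≤ b := norm_nonneg _
  have hc0 : 0 ≤ c := norm_nonneg _
  have e1 : (w - 1) ^ 2 * a = w * (a ^ 2 - 3 * a + 3) := by
    field_simp at he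
    linear_combination he
  have e2 : (w + 1) ^ 2 * a = w * (a ^ 2 + a + 3) := by
    field_simp at he
    linear_combination he
  have n1 : P * A = ρ * b := by
    rw [hP, hA, hρ, hb, ← norm_pow, ← norm_mul, ← norm_mul, e1]
  have n2 : Q * A = ρ * c := by
    rw [hQ, hA, hρ, hc, ← norm_pow, ← norm_mul, ← norm_mul, e2]
  have n3 : P + Q = 2 * ρ ^ 2 + 2 := by
    rw [hP, hQ, hρ, ← Complex.normSq_eq_norm_sq, ← Complex.normSq_eq_norm_sq,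
      ← Complex.normSq_eq_norm_sq, Complex.normSq_apply, Complex.normSq_apply,
      Complex.normSq_apply]
    simp only [Complex.add_re, Complex.add_im, Complex.sub_re, Complex.sub_im, Complex.one_re,
      Complex.one_im]
    ring
  have n4 : r * ρ ^ 2 ≤ P := by
    rw [hr, hP, ← mul_pow]
    exact pow_le_pow_left₀ (by positivity) hcon 2
  have hA2 : Complex.normSq a = A ^ 2 := Complex.normSq_eq_norm_sq a
  have hr2 : Complex.normSq (a - 1) = r := Complex.normSq_eq_norm_sq _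
  have hb2 : b ^ 2 = (A ^ 2) ^ 2 - 3 * A ^ 2 * (r - 1) + 3 * (r - 1) ^ 2 - 6 * A ^ 2 +
      9 * (r - 1) + 9 := by
    have := H37.Chrom.normSq_b a
    rw [Complex.normSq_eq_norm_sq (a ^ 2 - 3 * a + 3), hA2, hr2] at this
    exact this
  have hc2 : c ^ 2 = 5 * (A ^ 2) ^ 2 - 7 * A ^ 2 * (r - 1) + 3 * (r - 1) ^ 2 - 2 * A ^ 2 -
      3 * (r - 1) + 9 := by
    have := H37.Chrom.normSq_c a
    rw [Complex.normSq_eq_norm_sq (a ^ 2 + a + 3), hA2, hr2] at this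
    exact this
  have hkey := key_ineq (R := A ^ 2) (r := r) (by positivity) (pow_le_one₀ hA0.le h1) hr1 hb2 hc2
  have hρ0 : 0 < ρ := by linarith
  have k1 : b ^ 2 * (2 - r) + 2 * r ^ 2 * A ^ 2 < r * b * c := by
    refine lt_of_pow_lt_pow_left₀ 2 (by positivity) ?_
    have : (r * b * c) ^ 2 = r ^ 2 * b ^ 2 * c ^ 2 := by ring
    rw [this]
    exact hkey
  have k2 : 2 * A * (ρ ^ 2 + 1) = ρ * (b + c) := by
    have : A * (P + Q) = ρ * (b + c) := by linarith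
    rw [← this, n3]
    ring
  have k3 : r * ρ * A ≤ b := by
    have h13 : ρ * (r * ρ * A) ≤ ρ * b := by
      rw [← n1]
      have := mul_le_mul_of_nonneg_right n4 hA0.le
      linarith
    exact le_of_mul_le_mul_left h13 hρ0
  have k4 : r * A ≤ r * ρ * A := by
    have : 0 ≤ (r * A) * (ρ - 1) := mul_nonneg (by positivity) (by linarith)
    linarith
  have k5 : r * A ≤ b * ρ := by
    have : 0 ≤ b * (ρ - 1) := mul_nonneg hb0 (by linarith)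
    linarith
  have k6 := mul_nonneg (sub_nonneg.2 k3) (sub_nonneg.2 k5)
  have k7 : r * b * (2 * A * (ρ ^ 2 + 1)) = r * b * (ρ * (b + c)) := by rw [k2]
  have k8 : ρ * (r * b * (b + c)) ≤ ρ * (2 * (b ^ 2 + r ^ 2 * A ^ 2)) := by
    linarith
  have k9 : r * b * (b + c) ≤ 2 * (b ^ 2 + r ^ 2 * A ^ 2) := le_of_mul_le_mul_left k8 hρ0
  linarith

end CHR
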