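import Pool.Agent.H37.Chrom.Family

/-!
# CHR/Hub: a cycle with an inner collar and an outer hub (definitions, no sorry)

Package family CHR (MP_5e2eaf_co), architect helper80. Paper text: /team-store/CHR_Proof.md.

`HG m l α`: helper37's graph `Gr 0 m l` (a cycle of length `2 m + 6`: `hub false`, backbone `0`,
`hub true`, backbone `1`, with a collar inside), and one more vertex `none`, which is joined to the
vertices `bb 0 j` of backbone `0` with `α j = true`.
-/

namespace CHR

open H37.Chrom

/-- oriented edges -/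
inductive HE {m l : ℕ} (α : Fin (m + 2) → Bool) : Option (Vert 0 m l) → Option (Vert 0 m l) → Prop
  | old (a b : Vert 0 m l) (h : E a b) : HE α (some a) (some b)
  | spoke (j : Fin (m + 2)) (h : α j = true) : HE α none (some (.bb 0 j))

/-- the graph -/
def HG (m l : ℕ) (α : Fin (m + 2) → Bool) : SimpleGraph (Option (Vert 0 m l)) :=
  SimpleGraph.fromRel (HE α)

variable {m l : ℕ} {α : Fin (m + 2) → Bool}

lemma HG_some_some {a b : Vert 0 m l} :
    (HG m l α).Adj (some a) (some b) ↔ (Gr 0 m l).Adj a b := by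
  rw [HG, SimpleGraph.fromRel_adj, Gr_adj]
  constructor
  · rintro ⟨h, h1 | h1⟩
    · cases h1 with
      | old _ _ h2 => exact ⟨fun h3 => h (by rw [h3]), Or.inl h2⟩
    · cases h1 with
      | old _ _ h2 => exact ⟨fun h3 => h (by rw [h3]), Or.inr h2⟩
  · rintro ⟨h, h1 | h1⟩
    · exact ⟨by simpa using h, Or.inl (HE.old _ _ h1)⟩
    · exact ⟨by simpa using h, Or.inr (HE.old _ _ h1)⟩

lemma HG_none_some {a : Vert 0 m l} :
    (HG m l α).Adj none (some a) ↔ ∃ j, α j = true ∧ a = .bb 0 j := by
  rw [HG, SimpleGraph.fromRel_adj]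
  constructor
  · rintro ⟨_, h1 | h1⟩
    · cases h1 with
      | spoke j h2 => exact ⟨j, h2, rfl⟩
    · cases h1
  · rintro ⟨j, h, rfl⟩
    exact ⟨by simp, Or.inl (HE.spoke j h)⟩

end CHR
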