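import Pool.Agent.CHR.Hub
import Pool.Agent.H37.Chrom.FamConn

/-!
# CHR/HubConn: adding a vertex of degree at least three

Package family CHR (MP_5e2eaf_co), architect helper80. Paper text: /team-store/CHR_Proof.md.

PROOF of `threeConnected_option`. `4 ≤ card V ≤ card (Option V)`. Let `S` be a finite set of at
most two vertices of `Option V`; `S' = {a | some a ∈ S}` has at most two elements, so
`G.induce {v | v ∉ S'}` is connected, and `some` maps it into `G'.induce {v | v ∉ S}`
(`Reachable.map` of the homomorphism given by `hG`). If `none ∉ S`: one of `some x, some y,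
some z` is not in `S` (three different vertices, `card S ≤ 2`), and it is a neighbour of `none`. So
all vertices outside `S` are connected with each other; nonempty is clear.

PROOF of `threeConnected_HG`: `threeConnected_option` for `G = Gr 0 m l`
(`H37.Chrom.threeConnected_Gr`) with `x = .bb 0 j1` and so on, `HG_some_some`, `HG_none_some`.
-/

namespace CHR

open H37.Chrom

theorem threeConnected_option {V : Type} [Fintype V] {G : SimpleGraph V}
    {G' : SimpleGraph (Option V)} (hG : ∀ a b, G'.Adj (some a) (some b) ↔ G.Adj a b)
    (h3 : ThreeConnected G) {x y z : V} (hxy : x ≠ y) (hxz : x ≠ z) (hyz : y ≠ z)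
    (hx : G'.Adj none (some x)) (hy : G'.Adj none (some y)) (hz : G'.Adj none (some z)) :
    ThreeConnected G' := by
  classical
  refine ⟨?_, fun S hS => ?_⟩
  · have h4 := h3.1
    rw [Fintype.card_option]
    omega
  · have hcard : (Finset.eraseNone S).card ≤ 2 := by
      have e : ((Finset.eraseNone S).map Function.Embedding.some).card = (S.erase none).card := by
        rw [Finset.map_some_eraseNone]
      rw [Finset.card_map] at e
      rw [e]
      exact (Finset.card_erase_le).trans hS
    have hc := h3.2 (Finset.eraseNone S) hcard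
    have hmem : ∀ a : V, a ∈ {v | v ∉ Finset.eraseNone S} → (some a) ∈ {v | v ∉ S} := by
      intro a ha hn
      exact ha (Finset.mem_eraseNone.2 hn)
    have hmem' : ∀ a : V, (some a) ∈ {v | v ∉ S} → a ∈ {v | v ∉ Finset.eraseNone S} := by
      intro a ha hn
      exact ha (Finset.mem_eraseNone.1 hn)
    let f : (G.induce {v | v ∉ Finset.eraseNone S}) →g (G'.induce {v | v ∉ S}) :=
      { toFun := fun a => ⟨some a.1, hmem a.1 a.2⟩
        map_rel' := by
          intro a b hab
          exact (hG a.1 b.1).2 hab }
    have hsome : ∀ (a b : V) (ha : (some a) ∈ {v | v ∉ S}) (hb : (some b) ∈ {v | v ∉ S}),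
        (G'.induce {v | v ∉ S}).Reachable ⟨some a, ha⟩ ⟨some b, hb⟩ := by
      intro a b ha hb
      have h1 := (hc.preconnected ⟨a, hmem' a ha⟩ ⟨b, hmem' b hb⟩).map f
      exact h1
    have hnone : ∀ (hn : (none : Option V) ∈ {v | v ∉ S}), ∃ (w : V)
        (hw : (some w) ∈ {v | v ∉ S}),
        (G'.induce {v | v ∉ S}).Reachable ⟨none, hn⟩ ⟨some w, hw⟩ := by
      intro hn
      have hadj : ∀ (w : V) (hw : (some w) ∈ {v | v ∉ S}), G'.Adj none (some w) →
          (G'.induce {v | v ∉ S}).Reachable ⟨none, hn⟩ ⟨some w, hw⟩ := by
        intro w hw h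
        have h' : (G'.induce {v | v ∉ S}).Adj ⟨none, hn⟩ ⟨some w, hw⟩ := h
        exact h'.reachable
      by_cases k1 : some x ∈ S
      · by_cases k2 : some y ∈ S
        · by_cases k3 : some z ∈ S
          · exfalso
            have hsub : ({some x, some y, some z} : Finset (Option V)) ⊆ S := by
              intro t ht
              simp only [Finset.mem_insert, Finset.mem_singleton] at ht
              rcases ht with rfl | rfl | rfl
              · exact k1
              · exact k2
              · exact k3
            have h5 := Finset.card_le_card hsub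
            rw [Finset.card_eq_three.2 ⟨some x, some y, some z, by simpa using hxy,
              by simpa using hxz, by simpa using hyz, rfl⟩] at h5
            omega
          · exact ⟨z, k3, hadj z k3 hz⟩
        · exact ⟨y, k2, hadj y k2 hy⟩
      · exact ⟨x, k1, hadj x k1 hx⟩
    have hpre : (G'.induce {v | v ∉ S}).Preconnected := by
      rintro ⟨a, ha⟩ ⟨b, hb⟩
      rcases a with _ | a
      · rcases b with _ | b
        · exact SimpleGraph.Reachable.refl _
        · obtain ⟨w, hw, h1⟩ := hnone ha
          exact h1.trans (hsome w b hw hb)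
      · rcases b with _ | b
        · obtain ⟨w, hw, h1⟩ := hnone hb
          exact (hsome a w ha hw).trans h1.symm
        · exact hsome a b ha hb
    obtain ⟨⟨a, ha⟩⟩ := hc.nonempty
    exact { preconnected := hpre, nonempty := ⟨⟨some a, hmem a ha⟩⟩ }

theorem threeConnected_HG (m l : ℕ) (α : Fin (m + 2) → Bool) {j1 j2 j3 : Fin (m + 2)}
    (h12 : j1 ≠ j2) (h13 : j1 ≠ j3) (h23 : j2 ≠ j3) (a1 : α j1 = true) (a2 : α j2 = true)
    (a3 : α j3 = true) : ThreeConnected (HG m l α) := by
  refine threeConnected_option (G := Gr 0 m l) (x := .bb 0 j1) (y := .bb 0 j2) (z := .bb 0 j3)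
    (fun a b => HG_some_some) (threeConnected_Gr 0 m l) ?_ ?_ ?_ ?_ ?_ ?_
  · intro h
    exact h12 (by injection h)
  · intro h
    exact h13 (by injection h)
  · intro h
    exact h23 (by injection h)
  · exact HG_none_some.2 ⟨j1, a1, rfl⟩
  · exact HG_none_some.2 ⟨j2, a2, rfl⟩
  · exact HG_none_some.2 ⟨j3, a3, rfl⟩

end CHR
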