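import Pool.Agent.CHR.Hub
import Pool.Agent.H37.Chrom.Local

/-!
# CHR/HubCount: the number of colourings of the family with an outer hub

Package family CHR (MP_5e2eaf_co), architect helper80. Paper text: /team-store/CHR_Proof.md.

`kcol α s`: the number of classes of the partition `s` of the skeleton which contain a vertex
`bb 0 j` with `α j = true` (the number of colours on the neighbours of the new vertex).

PROOF of `card_HG`. A colouring of `HG m l α` is a colouring `F` of `Gr 0 m l` and a colour `γ` of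
`none` with `γ ≠ F (bb 0 j)` for all `j` with `α j = true`; for given `F` there are
`n - #{F (bb 0 j) | α j}` such `γ`. So the number is the sum over `F : Vert 0 m l → Fin n` of
`[F proper] * (n - #…)`. Now copy the proof of `H37.Chrom.card_coloring`
(H37/Chrom/FamCount.lean) with the additional factor, which depends only on
`φ = F` restricted to the base: the sum over the colourings of the sides is the same. On the side of
the skeleton: `kcol α (Setoid.ker g) = #{g (inl (inr (0, j))) | α j}` because `g` is injective on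
the classes of its kernel (`kcol_ker`). (`sum_skW` has to be repeated with the additional factor
`h φ`; it is best to prove it for an arbitrary function `h` of the base colouring.)
PROOF of `ZA_nat`, `root_of_ZA`: as `Z_nat`, `famPoly_eval`, `famPoly_nat`, `root_of_Z` in
H37/Chrom/FamCount.lean (the polynomial is
`setSum (fun s => skW (it X l) (fun a b => s a b) * (X - (kcol α s : ℂ[X]))) X`).
PROOF of `root_ZA_Ku`: as `root_of_Ku` in H37/Chrom/Closed.lean (`Z_sc` has the same proof for
`ZA`: `skW_sc`).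
PROOF of `cont_ZA_Ku`, `diff_ZA_Ku`: as `cont_Z`, `cont_Z_Ku`, `diff_Z`, `diff_Z_Ku` in
H37/Chrom/Local.lean.
-/

namespace CHR

open H37.Chrom Polynomial

variable {m : ℕ}

open Classical in
/-- the number of classes of `s` which contain a neighbour of the new vertex -/
noncomputable def kcol (α : Fin (m + 2) → Bool) (s : Setoid (Sk 0 m)) : ℕ :=
  ((Finset.univ.filter (fun j => α j = true)).image
    (fun j => (Quotient.mk s (.inl (.inr (0, j)))))).card

/-- the partition function -/
noncomputable def ZA (α : Fin (m + 2) → Bool) (w : Ker ℂ) (q : ℂ) : ℂ :=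
  setSum (fun s : Setoid (Sk 0 m) => skW w (fun a b => s a b) * (q - (kcol α s : ℂ))) q

open Classical in
lemma kcol_ker {n : ℕ} (α : Fin (m + 2) → Bool) (g : Sk 0 m → Fin n) :
    kcol α (Setoid.ker g) = ((Finset.univ.filter (fun j => α j = true)).image
      (fun j => g (.inl (.inr (0, j))))).card := by
  have hinj : Function.Injective (Quotient.lift g (fun a b h => h) :
      Quotient (Setoid.ker g) → Fin n) := by
    intro x y
    induction x using Quotient.inductionOn with
    | _ a =>
      induction y using Quotient.inductionOn with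
      | _ b =>
        intro h
        exact Quotient.sound h
  rw [kcol, ← Finset.card_image_of_injective _ hinj, Finset.image_image]
  rfl

theorem ZA_nat (α : Fin (m + 2) → Bool) (w : Ker ℂ) (n : ℕ) :
    ZA α w (n : ℂ) = ∑ g : Sk 0 m → Fin n, skW w (fun a b => g a = g b) *
      ((n : ℂ) - (kcol α (Setoid.ker g) : ℂ)) := by
  rw [ZA, setSum_nat]
  rfl

private lemma ite_and2 (P Q : Prop) [Decidable P] [Decidable Q] [Decidable (P ∧ Q)] :
    (if P then (1 : ℂ) else 0) * (if Q then 1 else 0) = if P ∧ Q then 1 else 0 := by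
  by_cases hP : P <;> by_cases hQ : Q <;> simp [hP, hQ]

open Classical in
private lemma sum_skW_mul {n : ℕ} (w : Ker ℂ) (h : (Base 0 m → Fin n) → ℂ) :
    ∑ g : Sk 0 m → Fin n, skW w (fun a b => g a = g b) * h (fun a => g (.inl a)) =
      ∑ φ : Base 0 m → Fin n, ((if baseOK (fun a b => φ a = φ b) then (1 : ℂ) else 0) * h φ) *
        ∑ z : Ix 0 m → Fin n × Fin n,
          (∏ i, w.val ((z i).1 = φ (cen i)) ((z i).2 = φ (cen i)) ((z i).1 = (z i).2)) *
            ∏ i, (if (z i).2 = (z (nx i)).1 then 0 else 1) := by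
  rw [← (skEquiv 0 m n).symm.sum_comp, Fintype.sum_prod_type]
  refine Finset.sum_congr rfl fun φ _ => ?_
  rw [Finset.mul_sum]
  refine Finset.sum_congr rfl fun z _ => ?_
  have e1 : skW w (fun a b => (skEquiv 0 m n).symm (φ, z) a = (skEquiv 0 m n).symm (φ, z) b) =
      (if baseOK (fun a b => φ a = φ b) then (1 : ℂ) else 0) *
        ((∏ i, w.val ((z i).1 = φ (cen i)) ((z i).2 = φ (cen i)) ((z i).1 = (z i).2)) *
            ∏ i, (if (z i).2 = (z (nx i)).1 then 0 else 1)) := by
    rw [skW]
    refine congrArg₂ (· * ·) (if_congr Iff.rfl rfl rfl) (congrArg₂ (· * ·) rfl ?_)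
    exact Finset.prod_congr rfl fun i _ => ite_eq_ite_of Iff.rfl
  have e2 : (fun a => (skEquiv 0 m n).symm (φ, z) (.inl a)) = φ := rfl
  rw [e1, e2]
  ring

open Classical in
private lemma sum_Gr_mul (m l n : ℕ) (h : (Base 0 m → Fin n) → ℂ) :
    ∑ F : Vert 0 m l → Fin n, properWt (Gr 0 m l) ℂ (Setoid.ker F) *
        h (vertEquiv 0 m l n F).1 =
      ∑ g : Sk 0 m → Fin n, skW (Ker.it (n : ℂ) l) (fun a b => g a = g b) *
        h (fun a => g (.inl a)) := by
  rw [sum_skW_mul]
  rw [← (vertEquiv 0 m l n).symm.sum_comp, Fintype.sum_prod_type]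
  refine Finset.sum_congr rfl fun φ _ => ?_
  have h1 : ∀ S : Ix 0 m → Fin (l + 1) → Blk n,
      properWt (Gr 0 m l) ℂ (Setoid.ker ((vertEquiv 0 m l n).symm (φ, S))) *
        h (vertEquiv 0 m l n ((vertEquiv 0 m l n).symm (φ, S))).1 =
      ((if baseOK (fun a b => φ a = φ b) then (1 : ℂ) else 0) * h φ) *
        ((∏ i, (if segOK (φ (cen i)) (S i) then (1 : ℂ) else 0)) *
          ∏ i, (if (S i (Fin.last l)).2.1 = (S (nx i) 0).1 then 0 else 1)) := by
    intro S
    have h2 : (∏ i, (if segOK (φ (cen i)) (S i) then (1 : ℂ) else 0)) =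
        if ∀ i, segOK (φ (cen i)) (S i) then 1 else 0 := by
      rw [Finset.prod_ite_zero]
      simp
    have h3 : (∏ i, (if (S i (Fin.last l)).2.1 = (S (nx i) 0).1 then (0 : ℂ) else 1)) =
        if ∀ i, (S i (Fin.last l)).2.1 ≠ (S (nx i) 0).1 then 1 else 0 := by
      have : ∀ i, (if (S i (Fin.last l)).2.1 = (S (nx i) 0).1 then (0 : ℂ) else 1) =
          if (S i (Fin.last l)).2.1 ≠ (S (nx i) 0).1 then 1 else 0 := by
        intro i
        split_ifs <;> simp_all
      simp only [this]
      rw [Finset.prod_ite_zero]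
      simp
    have h4 : properWt (Gr 0 m l) ℂ (Setoid.ker ((vertEquiv 0 m l n).symm (φ, S))) =
        if baseOK (fun a b => φ a = φ b) ∧ (∀ i, segOK (φ (cen i)) (S i)) ∧
        ∀ i, (S i (Fin.last l)).2.1 ≠ (S (nx i) 0).1 then 1 else 0 := by
      rw [properWt]
      refine if_congr ?_ rfl rfl
      exact proper_iff φ S
    rw [h2, h3, h4, Equiv.apply_symm_apply]
    rw [ite_and3 (A := ℂ)]
    ring
  rw [Finset.sum_congr rfl (fun S _ => h1 S), ← Finset.mul_sum]
  congr 1
  have h5 := pi_fiber (I := Ix 0 m) (S := Fin (l + 1) → Blk n) (T := Fin n × Fin n) (A := ℂ)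
    (fun i σ => if segOK (φ (cen i)) σ then (1 : ℂ) else 0)
    (fun σ => ((σ 0).1, (σ (Fin.last l)).2.1))
    (fun z => ∏ i, (if (z i).2 = (z (nx i)).1 then 0 else 1))
  rw [h5]
  refine Finset.sum_congr rfl fun z _ => ?_
  congr 1
  refine Finset.prod_congr rfl fun i _ => ?_
  rw [← seg_count (A := ℂ) (φ (cen i)) (z i).1 (z i).2 l]
  refine Finset.sum_congr rfl fun σ _ => ?_
  congr 1
  refine if_congr ?_ rfl rfl
  rw [Prod.ext_iff]

open Classical in
/-- the number of colours on the neighbours of the new vertex -/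
private noncomputable def kbase {n : ℕ} (α : Fin (m + 2) → Bool) (φ : Base 0 m → Fin n) : ℕ :=
  ((Finset.univ.filter (fun j => α j = true)).image (fun j => φ (.inr (0, j)))).card

open Classical in
private lemma sum_last {n : ℕ} (α : Fin (m + 2) → Bool) (φ : Base 0 m → Fin n) :
    ∑ γ : Fin n, (if ∀ j, α j = true → γ ≠ φ (.inr (0, j)) then (1 : ℂ) else 0) =
      (n : ℂ) - (kbase α φ : ℂ) := by
  rw [Finset.sum_boole]
  have h1 : (Finset.univ.filter (fun γ : Fin n => ∀ j, α j = true → γ ≠ φ (.inr (0, j)))) =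
      ((Finset.univ.filter (fun j => α j = true)).image (fun j => φ (.inr (0, j))))ᶜ := by
    ext γ
    simp only [Finset.mem_filter, Finset.mem_univ, true_and, Finset.mem_compl, Finset.mem_image,
      not_exists, not_and]
    constructor
    · intro h j hj he
      exact h j hj he.symm
    · intro h j hj he
      exact h j hj he.symm
  rw [h1, Finset.card_compl, Fintype.card_fin, kbase, Nat.cast_sub]
  calc _ ≤ Fintype.card (Fin n) := Finset.card_le_univ _
    _ = n := Fintype.card_fin n

private lemma proper_HG {n l : ℕ} (α : Fin (m + 2) → Bool) (γ : Fin n)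
    (F : Vert 0 m l → Fin n) (f : Option (Vert 0 m l) → Fin n) (h0 : f none = γ)
    (h1 : ∀ a, f (some a) = F a) :
    (∀ a b, (HG m l α).Adj a b → f a ≠ f b) ↔
      (∀ a b, (Gr 0 m l).Adj a b → F a ≠ F b) ∧ ∀ j, α j = true → γ ≠ F (.bb 0 j) := by
  constructor
  · intro h
    refine ⟨fun a b hab => ?_, fun j hj => ?_⟩
    · have := h (some a) (some b) (HG_some_some.2 hab)
      rwa [h1, h1] at this
    · have := h none (some (.bb 0 j)) (HG_none_some.2 ⟨j, hj, rfl⟩)
      rwa [h0, h1] at this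
  · rintro ⟨h2, h3⟩ a b hab
    rcases a with _ | a
    · rcases b with _ | b
      · exact absurd hab ((HG m l α).loopless.irrefl _)
      · obtain ⟨j, hj, rfl⟩ := HG_none_some.1 hab
        rw [h0, h1]
        exact h3 j hj
    · rcases b with _ | b
      · obtain ⟨j, hj, rfl⟩ := HG_none_some.1 hab.symm
        rw [h0, h1]
        exact (h3 j hj).symm
      · rw [h1, h1]
        exact h2 a b (HG_some_some.1 hab)

theorem card_HG (m l : ℕ) (α : Fin (m + 2) → Bool) (n : ℕ) :
    (Nat.card ((HG m l α).Coloring (Fin n)) : ℂ) = ZA α (Ker.it (n : ℂ) l) (n : ℂ) := by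
  classical
  have hR : ZA α (Ker.it (n : ℂ) l) (n : ℂ) = ∑ g : Sk 0 m → Fin n,
      skW (Ker.it (n : ℂ) l) (fun a b => g a = g b) *
        ((n : ℂ) - (kbase α (fun a => g (.inl a)) : ℂ)) := by
    rw [ZA_nat]
    refine Finset.sum_congr rfl fun g _ => ?_
    rw [kcol_ker]
    rfl
  rw [hR, ← sum_Gr_mul m l n (fun φ => (n : ℂ) - (kbase α φ : ℂ)),
    ← sum_proper (HG m l α) ℂ n,
    ← (Equiv.piOptionEquivProd (β := fun _ : Option (Vert 0 m l) => Fin n)).symm.sum_comp,
    Fintype.sum_prod_type, Finset.sum_comm]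
  refine Finset.sum_congr rfl fun F _ => ?_
  rw [← sum_last, Finset.mul_sum]
  refine Finset.sum_congr rfl fun γ _ => ?_
  have h := proper_HG α γ F
    ((Equiv.piOptionEquivProd (β := fun _ : Option (Vert 0 m l) => Fin n)).symm (γ, F))
    rfl (fun _ => rfl)
  rw [properWt, properWt]
  have e : ∀ j, (vertEquiv 0 m l n F).1 (.inr (0, j)) = F (.bb 0 j) := fun j => rfl
  simp only [e]
  rw [ite_and2]
  exact if_congr h rfl rfl

/-- the polynomial -/
private noncomputable def polyA (l : ℕ) (α : Fin (m + 2) → Bool) : ℂ[X] :=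
  setSum (fun s : Setoid (Sk 0 m) => skW (Ker.it (X : ℂ[X]) l) (fun a b => s a b) *
    (X - (kcol α s : ℂ[X]))) X

private lemma polyA_eval (l : ℕ) (α : Fin (m + 2) → Bool) (q : ℂ) :
    (polyA l α).eval q = ZA α (Ker.it q l) q := by
  have h := setSum_map (evalRingHom q)
    (fun s : Setoid (Sk 0 m) => skW (Ker.it (X : ℂ[X]) l) (fun a b => s a b) *
      (X - (kcol α s : ℂ[X]))) X
  rw [coe_evalRingHom, eval_X] at h
  rw [polyA, h, ZA]
  congr 1
  funext s
  have := skW_map (evalRingHom q) (Ker.it (X : ℂ[X]) l) (fun a b => s a b)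
  rw [Ker.map_it, coe_evalRingHom, eval_X] at this
  rw [eval_mul, this]
  simp

theorem root_of_ZA {l : ℕ} {α : Fin (m + 2) → Bool} {q : ℂ} (h : ZA α (Ker.it q l) q = 0) :
    IsChromaticRoot (HG m l α) q := by
  refine isChromaticRoot_of (polyA l α) (fun n => ?_) (by rw [polyA_eval]; exact h)
  rw [polyA_eval, card_HG]

private lemma ZA_sc (α : Fin (m + 2) → Bool) (μ : ℂ) (w : Ker ℂ) (q : ℂ) :
    ZA α (sc μ w) q = μ ^ Fintype.card (Ix 0 m) * ZA α w q := by
  simp only [ZA, setSum, skW_sc, Finset.mul_sum]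
  refine Finset.sum_congr rfl fun s _ => ?_
  ring

theorem root_ZA_Ku {l : ℕ} {α : Fin (m + 2) → Bool} {q lp lm ρ σ : ℂ} (h1 : lp + lm = trT q)
    (h2 : lp * lm = dtT q) (hq : q ≠ 1) (hlm : lm = lp * ρ) (hk : kap q = lp * σ)
    (hne : lp ≠ lm) (hZ : ZA α (Ku q lp lm 1 (ρ ^ l) (σ ^ l)) q = 0) :
    IsChromaticRoot (HG m l α) q := by
  refine root_of_ZA ?_
  have h3 : ((q - 1) * (lp - lm)) ^ Fintype.card (Ix 0 m) * ZA α (Ker.it q l) q = 0 := by
    rw [← ZA_sc, it_closed q lp lm h1 h2]
    have e : Ku q lp lm (lp ^ l) (lm ^ l) (kap q ^ l) =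
        sc (lp ^ l) (Ku q lp lm 1 (ρ ^ l) (σ ^ l)) := by
      rw [← Ku_sc, mul_one, ← mul_pow, ← mul_pow, ← hlm, ← hk]
    rw [e, ZA_sc, hZ, mul_zero]
  rcases mul_eq_zero.1 h3 with h | h
  · exact absurd h (pow_ne_zero _ (mul_ne_zero (sub_ne_zero.2 hq) (sub_ne_zero.2 hne)))
  · exact h

private lemma cont_ZA {X : Type} [TopologicalSpace X] {S : Set X} {α : Fin (m + 2) → Bool}
    {K : X → Ker ℂ} {f : X → ℂ}
    (ha : ContinuousOn (fun x => (K x).a) S) (hb : ContinuousOn (fun x => (K x).b) S)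
    (hc : ContinuousOn (fun x => (K x).c) S) (hd : ContinuousOn (fun x => (K x).d) S)
    (hs : ContinuousOn (fun x => (K x).s) S) (hf : ContinuousOn f S) :
    ContinuousOn (fun x => ZA α (K x) (f x)) S := by
  simp only [ZA, setSum, skW]
  refine continuousOn_finsetSum _ fun s _ => ?_
  refine ContinuousOn.mul (ContinuousOn.mul (ContinuousOn.mul continuousOn_const
    (ContinuousOn.mul ?_ continuousOn_const)) (hf.sub continuousOn_const)) ?_
  · exact continuousOn_finsetProd _ fun i _ => cont_val ha hb hc hd hs _ _ _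
  · exact (Polynomial.continuous_aeval (A := ℂ)
      (descPochhammer ℤ (ncl s))).comp_continuousOn hf

private lemma diff_ZA {S : Set ℂ} {α : Fin (m + 2) → Bool} {K : ℂ → Ker ℂ} {f : ℂ → ℂ}
    (ha : DifferentiableOn ℂ (fun x => (K x).a) S) (hb : DifferentiableOn ℂ (fun x => (K x).b) S)
    (hc : DifferentiableOn ℂ (fun x => (K x).c) S) (hd : DifferentiableOn ℂ (fun x => (K x).d) S)
    (hs : DifferentiableOn ℂ (fun x => (K x).s) S) (hf : DifferentiableOn ℂ f S) :
    DifferentiableOn ℂ (fun x => ZA α (K x) (f x)) S := by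
  simp only [ZA, setSum, skW]
  refine DifferentiableOn.fun_sum fun s _ => ?_
  refine DifferentiableOn.mul (DifferentiableOn.mul (DifferentiableOn.mul
    (differentiableOn_const _) (DifferentiableOn.mul ?_ (differentiableOn_const _)))
    (hf.sub (differentiableOn_const _))) ?_
  · exact DifferentiableOn.fun_finsetProd fun i _ => diff_val ha hb hc hd hs _ _ _
  · exact (Polynomial.differentiable_aeval (𝕜 := ℂ)
      (descPochhammer ℤ (ncl s))).comp_differentiableOn hf

theorem cont_ZA_Ku {X : Type} [TopologicalSpace X] {S : Set X} {α : Fin (m + 2) → Bool}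
    {f a b x y : X → ℂ} (hf : ContinuousOn f S) (ha : ContinuousOn a S) (hb : ContinuousOn b S)
    (hx : ContinuousOn x S) (hy : ContinuousOn y S) :
    ContinuousOn (fun t => ZA α (Ku (f t) (a t) (b t) 1 (x t) (y t)) (f t)) S := by
  refine cont_ZA ?_ ?_ ?_ ?_ ?_ hf <;>
    simp only [Ku, t11, t12, t21, t22, g12, g21, g22, kap] <;> fun_prop

theorem diff_ZA_Ku {S : Set ℂ} {α : Fin (m + 2) → Bool} {f a b x y : ℂ → ℂ}
    (hf : DifferentiableOn ℂ f S) (ha : DifferentiableOn ℂ a S) (hb : DifferentiableOn ℂ b S)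
    (hx : DifferentiableOn ℂ x S) (hy : DifferentiableOn ℂ y S) :
    DifferentiableOn ℂ (fun t => ZA α (Ku (f t) (a t) (b t) 1 (x t) (y t)) (f t)) S := by
  refine diff_ZA ?_ ?_ ?_ ?_ ?_ hf <;>
    simp only [Ku, t11, t12, t21, t22, g12, g21, g22, kap] <;> fun_prop

end CHR
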