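import Pool.Agent.CHR.Wheel
import Pool.Agent.CHR.HubCount

/-!
# CHR/WheelCount: the partition function with a kernel of rank one

Package family CHR (MP_5e2eaf_co), architect helper80. Paper text: /team-store/CHR_Proof.md.

PROOF of `path_count_KA`. As `H37.Chrom.path_count` (H37/Chrom/RankOne.lean), by induction on `k`,
for all `a`: `χ : Fin (k + 1) → Fin n` is a proper colouring of the inner vertices of a path from a
vertex coloured `a` to a vertex coloured `b`, such that `χ j ≠ γ` if `α j = true`. First vertex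
`c = χ 0`: `∑ c, (adjT or adj).val (a = γ) (c = γ) (a = c) * …` and `Ker.comp_val`. Here
`List.ofFn α = α 0 :: List.ofFn (fun j => α j.succ)`, `KA_cons`; base case `k = 0`: one vertex,
`KA n [α 0] = comp (adjT or adj) adj`.
PROOF of `wheel_count`. `n - #{φ (inr (0, j)) | α j} = ∑ γ, [∀ j, α j → φ (inr (0,j)) ≠ γ]`.
Exchange the sums; for fixed `γ` and hub colours `x = φ (inl false)`, `y = φ (inl true)` the two
backbones are independent (`baseEquiv`, compare `theta_count`): the backbone `0` contributes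
`(KA n (List.ofFn α)).val (x = γ) (y = γ) (x = y)` and the backbone `1` contributes
`thD n (m+3) + [x = y] (-1)^(m+3) = (walkK n (m+3)).val (y = γ) (x = γ) (y = x)`. `comp_val` sums
over `y`, then `∑ x, (comp …).val (x = γ) (x = γ) True = trK n (comp …)`, and `∑ γ` gives the
factor `n`.
PROOF of `ZA_rank_one`. As `count_rank_one`, `Z_rank_one` in H37/Chrom/RankOne.lean with the
additional factor `n - #{φ (inr (0, j)) | α j}` (`kcol_ker`), which only depends on the base
colouring; `rank_one_sum` is used as it is.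
PROOF of `ZA_Ku_limit`: as `Z_Ku_limit` in H37/Chrom/Closed.lean.
-/

namespace CHR

open H37.Chrom Polynomial

variable {m : ℕ}

open Classical in
private lemma step_val {A : Type} [CommRing A] {n : ℕ} (b : Bool) (x y u : Fin n) :
    (if b then adjT A else Ker.adj A).val (x = u) (y = u) (x = y) =
      if x ≠ y ∧ (b = true → y ≠ u) then 1 else 0 := by
  cases b with
  | false =>
    simp only [Bool.false_eq_true, if_false, false_imp_iff, and_true]
    exact (Ker.adj_val x y u).trans (ite_eq_ite_of Iff.rfl)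
  | true =>
    simp only [if_true, true_imp_iff]
    by_cases h2 : y = u
    · subst h2
      simp [Ker.val, adjT]
    · by_cases h1 : x = u
      · subst h1
        have h3 : ¬ x = y := fun h => h2 h.symm
        simp [Ker.val, adjT, h2, h3]
      · by_cases h3 : x = y
        · subst h3
          simp [Ker.val, adjT, h1]
        · simp [Ker.val, adjT, h1, h2, h3]

private lemma ite_and_aux {A : Type} [CommRing A] {P Q S : Prop} {iS : Decidable S}
    {iP : Decidable P} {iQ : Decidable Q} (h : S ↔ P ∧ Q) :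
    (if S then (1 : A) else 0) = (if P then (1 : A) else 0) * (if Q then (1 : A) else 0) := by
  by_cases h1 : P
  · by_cases h2 : Q
    · rw [if_pos h1, if_pos h2, if_pos (h.2 ⟨h1, h2⟩), mul_one]
    · rw [if_neg h2, if_neg (fun g => h2 (h.1 g).2), mul_zero]
  · rw [if_neg h1, if_neg (fun g => h1 (h.1 g).1), zero_mul]

open Classical in
theorem path_count_KA {A : Type} [CommRing A] {n : ℕ} (γ b : Fin n) (k : ℕ)
    (α : Fin (k + 1) → Bool) (a : Fin n) :
    ∑ χ : Fin (k + 1) → Fin n,
      (if pathOK a b χ ∧ ∀ j, α j = true → χ j ≠ γ then (1 : A) else 0) =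
    (KA (n : A) (List.ofFn α)).val (a = γ) (b = γ) (a = b) := by
  induction k generalizing a with
  | zero =>
    rw [← (Equiv.funUnique (Fin 1) (Fin n)).symm.sum_comp]
    have e0 : List.ofFn α = [α 0] := by simp
    rw [e0, KA_cons, ← Ker.comp_val]
    refine Finset.sum_congr rfl fun c _ => ?_
    have e : ∀ t, ((Equiv.funUnique (Fin 1) (Fin n)).symm c) t = c := fun t => rfl
    rw [step_val, show KA (n : A) ([] : List Bool) = Ker.adj A from rfl, Ker.adj_val]
    simp only [pathOK, e]
    have h1 : ((a ≠ c ∧ b ≠ c ∧ ∀ _ : Fin 0, c ≠ c) ∧ ∀ j, α j = true → c ≠ γ) ↔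
        ((a ≠ c ∧ (α 0 = true → c ≠ γ)) ∧ c ≠ b) := by
      constructor
      · rintro ⟨⟨h1, h2, -⟩, h3⟩
        exact ⟨⟨h1, h3 0⟩, h2.symm⟩
      · rintro ⟨⟨h1, h3⟩, h2⟩
        refine ⟨⟨h1, h2.symm, fun j => j.elim0⟩, fun j => ?_⟩
        rw [show j = 0 from Fin.ext (by omega)]
        exact h3
    exact ite_and_aux h1
  | succ k ih =>
    rw [← (Fin.consEquiv (fun _ => Fin n)).sum_comp, Fintype.sum_prod_type]
    rw [List.ofFn_succ, KA_cons, ← Ker.comp_val]
    refine Finset.sum_congr rfl fun c _ => ?_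
    rw [step_val, ← ih (fun j => α j.succ) c, Finset.mul_sum]
    refine Finset.sum_congr rfl fun χ _ => ?_
    have e1 : (Fin.consEquiv (fun _ => Fin n)) (c, χ) = (Fin.cons c χ : Fin (k + 2) → Fin n) :=
      rfl
    rw [e1]
    have e3 : ∀ t : Fin k, (Fin.cons c χ : Fin (k + 2) → Fin n) (t.succ.castSucc) =
        χ t.castSucc := by
      intro t
      rw [← Fin.succ_castSucc, Fin.cons_succ]
    have h1 : pathOK a b (Fin.cons c χ : Fin (k + 2) → Fin n) ↔ a ≠ c ∧ pathOK c b χ := by
      constructor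
      · rintro ⟨h1, h2, h3⟩
        refine ⟨by simpa using h1, by simpa using h3 0, ?_, fun t => ?_⟩
        · rwa [← Fin.succ_last, Fin.cons_succ] at h2
        · have := h3 t.succ
          rwa [e3, Fin.cons_succ] at this
      · rintro ⟨h1, h2, h3, h4⟩
        refine ⟨by simpa using h1, ?_, fun t => ?_⟩
        · rwa [← Fin.succ_last, Fin.cons_succ]
        · refine Fin.cases ?_ (fun t => ?_) t
          · simpa using h2
          · rw [e3, Fin.cons_succ]
            exact h4 t
    have h2 : (∀ j, α j = true → (Fin.cons c χ : Fin (k + 2) → Fin n) j ≠ γ) ↔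
        (α 0 = true → c ≠ γ) ∧ ∀ j : Fin (k + 1), α j.succ = true → χ j ≠ γ := by
      constructor
      · intro h
        refine ⟨fun h0 => ?_, fun j hj => ?_⟩
        · have := h 0 h0
          rwa [Fin.cons_zero] at this
        · have := h j.succ hj
          rwa [Fin.cons_succ] at this
      · rintro ⟨h0, h⟩ j
        refine Fin.cases ?_ (fun j => ?_) j
        · rw [Fin.cons_zero]; exact h0
        · rw [Fin.cons_succ]; exact h j
    have h3 : (pathOK a b (Fin.cons c χ : Fin (k + 2) → Fin n) ∧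
        ∀ j, α j = true → (Fin.cons c χ : Fin (k + 2) → Fin n) j ≠ γ) ↔
        (a ≠ c ∧ (α 0 = true → c ≠ γ)) ∧ (pathOK c b χ ∧
          ∀ j : Fin (k + 1), α j.succ = true → χ j ≠ γ) := by
      rw [h1, h2]
      tauto
    exact ite_and_aux h3

open Classical in
private lemma sum_compl {A ι : Type} [CommRing A] [Fintype ι] {n : ℕ} (α : ι → Bool)
    (f : ι → Fin n) :
    (n : A) - (((Finset.univ.filter (fun j => α j = true)).image f).card : A) =
      ∑ γ : Fin n, if ∀ j, α j = true → f j ≠ γ then (1 : A) else 0 := by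
  have h1 : ∀ γ : Fin n, (if ∀ j, α j = true → f j ≠ γ then (1 : A) else 0) =
      1 - if γ ∈ (Finset.univ.filter (fun j => α j = true)).image f then 1 else 0 := by
    intro γ
    by_cases h : γ ∈ (Finset.univ.filter (fun j => α j = true)).image f
    · rw [if_pos h, sub_self]
      refine if_neg fun h' => ?_
      obtain ⟨j, hj, rfl⟩ := Finset.mem_image.1 h
      exact h' j (Finset.mem_filter.1 hj).2 rfl
    · rw [if_neg h, sub_zero]
      refine if_pos fun j hj he => h ?_
      exact Finset.mem_image.2 ⟨j, Finset.mem_filter.2 ⟨Finset.mem_univ j, hj⟩, he⟩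
  rw [Finset.sum_congr rfl (fun γ _ => h1 γ), Finset.sum_sub_distrib, Finset.sum_boole,
    Finset.filter_mem_eq_inter, Finset.univ_inter]
  simp only [Finset.sum_const, Finset.card_univ, Fintype.card_fin, nsmul_eq_mul, mul_one]

private lemma walk_val {A : Type} [CommRing A] {n : ℕ} (k : ℕ) (x y γ : Fin n)
    [Decidable (x = y)] :
    (walkK (n : A) k).val (y = γ) (x = γ) (y = x) =
      thD (n : A) k + if x = y then (-1) ^ k else 0 := by
  by_cases h1 : y = γ
  · by_cases h2 : x = γ
    · simp [Ker.val, walkK, h1, h2]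
    · have : ¬ x = y := fun h => h2 (h.trans h1)
      simp [Ker.val, walkK, h1, h2]
  · by_cases h2 : x = γ
    · have : ¬ γ = y := fun h => h1 h.symm
      simp [Ker.val, walkK, h1, h2, this]
    · by_cases h3 : x = y
      · simp [Ker.val, walkK, h1, h3]
      · have : ¬ y = x := fun h => h3 h.symm
        simp [Ker.val, walkK, h1, h2, h3, this]

private lemma sum_trK {A : Type} [CommRing A] {n : ℕ} (w : Ker A) (γ : Fin n) :
    ∑ x : Fin n, w.val (x = γ) (x = γ) (x = x) = trK (n : A) w := by
  classical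
  have h : ∀ x : Fin n, w.val (x = γ) (x = γ) (x = x) =
      (w.d + w.s) + if x = γ then w.a - (w.d + w.s) else 0 := by
    intro x
    by_cases h1 : x = γ
    · simp [Ker.val, h1]
    · simp [Ker.val, h1]
  rw [Finset.sum_congr rfl (fun x _ => h x)]
  simp only [Finset.sum_add_distrib, Finset.sum_const, Finset.card_univ, Fintype.card_fin,
    nsmul_eq_mul, Finset.sum_ite_eq', Finset.mem_univ, if_true, trK]
  ring

private lemma ite_mul_aux {A : Type} [CommRing A] {P Q R S : Prop} {iS : Decidable S}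
    {iR : Decidable R} {iPR : Decidable (P ∧ R)} {iQ : Decidable Q} (h : S ↔ P ∧ Q) :
    (if S then (1 : A) else 0) * (if R then (1 : A) else 0) =
      (if P ∧ R then (1 : A) else 0) * (if Q then (1 : A) else 0) := by
  by_cases h1 : S
  · have h2 := h.1 h1
    by_cases h3 : R
    · rw [if_pos h1, if_pos h3, if_pos ⟨h2.1, h3⟩, if_pos h2.2]
    · rw [if_pos h1, if_neg h3, if_neg (fun g => h3 g.2), mul_zero, zero_mul]
  · rw [if_neg h1, zero_mul]
    by_cases h4 : P ∧ R
    · rw [if_neg (fun g => h1 (h.2 ⟨h4.1, g⟩)), mul_zero]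
    · rw [if_neg h4, zero_mul]

open Classical in
private lemma wheel_gamma {A : Type} [CommRing A] (α : Fin (m + 2) → Bool) (n : ℕ)
    (γ : Fin n) :
    ∑ φ : Base 0 m → Fin n, (if baseOK (fun a b => φ a = φ b) then (1 : A) else 0) *
      (if ∀ j, α j = true → φ (.inr (0, j)) ≠ γ then (1 : A) else 0) =
      trK (n : A) (Ker.comp (n : A) (KA (n : A) (List.ofFn α)) (walkK (n : A) (m + 3))) := by
  rw [← (baseEquiv 0 m n).symm.sum_comp, Fintype.sum_prod_type]
  have h2 : ∀ h : Bool → Fin n, ∑ ψ : Fin 2 → Fin (m + 2) → Fin n,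
      (if baseOK (fun a b => (baseEquiv 0 m n).symm (h, ψ) a = (baseEquiv 0 m n).symm (h, ψ) b)
        then (1 : A) else 0) *
        (if ∀ j, α j = true → (baseEquiv 0 m n).symm (h, ψ) (.inr (0, j)) ≠ γ then 1 else 0) =
      (KA (n : A) (List.ofFn α)).val (h false = γ) (h true = γ) (h false = h true) *
        (walkK (n : A) (m + 3)).val (h true = γ) (h false = γ) (h true = h false) := by
    intro h
    rw [walk_val, ← path_count_KA γ (h true) (m + 1) α (h false)]
    rw [show m + 3 = m + 1 + 2 from rfl, ← path_count (A := A) (h true) (m + 1) (h false)]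
    rw [Finset.sum_mul_sum, ← (finTwoArrowEquiv (Fin (m + 2) → Fin n)).symm.sum_comp,
      Fintype.sum_prod_type]
    refine Finset.sum_congr rfl fun χ _ => Finset.sum_congr rfl fun χ' _ => ?_
    have e0 : ∀ j, (baseEquiv 0 m n).symm (h, (finTwoArrowEquiv
        (Fin (m + 2) → Fin n)).symm (χ, χ')) (.inr (0, j)) = χ j := fun j => rfl
    have e1 : ∀ j, (baseEquiv 0 m n).symm (h, (finTwoArrowEquiv
        (Fin (m + 2) → Fin n)).symm (χ, χ')) (.inr (1, j)) = χ' j := fun j => rfl
    have e2 : ∀ b, (baseEquiv 0 m n).symm (h, (finTwoArrowEquiv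
        (Fin (m + 2) → Fin n)).symm (χ, χ')) (.inl b) = h b := fun j => rfl
    have h3 : baseOK (fun a b => (baseEquiv 0 m n).symm (h, (finTwoArrowEquiv
        (Fin (m + 2) → Fin n)).symm (χ, χ')) a = (baseEquiv 0 m n).symm (h, (finTwoArrowEquiv
        (Fin (m + 2) → Fin n)).symm (χ, χ')) b) ↔
        (pathOK (h false) (h true) χ ∧ pathOK (h false) (h true) χ') := by
      constructor
      · rintro ⟨h1, h2, h3⟩
        exact ⟨⟨h1 0, h2 0, h3 0⟩, ⟨h1 1, h2 1, h3 1⟩⟩
      · rintro ⟨⟨h1, h2, h3⟩, ⟨h4, h5, h6⟩⟩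
        refine ⟨fun i => ?_, fun i => ?_, fun i => ?_⟩
        · refine Fin.cases h1 (fun i => ?_) i
          rw [Subsingleton.elim i 0]
          exact h4
        · refine Fin.cases h2 (fun i => ?_) i
          rw [Subsingleton.elim i 0]
          exact h5
        · refine Fin.cases h3 (fun i => ?_) i
          rw [Subsingleton.elim i 0]
          exact h6
    simp only [e0]
    exact ite_mul_aux h3
  refine (Finset.sum_congr rfl (fun h _ => h2 h)).trans ?_
  rw [← (Equiv.boolArrowEquivProd (Fin n)).symm.sum_comp, Fintype.sum_prod_type]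
  rw [← sum_trK _ γ]
  refine Finset.sum_congr rfl fun x _ => ?_
  rw [← Ker.comp_val]
  exact Finset.sum_congr rfl fun y _ => rfl

open Classical in
theorem wheel_count {A : Type} [CommRing A] (α : Fin (m + 2) → Bool) (n : ℕ) :
    ∑ φ : Base 0 m → Fin n, (if baseOK (fun a b => φ a = φ b) then (1 : A) else 0) *
      ((n : A) - (((Finset.univ.filter (fun j => α j = true)).image
        (fun j => φ (.inr (0, j)))).card : A)) = WA m (List.ofFn α) (n : A) := by
  have h1 : ∀ φ : Base 0 m → Fin n, (if baseOK (fun a b => φ a = φ b) then (1 : A) else 0) *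
      ((n : A) - (((Finset.univ.filter (fun j => α j = true)).image
        (fun j => φ (.inr (0, j)))).card : A)) =
      ∑ γ : Fin n, (if baseOK (fun a b => φ a = φ b) then (1 : A) else 0) *
        (if ∀ j, α j = true → φ (.inr (0, j)) ≠ γ then (1 : A) else 0) := by
    intro φ
    rw [← Finset.mul_sum]
    refine congrArg₂ (· * ·) rfl ((sum_compl α (fun j => φ (.inr (0, j)))).trans ?_)
    exact Finset.sum_congr rfl fun γ _ => ite_eq_ite_of Iff.rfl
  rw [Finset.sum_congr rfl (fun φ _ => h1 φ), Finset.sum_comm,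
    Finset.sum_congr rfl (fun γ _ => wheel_gamma α n γ)]
  simp only [Finset.sum_const, Finset.card_univ, Fintype.card_fin, nsmul_eq_mul, WA]

private lemma KA_map {A B : Type} [CommRing A] [CommRing B] (f : A →+* B) (w : List Bool)
    (n : A) : (KA n w).map f = KA (f n) w := by
  induction w with
  | nil => exact Ker.map_adj f
  | cons b w ih =>
    rw [KA_cons, KA_cons, Ker.map_comp, ih]
    cases b with
    | false => simp only [Bool.false_eq_true, if_false, Ker.map_adj]
    | true => simp only [if_true, adjT, Ker.map, map_zero, map_one, map_neg]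

theorem WA_map {A B : Type} [CommRing A] [CommRing B] (f : A →+* B) (w : List Bool) (n : A) :
    f (WA m w n) = WA m w (f n) := by
  have h1 : (walkK n (m + 3)).map f = walkK (f n) (m + 3) := by
    simp only [walkK, Ker.map, map_add, map_pow, map_neg, map_one, thD_map]
  have h2 : ∀ v : Ker A, f (trK n v) = trK (f n) (v.map f) := by
    intro v
    simp only [trK, Ker.map, map_add, map_mul, map_sub, map_one]
  rw [WA, WA, map_mul, h2, Ker.map_comp, KA_map, h1]

private theorem count_rank_one_A {A : Type} [CommRing A] (α : Fin (m + 2) → Bool) (n : ℕ)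
    (r1 r2 l1 l2 : A) :
    ∑ g : Sk 0 m → Fin n, skW (rk r1 r2 l1 l2) (fun a b => g a = g b) *
        ((n : A) - (kcol α (Setoid.ker g) : A)) =
      WA m (List.ofFn α) (n : A) * fJ (rk r1 r2 l1 l2) (n : A) ^ Fintype.card (Ix 0 m) := by
  classical
  rw [← wheel_count, Finset.sum_mul, ← (skEquiv 0 m n).symm.sum_comp, Fintype.sum_prod_type]
  refine Finset.sum_congr rfl fun φ _ => ?_
  have h1 : ∀ z : Ix 0 m → Fin n × Fin n,
      skW (rk r1 r2 l1 l2) (fun a b => (skEquiv 0 m n).symm (φ, z) a =
        (skEquiv 0 m n).symm (φ, z) b) *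
        ((n : A) - (kcol α (Setoid.ker ((skEquiv 0 m n).symm (φ, z))) : A)) =
      ((if baseOK (fun a b => φ a = φ b) then (1 : A) else 0) *
      ((n : A) - (((Finset.univ.filter (fun j => α j = true)).image
        (fun j => φ (.inr (0, j)))).card : A))) *
        ((∏ i, (rk r1 r2 l1 l2).val ((z i).1 = φ (cen i)) ((z i).2 = φ (cen i))
          ((z i).1 = (z i).2)) *
        ∏ i, (if (z i).2 = (z (nx i)).1 then 0 else 1)) := by
    intro z
    have e1 : skW (rk r1 r2 l1 l2) (fun a b => (skEquiv 0 m n).symm (φ, z) a =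
        (skEquiv 0 m n).symm (φ, z) b) =
        (if baseOK (fun a b => φ a = φ b) then (1 : A) else 0) *
        ((∏ i, (rk r1 r2 l1 l2).val ((z i).1 = φ (cen i)) ((z i).2 = φ (cen i))
          ((z i).1 = (z i).2)) *
        ∏ i, (if (z i).2 = (z (nx i)).1 then 0 else 1)) := by
      rw [skW]
      refine congrArg₂ (· * ·) (if_congr Iff.rfl rfl rfl) (congrArg₂ (· * ·) rfl ?_)
      exact Finset.prod_congr rfl fun i _ => ite_eq_ite_of Iff.rfl
    rw [e1, kcol_ker]
    have e2 : ∀ j, (skEquiv 0 m n).symm (φ, z) (.inl (.inr (0, j))) = φ (.inr (0, j)) :=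
      fun j => rfl
    simp only [e2]
    ring
  rw [Finset.sum_congr rfl (fun z _ => h1 z), ← Finset.mul_sum]
  by_cases h : baseOK (fun a b => φ a = φ b)
  · rw [rank_one_sum r1 r2 l1 l2 h]
  · rw [if_neg h, zero_mul, zero_mul, zero_mul]

theorem ZA_rank_one (α : Fin (m + 2) → Bool) (r1 r2 l1 l2 q : ℂ) :
    ZA α (rk r1 r2 l1 l2) q =
      WA m (List.ofFn α) q * fJ (rk r1 r2 l1 l2) q ^ Fintype.card (Ix 0 m) := by
  have hmap : ∀ x : ℂ, ((rk r1 r2 l1 l2).map C).map (evalRingHom x) = rk r1 r2 l1 l2 := by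
    intro x
    simp [Ker.map, rk]
  have h3 : ∀ (x : ℂ) (s : Setoid (Sk 0 m)), evalRingHom x (skW ((rk r1 r2 l1 l2).map C)
        (fun a b => s a b) * (X - (kcol α s : ℂ[X]))) =
        skW (rk r1 r2 l1 l2) (fun a b => s a b) * (x - (kcol α s : ℂ)) := by
    intro x s
    have := skW_map (evalRingHom x) ((rk r1 r2 l1 l2).map C) (fun a b => s a b)
    rw [hmap] at this
    rw [map_mul, this, map_sub, map_natCast, coe_evalRingHom, eval_X]
  have h : setSum (fun s : Setoid (Sk 0 m) => skW ((rk r1 r2 l1 l2).map C) (fun a b => s a b) *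
      (X - (kcol α s : ℂ[X]))) (X : ℂ[X]) =
      WA m (List.ofFn α) X * fJ ((rk r1 r2 l1 l2).map C) X ^ Fintype.card (Ix 0 m) := by
    refine poly_ext_nat fun n => ?_
    have h1 := setSum_map (evalRingHom (n : ℂ))
      (fun s : Setoid (Sk 0 m) => skW ((rk r1 r2 l1 l2).map C) (fun a b => s a b) *
        (X - (kcol α s : ℂ[X]))) X
    simp only [h3] at h1
    rw [coe_evalRingHom, eval_X] at h1
    rw [h1, setSum_nat]
    refine (count_rank_one_A α n r1 r2 l1 l2).trans ?_
    rw [← coe_evalRingHom, map_mul, map_pow, WA_map, fJ_map, hmap, coe_evalRingHom, eval_X]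
  have h1 := setSum_map (evalRingHom q)
      (fun s : Setoid (Sk 0 m) => skW ((rk r1 r2 l1 l2).map C) (fun a b => s a b) *
        (X - (kcol α s : ℂ[X]))) X
  rw [h] at h1
  simp only [h3] at h1
  rw [map_mul, map_pow, WA_map, fJ_map, hmap, coe_evalRingHom, eval_X] at h1
  exact h1.symm

theorem ZA_Ku_limit (α : Fin (m + 2) → Bool) {q lp lm : ℂ} (h1 : lp + lm = trT q)
    (h2 : lp * lm = dtT q) (hq1 : q ≠ 1) (hq2 : q ≠ 2) :
    ZA α (Ku q lp lm 1 0 0) q =
      WA m (List.ofFn α) q * fJ (Ku q lp lm 1 0 0) q ^ Fintype.card (Ix 0 m) := by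
  have ha : (Ku q lp lm 1 0 0).a ≠ 0 := by
    simp only [Ku, t12, g21]
    have e1 := sub_ne_zero.2 hq1
    have e2 := sub_ne_zero.2 hq2
    rw [sub_zero, one_mul]
    exact mul_ne_zero e1 (mul_ne_zero (mul_ne_zero e1 (pow_ne_zero _ e2)) (pow_ne_zero _ e2))
  have hs : (Ku q lp lm 1 0 0).s = 0 := by
    simp only [Ku]; ring
  have hd : (Ku q lp lm 1 0 0).a * (Ku q lp lm 1 0 0).d =
      (Ku q lp lm 1 0 0).b * (Ku q lp lm 1 0 0).c := by
    have h3 : t12 q * t21 q - (t11 q - lm) * (t22 q - lm) = 0 := by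
      have e1 : t11 q + t22 q = trT q := by simp only [t11, t22, trT, kap]; ring
      have e2 : t11 q * t22 q - t12 q * t21 q = dtT q := by
        simp only [t11, t12, t21, t22, dtT, kap]; ring
      linear_combination (-1 : ℂ) * e2 + lm * e1 - lm * h1 + h2
    simp only [Ku]
    linear_combination (q - 1) * g21 q * g12 q * h3
  have hrk : Ku q lp lm 1 0 0 = rk 1 ((Ku q lp lm 1 0 0).c / (Ku q lp lm 1 0 0).a)
      (Ku q lp lm 1 0 0).a (Ku q lp lm 1 0 0).b := by
    ext
    · simp [rk]
    · simp [rk]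
    · simp only [rk]; field_simp
    · simp only [rk]; field_simp; linear_combination hd
    · simp [rk, hs]
  rw [hrk, ZA_rank_one]

end CHR
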