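import Pool.Agent.CHR.HubCount
import Pool.Agent.CHR.WheelCount

/-!
# CHR/HubLocal: roots of the family near roots of subdivided wheels

Package family CHR (MP_5e2eaf_co), architect helper80. Paper text: /team-store/CHR_Proof.md.

PROOF. Exactly as `H37.Chrom.local_root` (H37/Chrom/Local.lean) with `ZA α` in place of `Z p m`,
`WA m (List.ofFn α)` in place of `thP p m` and the polynomial
`WA m (List.ofFn α) X * rsl X ≠ 0` in place of `badP p m` (second factor: see `badP_ne`, its value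
at `3`; evaluation: `WA_map`, `rsl_map`). Used: `cont_ZA_Ku`, `diff_ZA_Ku`, `ZA_Ku_limit`,
`rsl_of_fJ`, `exists_radius`, `exists_unif`, `exists_pow_lt`, `zero_of_close`, `root_ZA_Ku`.
-/

namespace CHR

open H37.Chrom Polynomial Metric Set Filter Topology

theorem local_root_HG {U : Set ℂ} {lp lm ρ σ : ℂ → ℂ} (D : Dom U lp lm ρ σ) {q1 : ℂ}
    (hq1 : q1 ∈ U) {m : ℕ} {α : Fin (m + 2) → Bool}
    (hne : WA m (List.ofFn α) (X : ℂ[X]) ≠ 0) (hW : WA m (List.ofFn α) q1 = 0)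
    {ε : ℝ} (hε : 0 < ε) :
    ∃ q, ‖q - q1‖ < ε ∧ ∃ l, IsChromaticRoot (HG m l α) q := by
  obtain ⟨r, hr, hrU⟩ := Metric.isOpen_iff.1 D.isOpen q1 hq1
  have hPne : WA m (List.ofFn α) (X : ℂ[X]) * rsl X ≠ 0 := by
    refine mul_ne_zero hne ?_
    intro h
    have h2 : (rsl X : ℂ[X]).eval 3 = 0 := by rw [h]; simp
    rw [← coe_evalRingHom, rsl_map, coe_evalRingHom, eval_X] at h2
    exact rsl_three h2
  have hPeval : ∀ q : ℂ, (WA m (List.ofFn α) (X : ℂ[X]) * rsl X).eval q =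
      WA m (List.ofFn α) q * rsl q := by
    intro q
    rw [← coe_evalRingHom, map_mul, WA_map, rsl_map, coe_evalRingHom, eval_X]
  obtain ⟨δ, hδ, hδlt, hsph⟩ := exists_radius (WA m (List.ofFn α) (X : ℂ[X]) * rsl X) hPne q1
    (ε := min ε r) (lt_min hε hr)
  set K : Set ℂ := closedBall q1 δ with hKdef
  have hKU : K ⊆ U := fun z hz => hrU (by
    rw [hKdef, mem_closedBall] at hz
    rw [mem_ball]
    exact hz.trans_lt (hδlt.trans_le (min_le_right _ _)))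
  have hKc : IsCompact K := isCompact_closedBall _ _
  have hKne : K.Nonempty := ⟨q1, mem_closedBall_self hδ.le⟩
  set F : ℂ × ℂ × ℂ → ℂ := fun x => ZA α (Ku x.1 (lp x.1) (lm x.1) 1 x.2.1 x.2.2) x.1 with hFdef
  have hFc : ContinuousOn F (K ×ˢ (closedBall (0 : ℂ) 1 ×ˢ closedBall (0 : ℂ) 1)) := by
    have hf : ContinuousOn (fun x : ℂ × ℂ × ℂ => x.1)
      (K ×ˢ (closedBall (0 : ℂ) 1 ×ˢ closedBall (0 : ℂ) 1)) := continuous_fst.continuousOn
    have hx : ContinuousOn (fun x : ℂ × ℂ × ℂ => x.2.1)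
      (K ×ˢ (closedBall (0 : ℂ) 1 ×ˢ closedBall (0 : ℂ) 1)) := by fun_prop
    have hy : ContinuousOn (fun x : ℂ × ℂ × ℂ => x.2.2)
      (K ×ˢ (closedBall (0 : ℂ) 1 ×ˢ closedBall (0 : ℂ) 1)) := by fun_prop
    have hlp : ContinuousOn (fun x : ℂ × ℂ × ℂ => lp x.1)
      (K ×ˢ (closedBall (0 : ℂ) 1 ×ˢ closedBall (0 : ℂ) 1)) :=
      (D.dlp.continuousOn.mono hKU).comp hf (fun x hx => hx.1)
    have hlm : ContinuousOn (fun x : ℂ × ℂ × ℂ => lm x.1)
      (K ×ˢ (closedBall (0 : ℂ) 1 ×ˢ closedBall (0 : ℂ) 1)) :=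
      (D.dlm.continuousOn.mono hKU).comp hf (fun x hx => hx.1)
    exact cont_ZA_Ku hf hlp hlm hx hy
  set f : ℂ → ℂ := fun q => F (q, 0, 0) with hfdef
  have hfq : ∀ q ∈ K, f q = WA m (List.ofFn α) q * fJ (Ku q (lp q) (lm q) 1 0 0) q ^
      Fintype.card (Ix 0 m) := by
    intro q hq
    exact ZA_Ku_limit α (D.add q (hKU hq)) (D.mul q (hKU hq)) (D.ne1 q (hKU hq))
      (D.ne2 q (hKU hq))
  have hf0 : f q1 = 0 := by
    rw [hfq q1 (mem_closedBall_self hδ.le), hW, zero_mul]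
  have hfs : ∀ z ∈ sphere q1 δ, f z ≠ 0 := by
    intro z hz h
    have hzK : z ∈ K := sphere_subset_closedBall hz
    rw [hfq z hzK] at h
    refine hsph z hz ?_
    rw [hPeval]
    rcases mul_eq_zero.1 h with h | h
    · rw [h, zero_mul]
    · rw [rsl_of_fJ (D.add z (hKU hzK)) (D.mul z (hKU hzK))
        (eq_zero_of_pow_eq_zero h), mul_zero]
  have hfc : ContinuousOn f K := by
    refine hFc.comp (f := fun q : ℂ => (q, (0 : ℂ), (0 : ℂ))) (by fun_prop) ?_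
    intro q hq
    refine ⟨hq, ?_, ?_⟩ <;> simp
  obtain ⟨x0, hx0, hmin⟩ := (isCompact_sphere q1 δ).exists_isMinOn
    (NormedSpace.sphere_nonempty.mpr hδ.le) (hfc.mono sphere_subset_closedBall).norm
  have hη : 0 < ‖f x0‖ := norm_pos_iff.2 (hfs x0 hx0)
  obtain ⟨d, hd, hdu⟩ := exists_unif hKc hFc (η := ‖f x0‖ / 2) (by positivity)
  obtain ⟨l1, hl1⟩ := exists_pow_lt hKc hKne (D.dρ.continuousOn.mono hKU)
    (fun q hq => D.hρ q (hKU hq)) hd
  obtain ⟨l2, hl2⟩ := exists_pow_lt hKc hKne (D.dσ.continuousOn.mono hKU)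
    (fun q hq => D.hσ q (hKU hq)) hd
  set l := max l1 l2 with hl
  set g : ℂ → ℂ := fun q => F (q, ρ q ^ l, σ q ^ l) with hgdef
  have hgd : DifferentiableOn ℂ g K := by
    have d1 : DifferentiableOn ℂ lp K := D.dlp.mono hKU
    have d2 : DifferentiableOn ℂ lm K := D.dlm.mono hKU
    have d3 : DifferentiableOn ℂ ρ K := D.dρ.mono hKU
    have d4 : DifferentiableOn ℂ σ K := D.dσ.mono hKU
    exact diff_ZA_Ku differentiableOn_id d1 d2 (d3.pow l) (d4.pow l)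
  obtain ⟨q, hq, hgq⟩ := zero_of_close hδ hη hgd hf0 (fun z hz => hmin hz) (fun z hz => by
    exact hdu z hz _ _ (hl1 l (le_max_left _ _) z hz) (hl2 l (le_max_right _ _) z hz))
  have hqU := hKU hq
  refine ⟨q, ?_, l, root_ZA_Ku (D.add q hqU) (D.mul q hqU) (D.ne1 q hqU) (D.hlm q hqU)
    (D.hk q hqU) (D.hne q hqU) hgq⟩
  rw [← dist_eq_norm]
  exact lt_of_le_of_lt hq (hδlt.trans_le (min_le_left _ _))

end CHR
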