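import Pool.Agent.CHR.Hub
import Pool.Agent.H37.Chrom.FamPlanar

/-!
# CHR/HubPlanar: planarity of the family with an outer hub

Package family CHR (MP_5e2eaf_co), architect helper80. Paper text: /team-store/CHR_Proof.md.

PROOF. Build `Levelled (HG m l α)` from helper37's `D = levelled 0 m l : Levelled (Gr 0 m l)`:
`L = some D.L`, `R = some D.R`, `row (some a) = D.row a`, `x (some a) = D.x a`, `row none = -1`,
`x none = 0`. The rows of `D` are natural numbers (`rw'`, H37/Chrom/FamPlanar.lean), so `≥ 0`, and
the neighbours `some (.bb 0 j)` of `none` have row `0` (`blk = 0`, `off = 0`) and are not hubs.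
Checks: `inj`: `none` is the only vertex in row `-1`; `hubL`, `hubR`: `none` is not joined to the
hubs (`HG_none_some`); `edge`: an edge `none, some (.bb 0 j)` joins the rows `-1` and `0`; for an
edge of `Gr 0 m l` inside a row `≥ 0` the new vertex `none` is in another row; `band`: if `a = none`
then `row c = -1`, so `c = none`, `x a < x c` is false; otherwise `row a ≥ 0`, so `b, c, d` are
all different from `none` and the statement is that of `D`. Then `Levelled.planar`.
-/

namespace CHR

open H37.Chrom

private lemma rw_nonneg' {m l : ℕ} (a : Vert 0 m l) : 0 ≤ rw' a := by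
  simp only [rw']
  exact Int.natCast_nonneg _

private lemma some_ne' {m l : ℕ} {a b : Vert 0 m l} (h : (some a : Option (Vert 0 m l)) ≠ some b) :
    a ≠ b := fun h1 => h (by rw [h1])

/-- the levelled drawing -/
private noncomputable def levHG (m l : ℕ) (α : Fin (m + 2) → Bool) : Levelled (HG m l α) where
  L := some (.hub false)
  R := some (.hub true)
  row := fun a => a.elim (-1) rw'
  x := fun a => a.elim 0 (levelled 0 m l).x
  hLR := by simp
  nadj := by
    rw [HG_some_some]
    exact (levelled 0 m l).nadj
  x0 := by
    rintro (_ | a) h1 h2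
    · exact le_rfl
    · exact (levelled 0 m l).x0 a (some_ne' h1) (some_ne' h2)
  x1 := by
    rintro (_ | a) h1 h2
    · exact zero_le_one
    · exact (levelled 0 m l).x1 a (some_ne' h1) (some_ne' h2)
  inj := by
    rintro (_ | a) (_ | b) h1 h2 h3 h4 h5 h6
    · rfl
    · exfalso
      have h7 := rw_nonneg' b
      simp only [Option.elim] at h5
      omega
    · exfalso
      have h7 := rw_nonneg' a
      simp only [Option.elim] at h5
      omega
    · rw [(levelled 0 m l).inj a b (some_ne' h1) (some_ne' h2) (some_ne' h3) (some_ne' h4) h5 h6]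
  hubL := by
    rintro (_ | a) h
    · rfl
    · exact (levelled 0 m l).hubL a (HG_some_some.1 h)
  hubR := by
    rintro (_ | a) h
    · obtain ⟨j, _, h2⟩ := HG_none_some.1 h.symm
      cases h2
    · exact (levelled 0 m l).hubR a (HG_some_some.1 h)
  edge := by
    rintro (_ | a) (_ | b) h1 h2 h3 h4 h
    · exact absurd h (SimpleGraph.irrefl _)
    · right; left
      obtain ⟨j, _, rfl⟩ := HG_none_some.1 h
      simp [rw', blk, off]
    · right; right
      obtain ⟨j, _, rfl⟩ := HG_none_some.1 h.symm
      simp [rw', blk, off]
    · rcases (levelled 0 m l).edge a b (some_ne' h1) (some_ne' h2) (some_ne' h3) (some_ne' h4)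
        (HG_some_some.1 h) with ⟨h5, h6⟩ | h5
      · left
        refine ⟨h5, ?_⟩
        rintro (_ | c) h7 h8 h9
        · exfalso
          have h10 := rw_nonneg' a
          simp only [Option.elim] at h9
          omega
        · exact h6 c (some_ne' h7) (some_ne' h8) h9
      · right
        exact h5
  band := by
    rintro (_ | a) (_ | b) (_ | c) (_ | d) h1 h2 h3 h4 h5 h6 h7 h8 hab hcd hr hr2 hr3 hx
    all_goals try (exact absurd hx (lt_irrefl _))
    all_goals try (exact absurd hab (SimpleGraph.irrefl _))
    all_goals try (exact absurd hcd (SimpleGraph.irrefl _))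
    all_goals try (exfalso; have g1 := rw_nonneg' a; simp only [Option.elim] at hr hr2 hr3; omega)
    all_goals try (exfalso; have g1 := rw_nonneg' c; simp only [Option.elim] at hr hr2 hr3; omega)
    exact (levelled 0 m l).band a b c d (some_ne' h1) (some_ne' h2) (some_ne' h3) (some_ne' h4)
      (some_ne' h5) (some_ne' h6) (some_ne' h7) (some_ne' h8) (HG_some_some.1 hab)
      (HG_some_some.1 hcd) hr hr2 hr3 hx

theorem planar_HG (m l : ℕ) (α : Fin (m + 2) → Bool) : Planar (HG m l α) :=
  (levHG m l α).planar

end CHR
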