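import Mathlib

/-!
# CHR/PathTrace: the trace of a product of matrices as a sum over closed sequences

Package family CHR (MP_5e2eaf_co), architect helper80. Paper text: /team-store/CHR_Proof.md.

PROOF. `prod_apply`: by induction on `n` (generalize `A`, `a`). `List.ofFn_succ`,
`List.prod_cons`, `Matrix.mul_apply`; the sum over `x : Fin (n + 2) → X` splits by
`(Fin.consEquiv (fun _ => X))` (or `Fin.consPiProd`, see `path_count` in
H37/Chrom/RankOne.lean) in the sum over `x 0` and the rest; `Fin.prod_univ_succ`.
`trace_ofFn`: `Matrix.trace`, `prod_apply` with `a = b`, exchange the sums: for given `x` exactly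
`a = x (Fin.last n)` contributes.
-/

namespace CHR

variable {X : Type} [Fintype X] [DecidableEq X]

theorem prod_apply (n : ℕ) (A : Fin (n + 1) → Matrix X X ℂ) (a b : X) :
    (List.ofFn A).prod a b = ∑ x : Fin (n + 1) → X,
      (if x (Fin.last n) = b then 1 else 0) *
        (A 0 a (x 0) * ∏ i : Fin n, A i.succ (x i.castSucc) (x i.succ)) := by
  induction n generalizing a with
  | zero =>
    rw [List.ofFn_succ, List.prod_cons, List.ofFn_zero, List.prod_nil, mul_one]
    rw [← Equiv.sum_comp (Equiv.funUnique (Fin 1) X).symm]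
    simp
  | succ n ih =>
    rw [List.ofFn_succ, List.prod_cons, Matrix.mul_apply]
    rw [← Equiv.sum_comp (Fin.consEquiv (fun _ : Fin (n + 2) => X)), Fintype.sum_prod_type]
    refine Finset.sum_congr rfl fun c _ => ?_
    rw [ih (fun i => A i.succ) c, Finset.mul_sum]
    refine Finset.sum_congr rfl fun y _ => ?_
    rw [Fin.prod_univ_succ]
    have h1 : (Fin.consEquiv (fun _ : Fin (n + 2) => X)) (c, y) (Fin.last (n + 1)) =
        y (Fin.last n) := by
      rw [← Fin.succ_last]
      rfl
    have h2 : (Fin.consEquiv (fun _ : Fin (n + 2) => X)) (c, y) 0 = c := rfl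
    have h3 : ∀ i : Fin (n + 1), (Fin.consEquiv (fun _ : Fin (n + 2) => X)) (c, y) i.succ =
        y i := fun _ => rfl
    have h4 : (Fin.consEquiv (fun _ : Fin (n + 2) => X)) (c, y) (Fin.castSucc 0) = c := rfl
    have h5 : ∀ i : Fin n, (Fin.consEquiv (fun _ : Fin (n + 2) => X)) (c, y)
        i.succ.castSucc = y i.castSucc := fun _ => rfl
    rw [h1, h2, h4]
    simp only [h3, h5]
    ring

theorem trace_ofFn (n : ℕ) (A : Fin (n + 1) → Matrix X X ℂ) :
    ((List.ofFn A).prod).trace = ∑ x : Fin (n + 1) → X,
      A 0 (x (Fin.last n)) (x 0) * ∏ i : Fin n, A i.succ (x i.castSucc) (x i.succ) := by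
  rw [Matrix.trace]
  simp only [Matrix.diag_apply, prod_apply]
  rw [Finset.sum_comm]
  refine Finset.sum_congr rfl fun x _ => ?_
  rw [Finset.sum_eq_single (x (Fin.last n))]
  · simp
  · intro b _ hb
    rw [if_neg (Ne.symm hb), zero_mul]
  · intro h
    exact absurd (Finset.mem_univ _) h

end CHR
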