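import Mathlib

/-!
# CHR/Mats: matrices and words (definitions, no sorry)

Package family CHR (MP_5e2eaf_co), architect helper80. Paper text: /team-store/CHR_Proof.md.
-/

namespace CHR

variable {A : Type} [CommRing A]

/-- the transfer matrix of a rim vertex on the classes: colour of `c`, colour of `d`, rest;
`false`: the vertex is joined to `c`; `true`: to `d` -/
def Bm (b : Bool) (q : A) : Matrix (Fin 3) (Fin 3) A :=
  if b then !![0, 0, q - 2; 1, 0, q - 2; 1, 0, q - 3]
  else !![0, 1, q - 2; 0, 0, q - 2; 0, 1, q - 3]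

/-- the chromatic polynomial of the two-hub rim of the word `w` -/
def Rw (w : List Bool) (q : A) : A :=
  q * ((q - 2) ^ w.length + (-1) ^ w.length * (q - 2)) +
    q * (q - 1) * (((w.map (fun b => Bm b q)).prod).trace + (q - 3) * (-1) ^ w.length)

/-- the block `(CD)^j C D^k` (`C = false`, `D = true`); it has `j + 1` C's -/
def blkw (k j : ℕ) : List Bool :=
  (List.replicate j [false, true]).flatten ++ (false :: List.replicate k true)

/-- the word with the blocks `js` -/
def wordw (k : ℕ) (js : List ℕ) : List Bool := (js.map (blkw k)).flatten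

/-- the matrix of `(CD)^j C` -/
def Xm (j : ℕ) (q : A) : Matrix (Fin 3) (Fin 3) A := (Bm false q * Bm true q) ^ j * Bm false q

/-- `v1 l1` -/
def V1 (q : A) : Matrix (Fin 3) (Fin 3) A :=
  !![q - 2, 0, (q - 2) ^ 2; q - 1, 0, (q - 1) * (q - 2); q - 2, 0, (q - 2) ^ 2]

/-- `v2 l2` -/
def V2 (q : A) : Matrix (Fin 3) (Fin 3) A :=
  !![-(q - 2), 0, q - 2; 0, 0, 0; 1, 0, -1]

/-- the main part of the partition function -/
def Phi (js : List ℕ) (q x : A) : A :=
  ((js.map (fun j => Xm j q * (V2 q + x • V1 q))).prod).trace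

/-- the amplitudes of alternating stretches -/
def bet (q : A) : ℕ → A
  | 0 => q - 1
  | 1 => 1
  | j + 2 => ((q - 2) ^ 2 + 2) * bet q (j + 1) - bet q j

lemma bet_succ_succ (q : A) (j : ℕ) :
    bet q (j + 2) = ((q - 2) ^ 2 + 2) * bet q (j + 1) - bet q j := rfl

/-- ring homomorphisms -/
lemma bet_map {B : Type} [CommRing B] (f : A →+* B) (q : A) : ∀ j, f (bet q j) = bet (f q) j
  | 0 => by simp [bet]
  | 1 => by simp [bet]
  | j + 2 => by
    rw [bet_succ_succ, bet_succ_succ, map_sub, map_mul, bet_map f q (j + 1), bet_map f q j,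
      map_add, map_pow, map_sub, map_ofNat]

lemma Bm_map {B : Type} [CommRing B] (f : A →+* B) (b : Bool) (q : A) :
    (Bm b q).map f = Bm b (f q) := by
  ext i j
  have h2 : f 2 = 2 := map_ofNat f 2
  have h3 : f 3 = 3 := map_ofNat f 3
  cases b <;> fin_cases i <;> fin_cases j <;> simp [Bm, h2, h3]

lemma Rw_map {B : Type} [CommRing B] (f : A →+* B) (w : List Bool) (q : A) :
    f (Rw w q) = Rw w (f q) := by
  have h : (f.mapMatrix (w.map (fun b => Bm b q)).prod) = (w.map (fun b => Bm b (f q))).prod := by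
    rw [map_list_prod, List.map_map]
    congr 1
    refine List.map_congr_left fun b _ => ?_
    simp [RingHom.mapMatrix_apply, Bm_map]
  have h2 : f ((w.map (fun b => Bm b q)).prod).trace =
      ((w.map (fun b => Bm b (f q))).prod).trace := by
    rw [← h, RingHom.mapMatrix_apply, Matrix.trace, Matrix.trace, map_sum]
    rfl
  simp only [Rw, map_add, map_mul, map_pow, map_sub, map_neg, map_one, map_ofNat, h2]

end CHR
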