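import Pool.Agent.CHR.ClassKer
import Pool.Agent.CHR.Mats

/-!
# CHR/RimTrace: traces of the transfer matrices of a rim with given hub colours

Package family CHR (MP_5e2eaf_co), architect helper80. Paper text: /team-store/CHR_Proof.md.

`Wm g d b` is the `q × q` transfer matrix of a rim vertex which is joined to a hub of colour `g`
(`b = false`) resp. `d` (`b = true`).

PROOF of `trace_ne` (`g ≠ d`, `q ≥ 3`). Classes `cl : Fin q → Fin 3`, `cl x = 0` if `x = g`, `1` if
`x = d`, `2` otherwise; surjective as `q ≥ 3` (`Fintype.card` of the complement of `{g, d}`);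
`sz cl 0 = 1`, `sz cl 1 = 1`, `sz cl 2 = q - 2`. For every `b`
`Wm g d b = CK cl (Bm b q) (fun j => if j = 2 then -1 else 0)`: check the entries `(x, y)`. With
`j := cl x, k := cl y`: `[x ≠ y][y allowed]`. For `k = 0, 1` (`y = g` or `y = d`) the value of the
right side is `Bm b q j k` (size 1, second summand `0` as it needs `j = k = 2`), for `k = 2`:
`Bm b q j 2 / (q - 2) - [j = 2] ([x = y] - 1/(q-2))`, for `j = 0, 1`: `1`, for `j = 2`:
`(q-3)/(q-2) + 1/(q-2) - [x=y] = 1 - [x = y]`. By `CK_prod` the product is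
`CK cl (∏ Bm) (fun j => (if j = 2 then -1 else 0)^n)` and `CK_trace` gives
`tr + ∑ j, s j (sz j - 1)` where only `j = 2` contributes (sizes one for `j = 0, 1`), namely
`(-1)^n (q - 3)`.

PROOF of `trace_eq` (`g = d`, `q ≥ 2`, at least one vertex). Classes `cl : Fin q → Fin 2`, `0` for
`x = g`, `1` otherwise; sizes `1`, `q - 1`. `Wm g g b = CK cl !![0, q-1; 0, q-2]
(fun j => if j = 1 then -1 else 0)`. The power `!![0, q-1; 0, q-2]^n` has trace `(q-2)^n` for
`n ≥ 1` (`!![0, a; 0, c]^(n+1) = !![0, a c^n; 0, c^(n+1)]`), the second part is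
`(-1)^n (q - 2)`.
-/

namespace CHR

/-- transfer matrix of a rim vertex, hub colours `g` (for `false`) and `d` (for `true`) -/
def Wm {q : ℕ} (g d : Fin q) (b : Bool) : Matrix (Fin q) (Fin q) ℂ :=
  Matrix.of fun x y => if x ≠ y ∧ y ≠ (if b then d else g) then 1 else 0

private def rtcl {q : ℕ} (g d : Fin q) (x : Fin q) : Fin 3 :=
  if x = g then 0 else if x = d then 1 else 2

private lemma rtcl_g {q : ℕ} (g d : Fin q) : rtcl g d g = 0 := by simp [rtcl]

private lemma rtcl_d {q : ℕ} {g d : Fin q} (h : g ≠ d) : rtcl g d d = 1 := by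
  simp [rtcl, h.symm]

private lemma rtcl_o {q : ℕ} {g d x : Fin q} (h1 : x ≠ g) (h2 : x ≠ d) : rtcl g d x = 2 := by
  simp [rtcl, h1, h2]

private lemma rt_sz0 {q : ℕ} {g d : Fin q} (h : g ≠ d) : sz (rtcl g d) 0 = 1 := by
  have h1 : Finset.univ.filter (fun x => rtcl g d x = 0) = {g} := by
    ext x
    simp only [Finset.mem_filter, Finset.mem_univ, true_and, Finset.mem_singleton]
    by_cases hx : x = g
    · simp [hx, rtcl_g]
    · by_cases hx' : x = d
      · subst hx'
        simp [rtcl_d h, hx]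
      · simp [rtcl_o hx hx', hx]
  simp [sz, h1]

private lemma rt_sz1 {q : ℕ} {g d : Fin q} (h : g ≠ d) : sz (rtcl g d) 1 = 1 := by
  have h1 : Finset.univ.filter (fun x => rtcl g d x = 1) = {d} := by
    ext x
    simp only [Finset.mem_filter, Finset.mem_univ, true_and, Finset.mem_singleton]
    by_cases hx : x = g
    · subst hx
      simp [rtcl_g, h]
    · by_cases hx' : x = d
      · subst hx'
        simp [rtcl_d h]
      · simp [rtcl_o hx hx', hx']
  simp [sz, h1]

private lemma rt_sz2 {q : ℕ} (hq : 3 ≤ q) {g d : Fin q} (h : g ≠ d) :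
    sz (rtcl g d) 2 = (q : ℂ) - 2 := by
  have h1 : Finset.univ.filter (fun x => rtcl g d x = 2) = Finset.univ \ {g, d} := by
    ext x
    simp only [Finset.mem_filter, Finset.mem_univ, true_and, Finset.mem_sdiff,
      Finset.mem_insert, Finset.mem_singleton]
    by_cases hx : x = g
    · subst hx
      simp [rtcl_g]
    · by_cases hx' : x = d
      · subst hx'
        simp [rtcl_d h]
      · simp [rtcl_o hx hx', hx, hx']
  have h2 : (Finset.univ \ {g, d} : Finset (Fin q)).card = q - 2 := by
    rw [Finset.card_sdiff_of_subset (Finset.subset_univ _), Finset.card_univ, Fintype.card_fin,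
      Finset.card_pair h]
  rw [sz, h1, h2, Nat.cast_sub (by omega)]
  simp

private lemma rt_surj {q : ℕ} (hq : 3 ≤ q) {g d : Fin q} (h : g ≠ d) :
    Function.Surjective (rtcl g d) := by
  intro j
  fin_cases j
  · exact ⟨g, rtcl_g g d⟩
  · exact ⟨d, rtcl_d h⟩
  · have h2 : ({g, d} : Finset (Fin q)).card < Fintype.card (Fin q) := by
      rw [Finset.card_pair h, Fintype.card_fin]
      omega
    obtain ⟨x, hx⟩ := Finset.exists_mem_notMem_of_card_lt_card
      (s := {g, d}) (t := Finset.univ) (by simpa using h2)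
    have hx2 := hx.2
    simp only [Finset.mem_insert, Finset.mem_singleton, not_or] at hx2
    exact ⟨x, rtcl_o hx2.1 hx2.2⟩

private lemma rt_Wm {q : ℕ} (hq : 3 ≤ q) {g d : Fin q} (h : g ≠ d) (b : Bool) :
    Wm g d b = CK (rtcl g d) (Bm b (q : ℂ)) (fun j => if j = 2 then -1 else 0) := by
  have hq2 : (q : ℂ) - 2 ≠ 0 := by
    have h3 : ((q - 2 : ℕ) : ℂ) ≠ 0 := Nat.cast_ne_zero.mpr (by omega)
    rwa [Nat.cast_sub (by omega), Nat.cast_ofNat] at h3
  have e0 := rt_sz0 h
  have e1 := rt_sz1 h
  have e2 := rt_sz2 hq h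
  have hdg : d ≠ g := h.symm
  ext x y
  simp only [Wm, CK, Matrix.of_apply]
  by_cases hxg : x = g
  · subst hxg
    rw [rtcl_g]
    by_cases hyg : y = x
    · subst hyg
      rw [rtcl_g, e0]
      cases b <;> simp [Bm]
    · by_cases hyd : y = d
      · subst hyd
        rw [rtcl_d h, e1]
        cases b <;> simp [Bm, h, hdg]
      · rw [rtcl_o hyg hyd, e2]
        cases b <;> simp [Bm, hyg, hyd, Ne.symm hyg, hq2]
  · by_cases hxd : x = d
    · subst hxd
      rw [rtcl_d h]
      by_cases hyg : y = g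
      · subst hyg
        rw [rtcl_g, e0]
        cases b <;> simp [Bm, h, hdg]
      · by_cases hyd : y = x
        · subst hyd
          rw [rtcl_d h, e1]
          cases b <;> simp [Bm]
        · rw [rtcl_o hyg hyd, e2]
          cases b <;> simp [Bm, hyg, hyd, Ne.symm hyd, hq2]
    · rw [rtcl_o hxg hxd]
      by_cases hyg : y = g
      · subst hyg
        rw [rtcl_g, e0]
        cases b <;> simp [Bm, hxg, h]
      · by_cases hyd : y = d
        · subst hyd
          rw [rtcl_d h, e1]
          cases b <;> simp [Bm, hxd, hdg]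
        · rw [rtcl_o hyg hyd, e2]
          by_cases hxy : x = y
          · subst hxy
            cases b <;>
            · simp [Bm]
              field_simp
              ring
          · cases b <;>
            · simp [Bm, hyg, hyd, hxy]
              field_simp
              ring

theorem trace_ne {q : ℕ} (hq : 3 ≤ q) {g d : Fin q} (h : g ≠ d) (w : List Bool) :
    ((w.map (Wm g d)).prod).trace =
      ((w.map (fun b => Bm b (q : ℂ))).prod).trace + ((q : ℂ) - 3) * (-1) ^ w.length := by
  have h1 : w.map (Wm g d) = (w.map (fun b => ((Bm b (q : ℂ),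
      (fun j : Fin 3 => if j = 2 then (-1 : ℂ) else 0)) :
        Matrix (Fin 3) (Fin 3) ℂ × (Fin 3 → ℂ)))).map (fun p => CK (rtcl g d) p.1 p.2) := by
    rw [List.map_map]
    exact List.map_congr_left fun b _ => rt_Wm hq h b
  rw [h1, CK_prod (rt_surj hq h), CK_trace (rt_surj hq h)]
  simp only [List.map_map, Function.comp_def]
  congr 1
  simp only [List.map_const', List.prod_replicate]
  rw [Fin.sum_univ_three, rt_sz0 h, rt_sz1 h, rt_sz2 hq h]
  simp
  ring

private def rtcl2 {q : ℕ} (g : Fin q) (x : Fin q) : Fin 2 := if x = g then 0 else 1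

private lemma rtcl2_g {q : ℕ} (g : Fin q) : rtcl2 g g = 0 := by simp [rtcl2]

private lemma rtcl2_o {q : ℕ} {g x : Fin q} (h1 : x ≠ g) : rtcl2 g x = 1 := by
  simp [rtcl2, h1]

private lemma rt2_sz0 {q : ℕ} (g : Fin q) : sz (rtcl2 g) 0 = 1 := by
  have h1 : Finset.univ.filter (fun x => rtcl2 g x = 0) = {g} := by
    ext x
    simp only [Finset.mem_filter, Finset.mem_univ, true_and, Finset.mem_singleton]
    by_cases hx : x = g
    · simp [hx, rtcl2_g]
    · simp [rtcl2_o hx, hx]
  simp [sz, h1]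

private lemma rt2_sz1 {q : ℕ} (hq : 2 ≤ q) (g : Fin q) : sz (rtcl2 g) 1 = (q : ℂ) - 1 := by
  have h1 : Finset.univ.filter (fun x => rtcl2 g x = 1) = Finset.univ \ {g} := by
    ext x
    simp only [Finset.mem_filter, Finset.mem_univ, true_and, Finset.mem_sdiff,
      Finset.mem_singleton]
    by_cases hx : x = g
    · subst hx
      simp [rtcl2_g]
    · simp [rtcl2_o hx, hx]
  have h2 : (Finset.univ \ {g} : Finset (Fin q)).card = q - 1 := by
    rw [Finset.card_sdiff_of_subset (Finset.subset_univ _), Finset.card_univ, Fintype.card_fin,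
      Finset.card_singleton]
  rw [sz, h1, h2, Nat.cast_sub (by omega)]
  simp

private lemma rt2_surj {q : ℕ} (hq : 2 ≤ q) (g : Fin q) : Function.Surjective (rtcl2 g) := by
  intro j
  fin_cases j
  · exact ⟨g, rtcl2_g g⟩
  · have h2 : ({g} : Finset (Fin q)).card < Fintype.card (Fin q) := by
      rw [Finset.card_singleton, Fintype.card_fin]
      omega
    obtain ⟨x, hx⟩ := Finset.exists_mem_notMem_of_card_lt_card
      (s := {g}) (t := Finset.univ) (by simpa using h2)
    have hx2 := hx.2
    simp only [Finset.mem_singleton] at hx2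
    exact ⟨x, rtcl2_o hx2⟩

private lemma rt2_Wm {q : ℕ} (hq : 2 ≤ q) (g : Fin q) (b : Bool) :
    Wm g g b = CK (rtcl2 g) !![0, (q : ℂ) - 1; 0, (q : ℂ) - 2]
      (fun j => if j = 1 then -1 else 0) := by
  have hq2 : (q : ℂ) - 1 ≠ 0 := by
    have h3 : ((q - 1 : ℕ) : ℂ) ≠ 0 := Nat.cast_ne_zero.mpr (by omega)
    rwa [Nat.cast_sub (by omega), Nat.cast_one] at h3
  have e0 := rt2_sz0 g
  have e1 := rt2_sz1 hq g
  ext x y
  simp only [Wm, CK, Matrix.of_apply, ite_self]
  by_cases hxg : x = g
  · subst hxg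
    rw [rtcl2_g]
    by_cases hyg : y = x
    · subst hyg
      rw [rtcl2_g, e0]
      simp
    · rw [rtcl2_o hyg, e1]
      simp [hyg, Ne.symm hyg, hq2]
  · rw [rtcl2_o hxg]
    by_cases hyg : y = g
    · subst hyg
      rw [rtcl2_g, e0]
      simp [hxg]
    · rw [rtcl2_o hyg, e1]
      by_cases hxy : x = y
      · subst hxy
        simp
        field_simp
        ring
      · simp [hyg, hxy]
        field_simp
        ring

private lemma rt2_pow (a c : ℂ) (n : ℕ) :
    (!![0, a; 0, c] : Matrix (Fin 2) (Fin 2) ℂ) ^ (n + 1) = !![0, a * c ^ n; 0, c ^ (n + 1)] := by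
  induction n with
  | zero => simp
  | succ n ih =>
    rw [pow_succ, ih]
    ext i j
    fin_cases i <;> fin_cases j <;> simp [Matrix.mul_apply, Fin.sum_univ_two] <;> ring

theorem trace_eq {q : ℕ} (hq : 2 ≤ q) (g : Fin q) {w : List Bool} (hw : w ≠ []) :
    ((w.map (Wm g g)).prod).trace =
      ((q : ℂ) - 2) ^ w.length + (-1) ^ w.length * ((q : ℂ) - 2) := by
  have h1 : w.map (Wm g g) = (w.map (fun _ => ((!![0, (q : ℂ) - 1; 0, (q : ℂ) - 2],
      (fun j : Fin 2 => if j = 1 then (-1 : ℂ) else 0)) :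
        Matrix (Fin 2) (Fin 2) ℂ × (Fin 2 → ℂ)))).map (fun p => CK (rtcl2 g) p.1 p.2) := by
    rw [List.map_map]
    exact List.map_congr_left fun b _ => rt2_Wm hq g b
  rw [h1, CK_prod (rt2_surj hq g), CK_trace (rt2_surj hq g)]
  simp only [List.map_const', List.map_replicate, List.prod_replicate]
  obtain ⟨n, hn⟩ : ∃ n, w.length = n + 1 :=
    Nat.exists_eq_succ_of_ne_zero (by simpa using hw)
  rw [hn, rt2_pow, Fin.sum_univ_two, rt2_sz0 g, rt2_sz1 hq g]
  simp [Matrix.trace, Fin.sum_univ_two]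
  ring

end CHR
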