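import Pool.Agent.CHR.Rim
import Pool.Agent.CHR.RimTrace
import Pool.Agent.CHR.PathTrace
import Pool.Agent.H37.Chrom.Count

/-!
# CHR/RimCount: the chromatic polynomial of a two-hub rim

Package family CHR (MP_5e2eaf_co), architect helper80. Paper text: /team-store/CHR_Proof.md.

PROOF of `card_rim`. A colouring of `RG τ` with `Fin q` is a map `F : RV n → Fin q`, proper on all
edges; it is given by `g = F (hub false)`, `d = F (hub true)` and `x : Fin n → Fin q`,
`x i = F (rim i)`. With `n = k + 1`, `k ≥ 2`, proper means: `x i.castSucc ≠ x i.succ` for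
`i : Fin k`, `x (Fin.last k) ≠ x 0`, and `x i ≠ (if τ i then d else g)` for all `i`
(use `RG_adj`, `Cyc`). So the number of colourings is
`∑ g, ∑ d, ∑ x, [proper]` and `[proper] = Wm g d (τ 0) (x (last)) (x 0) *
∏ i : Fin k, Wm g d (τ i.succ) (x i.castSucc) (x i.succ)` (a product of indicator functions). By
`trace_ofFn` this is `∑ g, ∑ d, (List.ofFn (fun i => Wm g d (τ i))).prod.trace`, and
`List.ofFn (fun i => Wm g d (τ i)) = (List.ofFn τ).map (Wm g d)` (`List.map_ofFn`). The `q` pairs
`g = d` contribute `trace_eq`, the `q (q - 1)` pairs `g ≠ d` contribute `trace_ne`: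
`∑ g, ∑ d, (if g = d then E else N) = q * E + q (q - 1) * N`.

PROOF of `root_of_Rw`. `F := Rw (List.ofFn τ) (X : ℂ[X])` has `F.eval q = Rw (List.ofFn τ) q`
(`Rw_map` with `Polynomial.evalRingHom q`). `(H37.Chrom.chromPoly G).map (algebraMap ℤ ℂ)` and `F`
agree at all natural `q ≥ 3` (`chromPoly_eval`, `card_rim`; compare the proof of
`H37.Chrom.isChromaticRoot_of`), so they are equal (`H37.Chrom.poly_ext_nat'`), and
`P := chromPoly G` shows `IsChromaticRoot`.
-/

namespace CHR

open H37.Chrom Polynomial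

private def RimCountOk {q k : ℕ} (τ : Fin (k + 1) → Bool) (g d : Fin q)
    (x : Fin (k + 1) → Fin q) : Prop :=
  (x (Fin.last k) ≠ x 0 ∧ x 0 ≠ (if τ 0 then d else g)) ∧
    ∀ i : Fin k, x i.castSucc ≠ x i.succ ∧ x i.succ ≠ (if τ i.succ then d else g)

private lemma RimCountOk.spoke {q k : ℕ} {τ : Fin (k + 1) → Bool} {g d : Fin q}
    {x : Fin (k + 1) → Fin q} (h : RimCountOk τ g d x) (i : Fin (k + 1)) :
    x i ≠ (if τ i then d else g) := by
  refine Fin.cases ?_ (fun j => ?_) i
  · exact h.1.2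
  · exact (h.2 j).2

private lemma RimCountOk.step {q k : ℕ} {τ : Fin (k + 1) → Bool} {g d : Fin q}
    {x : Fin (k + 1) → Fin q} (h : RimCountOk τ g d x) {i j : Fin (k + 1)} (hij : Cyc i j) :
    x i ≠ x j := by
  rcases hij with hij | ⟨h1, h2⟩
  · have hi : i.val < k := by have := j.isLt; omega
    have e1 : i = (⟨i.val, hi⟩ : Fin k).castSucc := by ext; rfl
    have e2 : j = (⟨i.val, hi⟩ : Fin k).succ := by ext; simp [hij]
    rw [e1, e2]
    exact (h.2 _).1
  · have e1 : i = Fin.last k := by ext; simp; omega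
    have e2 : j = 0 := by ext; simpa using h2
    rw [e1, e2]
    exact h.1.1

private def RimCountEquiv {q k : ℕ} (hk : 2 ≤ k) (τ : Fin (k + 1) → Bool) :
    (RG τ).Coloring (Fin q) ≃
      {p : (Fin q × Fin q) × (Fin (k + 1) → Fin q) // RimCountOk τ p.1.1 p.1.2 p.2} where
  toFun c := ⟨((c (.hub false), c (.hub true)), fun i => c (.rim i)), by
    have hs : ∀ i : Fin (k + 1), c (.rim i) ≠ (if τ i then c (.hub true) else c (.hub false)) := by
      intro i
      have h := c.valid (RG_spoke (τ := τ) i)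
      cases hb : τ i
      · rw [hb] at h; simpa using h
      · rw [hb] at h; simpa using h
    have hc : ∀ i j : Fin (k + 1), Cyc i j → c (.rim i) ≠ c (.rim j) := by
      intro i j hij
      exact c.valid (RG_step hij (hij.ne (by omega)))
    refine ⟨⟨hc _ _ (Or.inr ⟨by simp, rfl⟩), hs 0⟩, fun i => ⟨hc _ _ (Or.inl (by simp)), hs _⟩⟩⟩
  invFun p := SimpleGraph.Coloring.mk (fun v => match v with
      | .rim i => p.1.2 i
      | .hub b => if b then p.1.1.2 else p.1.1.1) (by
    intro a b hab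
    have key : ∀ a b : RV (k + 1), RE τ a b →
        (match a with
          | .rim i => p.1.2 i
          | .hub b => if b then p.1.1.2 else p.1.1.1) ≠
        (match b with
          | .rim i => p.1.2 i
          | .hub b => if b then p.1.1.2 else p.1.1.1) := by
      intro a b h
      cases h with
      | step i j h => exact p.2.step h
      | spoke i => exact p.2.spoke i
    rcases (RG_adj.1 hab).2 with h | h
    · exact key a b h
    · exact (key b a h).symm)
  left_inv c := by
    ext v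
    cases v with
    | rim i => rfl
    | hub b => cases b <;> rfl
  right_inv p := by
    obtain ⟨⟨⟨g, d⟩, x⟩, hp⟩ := p
    rfl

private lemma RimCount_prod {q k : ℕ} (τ : Fin (k + 1) → Bool) (g d : Fin q)
    (x : Fin (k + 1) → Fin q) [Decidable (RimCountOk τ g d x)] :
    (if RimCountOk τ g d x then (1 : ℂ) else 0) =
      Wm g d (τ 0) (x (Fin.last k)) (x 0) *
        ∏ i : Fin k, Wm g d (τ i.succ) (x i.castSucc) (x i.succ) := by
  have h1 : ∏ i : Fin k, Wm g d (τ i.succ) (x i.castSucc) (x i.succ) =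
      if ∀ i : Fin k, x i.castSucc ≠ x i.succ ∧ x i.succ ≠ (if τ i.succ then d else g)
        then 1 else 0 := by
    simp only [Wm, Matrix.of_apply]
    rw [Finset.prod_boole]
    simp
  rw [h1]
  simp only [Wm, Matrix.of_apply]
  by_cases hA : x (Fin.last k) ≠ x 0 ∧ x 0 ≠ (if τ 0 then d else g)
  · by_cases hB : ∀ i : Fin k, x i.castSucc ≠ x i.succ ∧
        x i.succ ≠ (if τ i.succ then d else g)
    · rw [if_pos hA, if_pos hB, if_pos ⟨hA, hB⟩, one_mul]
    · rw [if_neg hB, if_neg (fun h => hB h.2), mul_zero]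
  · rw [if_neg hA, if_neg (fun h => hA h.1), zero_mul]

theorem card_rim {n : ℕ} (hn : 3 ≤ n) (τ : Fin n → Bool) {q : ℕ} (hq : 3 ≤ q) :
    (Nat.card ((RG τ).Coloring (Fin q)) : ℂ) = Rw (List.ofFn τ) (q : ℂ) := by
  classical
  obtain ⟨k, rfl⟩ : ∃ k, n = k + 1 := ⟨n - 1, by omega⟩
  have hk : 2 ≤ k := by omega
  rw [Nat.card_congr (RimCountEquiv hk τ), Nat.card_eq_fintype_card, Fintype.card_subtype,
    ← Finset.sum_boole, Fintype.sum_prod_type, Fintype.sum_prod_type]
  have hlen : (List.ofFn τ).length = k + 1 := List.length_ofFn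
  have hne : List.ofFn τ ≠ [] := by
    intro h
    rw [h] at hlen
    simp at hlen
  have h1 : ∀ g d : Fin q,
      (∑ x : Fin (k + 1) → Fin q, if RimCountOk τ g d x then (1 : ℂ) else 0) =
        (((List.ofFn τ).map (Wm g d)).prod).trace := by
    intro g d
    rw [List.map_ofFn, trace_ofFn]
    refine Finset.sum_congr rfl fun x _ => ?_
    exact RimCount_prod τ g d x
  have h2 : ∀ g d : Fin q, (((List.ofFn τ).map (Wm g d)).prod).trace =
      (if g = d then (((q : ℂ) - 2) ^ (k + 1) + (-1) ^ (k + 1) * ((q : ℂ) - 2)) -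
        ((((List.ofFn τ).map (fun b => Bm b (q : ℂ))).prod).trace +
          ((q : ℂ) - 3) * (-1) ^ (k + 1)) else 0) +
      ((((List.ofFn τ).map (fun b => Bm b (q : ℂ))).prod).trace +
          ((q : ℂ) - 3) * (-1) ^ (k + 1)) := by
    intro g d
    by_cases h : g = d
    · subst h
      rw [trace_eq (by omega) g hne, hlen, if_pos rfl]
      ring
    · rw [trace_ne hq h, hlen, if_neg h, zero_add]
  simp only [h1, h2, Finset.sum_add_distrib, Finset.sum_ite_eq, Finset.mem_univ, if_true,
    Finset.sum_const, Finset.card_univ, Fintype.card_fin, nsmul_eq_mul, Rw, hlen]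
  ring

theorem root_of_Rw {n : ℕ} (hn : 3 ≤ n) (τ : Fin n → Bool) {q : ℂ}
    (h : Rw (List.ofFn τ) q = 0) : IsChromaticRoot (RG τ) q := by
  refine ⟨chromPoly (RG τ), chromPoly_eval _, ?_⟩
  have hF : ∀ r : ℂ, (Rw (List.ofFn τ) (X : ℂ[X])).eval r = Rw (List.ofFn τ) r := by
    intro r
    have := Rw_map (Polynomial.evalRingHom r) (List.ofFn τ) (X : ℂ[X])
    simpa using this
  have hp : (chromPoly (RG τ)).map (algebraMap ℤ ℂ) = Rw (List.ofFn τ) (X : ℂ[X]) := by
    refine poly_ext_nat' 3 fun m hm => ?_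
    rw [hF, ← card_rim hn τ hm]
    have h1 : eval (m : ℂ) ((chromPoly (RG τ)).map (algebraMap ℤ ℂ)) =
        (((chromPoly (RG τ)).eval (m : ℤ) : ℤ) : ℂ) := by
      rw [eval_map]
      have := Polynomial.eval₂_at_intCast (algebraMap ℤ ℂ) (n := (m : ℤ))
        (p := chromPoly (RG τ))
      simpa using this
    rw [h1, chromPoly_eval]
    simp
  have h0 := hF q
  rw [h, ← hp, eval_map] at h0
  rw [aeval_def]
  exact h0

end CHR
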