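import Pool.Agent.CHR.Mats

/-!
# CHR/Words: the partition function of the words `wordw k js`

Package family CHR (MP_5e2eaf_co), architect helper80. Paper text: /team-store/CHR_Proof.md.

PROOFS. Everything holds over any commutative ring.
* `Bm_true_pow`: `(q - 1) • Bm true q ^ (k + 1) = (q - 2)^k • V1 q - (-1)^(k+1) • V2 q`, induction
  on `k`: `V1 * Bm true = (q - 2) • V1`, `V2 * Bm true = - V2`, and for `k = 0`
  `V1 + V2 = (q - 1) • Bm true` (entrywise, `ext i j; fin_cases i <;> fin_cases j`).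
* `blk_prod`: the product over one block `blkw (k+1) j` is
  `Xm j q * Bm true q ^ (k + 1)` (`List.map_append`, `List.prod_append`, `List.map_replicate`,
  `List.prod_replicate`; the flattened replicate: induction on `j`). Hence
  `(q - 1) (-1)^(k+2) • (product) = Xm j q * (V2 q + x • V1 q)`, with `x = (2 - q)^k`:
  `(-1)^(k+2) (q-2)^k = (2-q)^k` and `-(-1)^(k+2)(-1)^(k+1) = 1`.
* `word_prod`: by induction on `js`:
  `(q - 1)^N (-1)^((k+2) N) • ((wordw (k+1) js).map Bm).prod
    = (js.map (fun j => Xm j q * (V2 q + x • V1 q))).prod`, `N = js.length`.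
* `length_wordw`: length of `blkw k j` is `2 j + 1 + k`.
* `word_identity`: `n = (wordw (k+1) js).length = ∑ (2 j + k + 2)`, so `(-1)^n = (-1)^((k+2) N)`,
  and `(-1)^n (q - 2)^n = (2 - q)^n`, `(-1)^n (-1)^n = 1`. Write `N = N' + 1`:
  `(q-1)^N' (-1)^n Rw = q ((q-1)^N' ((2-q)^n + (q - 2)) + (q-1)^N' (q-1) (q - 3)
    + (q-1)^N (-1)^n tr)` and `(q - 2) + (q-1)(q-3) = q^2 - 3 q + 1`.
* `Phi_zero`: `V2 q = v2 l2` (rank one: `Matrix.vecMulVec v2 l2`, `v2 = ![-(q-2), 0, 1]`,
  `l2 = ![1, 0, -1]`), so `tr ∏ (Xm j V2) = ∏ (l2 ⬝ᵥ Xm j v2)`; and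
  `l2 ⬝ᵥ (Xm j q *ᵥ v2) = bet q (j + 1)`. For the latter: let `u_j = l2 ᵥ* (Xm j q)`, a row
  vector `(0, p_j, s_j)`, `u_0 = (0, 0, 1)`, `u_{j+1} = u_j ᵥ* (Bm true q * Bm false q)`, i.e.
  with `z = q - 2`: `p' = (z+1) p + z s`, `s' = z^2 p + (z^2 - z + 1) s`, and
  `u_j ⬝ᵥ v2 = s_j`. The recursion `s_{j+2} = (z^2+2) s_{j+1} - s_j` follows by `ring`
  (trace `z^2+2`, determinant 1); `s_0 = 1 = bet 1`, `s_1 = z^2 - z + 1 = bet 2`.
-/

namespace CHR

variable {A : Type} [CommRing A]

private lemma words_V1_mul (q : A) : V1 q * Bm true q = (q - 2) • V1 q := by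
  ext i j
  fin_cases i <;> fin_cases j <;>
    simp [V1, Bm, Matrix.mul_apply, Fin.sum_univ_three] <;> ring

private lemma words_V2_mul (q : A) : V2 q * Bm true q = - V2 q := by
  ext i j
  fin_cases i <;> fin_cases j <;>
    simp [V2, Bm, Matrix.mul_apply, Fin.sum_univ_three] <;> ring

private lemma words_V1_add (q : A) : (q - 1) • Bm true q = V1 q + V2 q := by
  ext i j
  fin_cases i <;> fin_cases j <;>
    simp [V1, V2, Bm] <;> ring

theorem Bm_true_pow (q : A) (k : ℕ) :
    (q - 1) • Bm true q ^ (k + 1) = (q - 2) ^ k • V1 q - (-1 : A) ^ (k + 1) • V2 q := by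
  induction k with
  | zero => simp [words_V1_add]
  | succ k ih =>
    rw [pow_succ, ← smul_mul_assoc, ih, sub_mul, smul_mul_assoc, smul_mul_assoc, words_V1_mul,
      words_V2_mul, smul_smul, pow_succ (q - 2) k, pow_succ (-1 : A) (k + 1), smul_neg,
      mul_neg, mul_one, neg_smul]

theorem blk_prod (q : A) (k j : ℕ) :
    ((q - 1) * (-1) ^ k) • (((blkw (k + 1) j).map (fun b => Bm b q)).prod) =
      Xm j q * (V2 q + (2 - q) ^ k • V1 q) := by
  have h1 : ∀ j : ℕ, (((List.replicate j [false, true]).flatten).map (fun b => Bm b q)).prod =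
      (Bm false q * Bm true q) ^ j := by
    intro j
    induction j with
    | zero => simp
    | succ j ih =>
      rw [List.replicate_succ, List.flatten_cons, List.map_append, List.prod_append, ih,
        pow_succ']
      simp
  have h2 : ((blkw (k + 1) j).map (fun b => Bm b q)).prod = Xm j q * Bm true q ^ (k + 1) := by
    rw [blkw, List.map_append, List.prod_append, h1, List.map_cons, List.prod_cons,
      List.map_replicate, List.prod_replicate, Xm, mul_assoc]
  have h3 : ((-1 : A) ^ k) * (-1) ^ k = 1 := by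
    rw [← mul_pow]; simp
  have h4 : ((-1 : A) ^ k) * (q - 2) ^ k = (2 - q) ^ k := by
    rw [← mul_pow]; congr 1; ring
  rw [h2, ← mul_smul_comm, mul_comm (q - 1), mul_smul, Bm_true_pow, smul_sub, smul_smul,
    smul_smul, h4, pow_succ, ← mul_assoc, h3]
  congr 1
  rw [one_mul, neg_one_smul, sub_neg_eq_add, add_comm]

theorem length_wordw (k : ℕ) (js : List ℕ) :
    (wordw k js).length = (js.map (fun j => 2 * j + 1 + k)).sum := by
  have h : ∀ j, (blkw k j).length = 2 * j + 1 + k := by
    intro j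
    simp only [blkw, List.length_append, List.length_flatten, List.map_replicate,
      List.length_cons, List.length_nil, List.sum_replicate, List.length_replicate,
      smul_eq_mul]
    omega
  rw [wordw, List.length_flatten, List.map_map]
  congr 1
  exact List.map_congr_left fun j _ => h j

private lemma words_prod (q : A) (k : ℕ) (js : List ℕ) :
    ((q - 1) * (-1) ^ k) ^ js.length • (((wordw (k + 1) js).map (fun b => Bm b q)).prod) =
      (js.map (fun j => Xm j q * (V2 q + (2 - q) ^ k • V1 q))).prod := by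
  induction js with
  | nil => simp [wordw]
  | cons j js ih =>
    have h1 : wordw (k + 1) (j :: js) = blkw (k + 1) j ++ wordw (k + 1) js := by
      simp [wordw]
    rw [h1, List.map_append, List.prod_append, List.length_cons, List.map_cons, List.prod_cons,
      ← ih, ← blk_prod, pow_succ', smul_mul_smul_comm]

private lemma words_sign (k : ℕ) (js : List ℕ) :
    (-1 : A) ^ (wordw (k + 1) js).length = ((-1) ^ k) ^ js.length := by
  rw [length_wordw]
  induction js with
  | nil => simp
  | cons j js ih =>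
    rw [List.map_cons, List.sum_cons, pow_add, ih, List.length_cons, pow_succ']
    congr 1
    have h : 2 * j + 1 + (k + 1) = 2 * (j + 1) + k := by ring
    rw [h, pow_add, pow_mul]
    simp

theorem word_identity (k : ℕ) (N : ℕ) (js : List ℕ) (hjs : js.length = N + 1) (q : A) :
    (q - 1) ^ N * (-1) ^ (wordw (k + 1) js).length * Rw (wordw (k + 1) js) q =
      q * ((q - 1) ^ N * ((2 - q) ^ (wordw (k + 1) js).length + (q ^ 2 - 3 * q + 1)) +
        Phi js q ((2 - q) ^ k)) := by
  have h1 := congrArg Matrix.trace (words_prod q k js)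
  rw [Matrix.trace_smul, smul_eq_mul, hjs] at h1
  have h2 := words_sign (A := A) k js
  rw [hjs] at h2
  have h3 : ((-1 : A) ^ (wordw (k + 1) js).length) * (-1) ^ (wordw (k + 1) js).length = 1 := by
    rw [← mul_pow]; simp
  have h4 : ((-1 : A) ^ (wordw (k + 1) js).length) * (q - 2) ^ (wordw (k + 1) js).length =
      (2 - q) ^ (wordw (k + 1) js).length := by
    rw [← mul_pow]; congr 1; ring
  rw [mul_pow, ← h2, pow_succ] at h1
  rw [Phi, ← h1, ← h4, Rw]
  linear_combination (q * (q - 1) ^ N * ((q - 2) + (q - 1) * (q - 3))) * h3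

private def wl2 : Fin 3 → A := ![1, 0, -1]

private def wv2 (q : A) : Fin 3 → A := ![-(q - 2), 0, 1]

private lemma words_V2 (q : A) : V2 q = Matrix.vecMulVec (wv2 q) wl2 := by
  ext i j
  fin_cases i <;> fin_cases j <;> simp [V2, Matrix.vecMulVec, wv2, wl2]

private lemma words_rank (q : A) (js : List ℕ) : ∀ j : ℕ,
    (((j :: js).map (fun j => Xm j q * V2 q)).prod) =
      (js.map (fun j => wl2 ⬝ᵥ (Xm j q).mulVec (wv2 q))).prod •
        Matrix.vecMulVec ((Xm j q).mulVec (wv2 q)) wl2 := by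
  induction js with
  | nil =>
    intro j
    rw [List.map_cons, List.map_nil, List.prod_cons, List.prod_nil, mul_one, List.map_nil,
      List.prod_nil, one_smul, words_V2, Matrix.mul_vecMulVec]
  | cons i js ih =>
    intro j
    rw [List.map_cons, List.prod_cons, ih i, words_V2, Matrix.mul_vecMulVec, mul_smul_comm,
      Matrix.vecMulVec_mul_vecMulVec, List.map_cons, List.prod_cons]
    rw [Matrix.vecMulVec_smul, smul_smul, mul_comm]

private lemma words_row (q : A) (j : ℕ) :
    (Matrix.vecMul wl2 (Xm j q)) 0 = 0 ∧ (Matrix.vecMul wl2 (Xm j q)) 2 = bet q (j + 1) ∧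
      (q - 2) ^ 2 * (Matrix.vecMul wl2 (Xm j q)) 1 +
        ((q - 2) ^ 2 - (q - 2) + 1) * (Matrix.vecMul wl2 (Xm j q)) 2 = bet q (j + 2) := by
  induction j with
  | zero =>
    refine ⟨?_, ?_, ?_⟩
    · simp [Xm, Bm, wl2, Matrix.vecMul, dotProduct, Fin.sum_univ_three]
    · simp [Xm, Bm, wl2, Matrix.vecMul, dotProduct, Fin.sum_univ_three, bet]
      ring
    · simp [Xm, Bm, wl2, Matrix.vecMul, dotProduct, Fin.sum_univ_three, bet]
      ring
  | succ j ih =>
    obtain ⟨h1, h2, h3⟩ := ih
    have hX : Xm (j + 1) q = Xm j q * (Bm true q * Bm false q) := by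
      rw [Xm, Xm, pow_succ, mul_assoc, mul_assoc, mul_assoc]
    rw [hX, ← Matrix.vecMul_vecMul]
    set u := Matrix.vecMul wl2 (Xm j q) with hu
    have e0 : Matrix.vecMul u (Bm true q * Bm false q) 0 = 0 := by
      simp [Bm, Matrix.vecMul, dotProduct, Fin.sum_univ_three, Matrix.mul_apply]
    have e1 : Matrix.vecMul u (Bm true q * Bm false q) 1 =
        (q - 2) * u 0 + (q - 1) * u 1 + (q - 2) * u 2 := by
      simp [Bm, Matrix.vecMul, dotProduct, Fin.sum_univ_three, Matrix.mul_apply]
      ring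
    have e2 : Matrix.vecMul u (Bm true q * Bm false q) 2 =
        (q - 2) * (q - 3) * u 0 + (q - 2) ^ 2 * u 1 + ((q - 2) ^ 2 - (q - 2) + 1) * u 2 := by
      simp [Bm, Matrix.vecMul, dotProduct, Fin.sum_univ_three, Matrix.mul_apply]
      ring
    refine ⟨e0, ?_, ?_⟩
    · rw [e2, h1, ← h3]
      ring
    · rw [e1, e2, h1, show j + 1 + 2 = (j + 1) + 2 from rfl, bet_succ_succ, ← h3, ← h2]
      ring

theorem Phi_zero (js : List ℕ) (hjs : js ≠ []) (q : A) :
    Phi js q 0 = (js.map (fun j => bet q (j + 1))).prod := by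
  have hb : ∀ j : ℕ, wl2 ⬝ᵥ (Xm j q).mulVec (wv2 q) = bet q (j + 1) := by
    intro j
    obtain ⟨h1, h2, _⟩ := words_row q j
    rw [Matrix.dotProduct_mulVec, ← h2]
    simp only [dotProduct, Fin.sum_univ_three, h1]
    simp [wv2]
  obtain ⟨j, js', rfl⟩ : ∃ j js', js = j :: js' := by
    cases js with
    | nil => exact absurd rfl hjs
    | cons j js' => exact ⟨j, js', rfl⟩
  rw [Phi]
  simp only [zero_smul, add_zero]
  rw [words_rank, Matrix.trace_smul, smul_eq_mul, Matrix.trace_vecMulVec, dotProduct_comm, hb,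
    List.map_cons, List.prod_cons, mul_comm]
  simp only [hb]

end CHR
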