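import Pool.Agent.CHR.WordShape
import Pool.Agent.CHR.RimCount
import Pool.Agent.CHR.Words
import Pool.Agent.CHR.Beta
import Pool.Agent.H37.Chrom.Local

/-!
# CHR/InsideLocal: roots of two-hub rims near zeros of the limit function

Package family CHR (MP_5e2eaf_co), architect helper80. Paper text: /team-store/CHR_Proof.md.

PROOF of `inside_local`. `js := List.replicate s 0 ++ List.replicate t (J - 1)` (length
`s + t ≥ 4`), `N = s + t - 1`. Limit function `f q = (q-1)^N (q^2-3q+1) + Phi js q 0`, and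
`Phi js q 0 = bet q 1 ^ s * bet q J ^ t = bet q J ^ t` (`Phi_zero`), so `f q1 = 0`.
Let `F (q, x, y) = (q-1)^N (y + (q^2-3q+1)) + Phi js q x`; it is continuous on `ℂ × ℂ × ℂ`.
`f` is the value of a nonzero polynomial `P = (X-1)^N (X^2-3X+1) + bet X J ^ t`:
`P.eval 1 = bet 1 J ^ t ≠ 0` (`N ≥ 1`, `bet_one_ne`). `H37.Chrom.exists_radius` gives `δ > 0`,
`δ < ε`, with `closedBall q1 δ ⊆ {q | ‖q - 2‖ < 1}` and `f ≠ 0` on `sphere q1 δ`; so
`‖f‖ ≥ η > 0` on the sphere (compact). `H37.Chrom.exists_unif` (with `K = closedBall q1 δ`) gives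
`d`; for large `k`: `‖(2 - q)^k‖ < d` and `‖(2 - q)^(length)‖ < d` on `K`. Then
`H37.Chrom.zero_of_close` gives `q ∈ K` with
`(q-1)^N ((2-q)^n + (q^2-3q+1)) + Phi js q ((2-q)^k) = 0`, so `Rw w q = 0` by `word_identity`
where `w = wordw (k+1) js`.
-/

namespace CHR

open H37.Chrom Metric Set

section maps

variable {A B : Type} [CommRing A] [CommRing B] (f : A →+* B)

private lemma V1_map (q : A) : (V1 q).map f = V1 (f q) := by
  have h2 : f 2 = 2 := map_ofNat f 2
  ext i j
  fin_cases i <;> fin_cases j <;> simp [V1, h2]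

private lemma V2_map (q : A) : (V2 q).map f = V2 (f q) := by
  have h2 : f 2 = 2 := map_ofNat f 2
  ext i j
  fin_cases i <;> fin_cases j <;> simp [V2, h2]

private lemma Xm_map (j : ℕ) (q : A) : f.mapMatrix (Xm j q) = Xm j (f q) := by
  simp only [Xm, map_mul, map_pow, RingHom.mapMatrix_apply, Bm_map]

private lemma Phi_map (js : List ℕ) (q x : A) : f (Phi js q x) = Phi js (f q) (f x) := by
  have h : f.mapMatrix ((js.map (fun j => Xm j q * (V2 q + x • V1 q))).prod) =
      (js.map (fun j => Xm j (f q) * (V2 (f q) + f x • V1 (f q)))).prod := by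
    rw [map_list_prod, List.map_map]
    congr 1
    refine List.map_congr_left fun j _ => ?_
    rw [Function.comp_apply, map_mul, Xm_map, map_add, RingHom.mapMatrix_apply, V2_map]
    congr 2
    rw [← V1_map, RingHom.mapMatrix_apply]
    ext a b
    simp
  rw [Phi, Phi, ← h, RingHom.mapMatrix_apply, Matrix.trace, Matrix.trace, map_sum]
  rfl

end maps

private lemma cont_Bm (b : Bool) : Continuous fun x : ℂ × ℂ × ℂ => Bm b x.1 := by
  refine continuous_matrix fun i j => ?_
  cases b <;> fin_cases i <;> fin_cases j <;> simp [Bm] <;> fun_prop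

private lemma cont_V1 : Continuous fun x : ℂ × ℂ × ℂ => V1 x.1 := by
  refine continuous_matrix fun i j => ?_
  fin_cases i <;> fin_cases j <;> simp [V1] <;> fun_prop

private lemma cont_V2 : Continuous fun x : ℂ × ℂ × ℂ => V2 x.1 := by
  refine continuous_matrix fun i j => ?_
  fin_cases i <;> fin_cases j <;> simp [V2] <;> fun_prop

private lemma cont_Xm (j : ℕ) : Continuous fun x : ℂ × ℂ × ℂ => Xm j x.1 := by
  have h0 := cont_Bm false
  have h1 := cont_Bm true
  simp only [Xm]
  exact ((h0.matrix_mul h1).pow j).matrix_mul h0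

private lemma cont_Phi (js : List ℕ) : Continuous fun x : ℂ × ℂ × ℂ => Phi js x.1 x.2.1 := by
  have h : Continuous fun x : ℂ × ℂ × ℂ =>
      (js.map (fun j => Xm j x.1 * (V2 x.1 + x.2.1 • V1 x.1))).prod := by
    induction js with
    | nil => simpa using continuous_const
    | cons j js ih =>
      simp only [List.map_cons, List.prod_cons]
      refine Continuous.matrix_mul (Continuous.matrix_mul (cont_Xm j) (cont_V2.add ?_)) ih
      exact (continuous_fst.comp continuous_snd).smul cont_V1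
  simp only [Phi]
  exact h.matrix_trace

open Polynomial in
theorem inside_local {q1 : ℂ} (h2 : ‖q1 - 2‖ < 1) {J s t : ℕ} (hJ : 2 ≤ J) (hs : 2 ≤ s)
    (ht : 2 ≤ t) (h : (q1 - 1) ^ (s + t - 1) * (q1 ^ 2 - 3 * q1 + 1) + bet q1 J ^ t = 0)
    {ε : ℝ} (hε : 0 < ε) : ∃ q ∈ rootSet, ‖q - q1‖ < ε := by
  set js : List ℕ := List.replicate s 0 ++ List.replicate t (J - 1) with hjs
  have hlen : js.length = s + t := by simp [hjs]
  set N := s + t - 1 with hN
  have hlN : js.length = N + 1 := by omega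
  have hne : js ≠ [] := by
    intro h0
    rw [h0] at hlen
    simp at hlen
    omega
  have hPhi0 : ∀ q : ℂ, Phi js q 0 = bet q J ^ t := by
    intro q
    rw [Phi_zero js hne, hjs]
    have hJ1 : J - 1 + 1 = J := by omega
    have h1 : bet q 1 = 1 := rfl
    simp [hJ1, h1]
  set P : ℂ[X] := (X - 1) ^ N * (X ^ 2 - 3 * X + 1) + bet X J ^ t with hP
  have hPe : ∀ q : ℂ, P.eval q = (q - 1) ^ N * (q ^ 2 - 3 * q + 1) + bet q J ^ t := by
    intro q
    have hb : (bet (X : ℂ[X]) J).eval q = bet q J := by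
      rw [← coe_evalRingHom, bet_map, coe_evalRingHom, eval_X]
    rw [hP]
    simp [hb]
  have hP0 : P ≠ 0 := by
    intro h0
    have h1 := hPe 1
    rw [h0, eval_zero, sub_self, zero_pow (by omega), zero_mul, zero_add] at h1
    exact pow_ne_zero t (bet_one_ne (by omega : 1 ≤ J)) h1.symm
  obtain ⟨δ, hδ, hδlt, hsph⟩ := exists_radius P hP0 q1
    (ε := min ε (1 - ‖q1 - 2‖)) (lt_min hε (by linarith))
  set K : Set ℂ := closedBall q1 δ with hKdef
  have hK2 : ∀ q ∈ K, ‖2 - q‖ < 1 := by
    intro q hq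
    rw [hKdef, mem_closedBall, dist_eq_norm] at hq
    have h3 := min_le_right ε (1 - ‖q1 - 2‖)
    calc ‖2 - q‖ = ‖(q - q1) + (q1 - 2)‖ := by rw [← norm_neg]; ring_nf
      _ ≤ ‖q - q1‖ + ‖q1 - 2‖ := norm_add_le _ _
      _ < 1 := by linarith
  have hKc : IsCompact K := isCompact_closedBall _ _
  have hKne : K.Nonempty := ⟨q1, mem_closedBall_self hδ.le⟩
  set F : ℂ × ℂ × ℂ → ℂ := fun x =>
    (x.1 - 1) ^ N * (x.2.2 + (x.1 ^ 2 - 3 * x.1 + 1)) + Phi js x.1 x.2.1 with hFdef
  have hFc : Continuous F := by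
    rw [hFdef]
    exact Continuous.add (by fun_prop) (cont_Phi js)
  set f : ℂ → ℂ := fun q => F (q, 0, 0) with hfdef
  have hfq : ∀ q : ℂ, f q = P.eval q := by
    intro q
    rw [hPe, hfdef, hFdef]
    simp only [hPhi0, zero_add]
  have hf0 : f q1 = 0 := by
    rw [hfq, hPe, h]
  have hfs : ∀ z ∈ sphere q1 δ, f z ≠ 0 := by
    intro z hz
    rw [hfq]
    exact hsph z hz
  have hfc : Continuous f := hFc.comp (by fun_prop)
  obtain ⟨x0, hx0, hmin⟩ := (isCompact_sphere q1 δ).exists_isMinOn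
    (NormedSpace.sphere_nonempty.mpr hδ.le) hfc.norm.continuousOn
  have hη : 0 < ‖f x0‖ := norm_pos_iff.2 (hfs x0 hx0)
  obtain ⟨d, hd, hdu⟩ := exists_unif hKc hFc.continuousOn (η := ‖f x0‖ / 2) (by positivity)
  obtain ⟨l1, hl1⟩ := exists_pow_lt (ρ := fun q => 2 - q) hKc hKne (by fun_prop) hK2 hd
  set k := max l1 2 with hk
  set w := wordw (k + 1) js with hw
  have hwl : k + 2 ≤ w.length := by
    rw [hw, length_wordw, hjs]
    simp only [List.map_append, List.map_replicate, List.sum_append, List.sum_replicate,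
      smul_eq_mul]
    have h5 : 1 * (2 * 0 + 1 + (k + 1)) ≤ s * (2 * 0 + 1 + (k + 1)) :=
      Nat.mul_le_mul_right _ (by omega)
    omega
  set G : ℂ[X] := (X - 1) ^ N * ((2 - X) ^ w.length + (X ^ 2 - 3 * X + 1)) +
    Phi js X ((2 - X) ^ k) with hG
  have hGe : ∀ q : ℂ, G.eval q = F (q, (2 - q) ^ k, (2 - q) ^ w.length) := by
    intro q
    have hb : (Phi js (X : ℂ[X]) ((2 - X) ^ k)).eval q = Phi js q ((2 - q) ^ k) := by
      rw [← coe_evalRingHom, Phi_map, coe_evalRingHom]
      simp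
    rw [hG, hFdef]
    simp [hb]
  obtain ⟨q, hq, hgq⟩ := zero_of_close (g := fun q => G.eval q) hδ hη
    (G.differentiable.differentiableOn) hf0 (fun z hz => hmin hz) (fun z hz => by
      have h6 := hdu z hz _ _ (hl1 k (le_max_left _ _) z hz)
        (hl1 w.length ((le_max_left l1 2).trans (by omega)) z hz)
      rw [hGe]
      exact h6)
  have hq1 : q - 1 ≠ 0 := by
    intro h0
    have h7 := hK2 q hq
    have h8 : q = 1 := sub_eq_zero.1 h0
    rw [h8] at h7
    norm_num at h7
  have hR : Rw w q = 0 := by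
    have h9 := word_identity k N js hlN q
    have h10 : (q - 1) ^ N * ((2 - q) ^ (wordw (k + 1) js).length + (q ^ 2 - 3 * q + 1)) +
        Phi js q ((2 - q) ^ k) = 0 := by
      have h11 := hgq
      rw [hGe, hFdef] at h11
      exact h11
    rw [h10, mul_zero] at h9
    rcases mul_eq_zero.1 h9 with h12 | h12
    · rcases mul_eq_zero.1 h12 with h13 | h13
      · exact absurd h13 (pow_ne_zero _ hq1)
      · exact absurd h13 (pow_ne_zero _ (by norm_num))
    · exact h12
  have hroot : IsChromaticRoot (RG w.get) q :=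
    root_of_Rw (by omega) w.get (by rw [List.ofFn_get]; exact hR)
  refine ⟨q, ⟨RV w.length, inferInstance, RG w.get, threeConnected_word (by omega) (by omega),
    planar_word (by omega) (by omega), hroot⟩, ?_⟩
  rw [← dist_eq_norm]
  exact lt_of_le_of_lt hq (hδlt.trans_le (min_le_left _ _))

end CHR
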