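import Pool.Agent.CHR.InsideZero
import Pool.Agent.CHR.InsideLocal

/-!
# CHR/Inside: the part of the disc `|q - 2| < 1` outside `|q - 1| < 1`

Package family CHR (MP_5e2eaf_co), architect helper80. Paper text: /team-store/CHR_Proof.md.

PROOF of `inside_subset`. `q0` with `‖q0 - 1‖ ≥ 1`, `‖q0 - 2‖ < 1`, `ε > 0`. For real `δ > 0` put
`q' = 1 + (1 + δ)(q0 - 1)`: `‖q' - 1‖ > 1`, `‖q' - q0‖ = δ ‖q0 - 1‖ ≤ 2 δ`, and for small `δ`
still `‖q' - 2‖ < 1`. `(q' - 1).re = (1 + δ) (q0 - 1).re`, `(q0 - 1).re > 0`, so `q'.re = 2` for at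
most one `δ`; `q'^2 - 3 q' + 1 = 0` for at most two values of `q'`, hence at most two `δ`
(`q0 ≠ 1`). An interval of `δ` is infinite, so a good `δ` exists (a finite set of bad `δ`). Then
`inside_zero` near `q'` (with a small radius, so that `‖q1 - 2‖ < 1`) and `inside_local`.
-/

namespace CHR

open H37.Chrom

private theorem inside_fin : {z : ℂ | z ^ 2 - 3 * z + 1 = 0}.Finite := by
  have h5 : ((Real.sqrt 5 : ℝ) : ℂ) ^ 2 = 5 := by
    rw [← Complex.ofReal_pow, Real.sq_sqrt (by norm_num)]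
    norm_num
  refine ((Set.finite_singleton ((3 - ((Real.sqrt 5 : ℝ) : ℂ)) / 2)).insert
    ((3 + ((Real.sqrt 5 : ℝ) : ℂ)) / 2)).subset ?_
  intro z hz
  have hz' : z ^ 2 - 3 * z + 1 = 0 := hz
  have h : (z - (3 + ((Real.sqrt 5 : ℝ) : ℂ)) / 2) * (z - (3 - ((Real.sqrt 5 : ℝ) : ℂ)) / 2)
      = 0 := by
    linear_combination hz' - h5 / 4
  rcases mul_eq_zero.mp h with h' | h'
  · exact Or.inl (sub_eq_zero.mp h')
  · exact Or.inr (sub_eq_zero.mp h')

theorem inside_subset {q : ℂ} (h1 : 1 ≤ ‖q - 1‖) (h2 : ‖q - 2‖ < 1) : q ∈ closure rootSet := by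
  rw [Metric.mem_closure_iff]
  intro ε hε
  have hne : q - 1 ≠ 0 := by
    intro h
    rw [h, norm_zero] at h1
    linarith
  have hre : 0 < (q - 1).re := by
    have h3 := (abs_lt.mp ((Complex.abs_re_le_norm (q - 2)).trans_lt h2)).1
    have h4 : (q - 2).re = q.re - 2 := by simp
    have h5 : (q - 1).re = q.re - 1 := by simp
    rw [h4] at h3
    rw [h5]
    linarith
  have hq2 : ‖q - 1‖ < 2 := by
    have h3 : q - 1 = (q - 2) + 1 := by ring
    calc ‖q - 1‖ = ‖(q - 2) + 1‖ := by rw [← h3]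
      _ ≤ ‖q - 2‖ + ‖(1 : ℂ)‖ := norm_add_le _ _
      _ < 2 := by
        rw [norm_one]
        linarith
  set f : ℝ → ℂ := fun δ => 1 + (1 + (δ : ℂ)) * (q - 1) with hf
  have hinj : Function.Injective f := by
    intro a b hab
    have h3 : (1 + (a : ℂ)) * (q - 1) = (1 + (b : ℂ)) * (q - 1) := add_left_cancel hab
    have h4 := mul_right_cancel₀ hne h3
    have h5 : (a : ℂ) = b := add_left_cancel h4
    exact_mod_cast h5
  have hbad1 : {δ : ℝ | (f δ).re = 2}.Finite := by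
    refine (Set.finite_singleton (1 / (q - 1).re - 1)).subset ?_
    intro δ hδ
    have h3 : (1 + (1 + (δ : ℂ)) * (q - 1)).re = 2 := hδ
    have h4 : (1 + (1 + (δ : ℂ)) * (q - 1)).re = 1 + (1 + δ) * (q - 1).re := by
      rw [Complex.add_re, Complex.one_re]
      congr 1
      have h5 : (1 + (δ : ℂ)) = ((1 + δ : ℝ) : ℂ) := by push_cast; ring
      rw [h5, Complex.re_ofReal_mul]
    rw [h4] at h3
    show δ = 1 / (q - 1).re - 1
    have h6 : (1 + δ) * (q - 1).re = 1 := by linarith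
    have h7 : 1 + δ = 1 / (q - 1).re := by
      rw [eq_div_iff hre.ne']
      exact h6
    linarith
  have hbad2 : (f ⁻¹' {z : ℂ | z ^ 2 - 3 * z + 1 = 0}).Finite :=
    inside_fin.preimage hinj.injOn
  set δ0 : ℝ := min (ε / 4) ((1 - ‖q - 2‖) / 2) with hδ0
  have hδ0pos : 0 < δ0 := lt_min (by linarith) (by linarith)
  obtain ⟨δ, hδI, hδB⟩ := (Set.Ioo_infinite hδ0pos).exists_notMem_finite (hbad1.union hbad2)
  have hδ1 : 0 < δ := hδI.1
  have hδ2 : δ < ε / 4 := hδI.2.trans_le (min_le_left _ _)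
  have hδ3 : δ < (1 - ‖q - 2‖) / 2 := hδI.2.trans_le (min_le_right _ _)
  have hB1 : (f δ).re ≠ 2 := fun h => hδB (Or.inl h)
  have hB2 : f δ ^ 2 - 3 * f δ + 1 ≠ 0 := fun h => hδB (Or.inr h)
  have hn1 : 1 < ‖f δ - 1‖ := by
    have h3 : f δ - 1 = ((1 + δ : ℝ) : ℂ) * (q - 1) := by
      simp only [hf]
      push_cast
      ring
    rw [h3, norm_mul, Complex.norm_real, Real.norm_eq_abs, abs_of_pos (by linarith)]
    nlinarith
  have hd : ‖f δ - q‖ < 2 * δ := by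
    have h3 : f δ - q = (δ : ℂ) * (q - 1) := by
      simp only [hf]
      ring
    rw [h3, norm_mul, Complex.norm_real, Real.norm_eq_abs, abs_of_pos hδ1]
    nlinarith
  have hn2 : ‖f δ - 2‖ < 1 := by
    have h3 : f δ - 2 = (f δ - q) + (q - 2) := by ring
    rw [h3]
    refine (norm_add_le _ _).trans_lt ?_
    linarith
  obtain ⟨J, s, t, hJ, hs, ht, q1, hq1, hz⟩ := inside_zero hn1 hB1 hB2
    (ε := min (ε / 4) (1 - ‖f δ - 2‖)) (lt_min (by linarith) (by linarith))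
  have hq1a : ‖q1 - f δ‖ < ε / 4 := hq1.trans_le (min_le_left _ _)
  have hq1b : ‖q1 - f δ‖ < 1 - ‖f δ - 2‖ := hq1.trans_le (min_le_right _ _)
  have hq12 : ‖q1 - 2‖ < 1 := by
    have h3 : q1 - 2 = (q1 - f δ) + (f δ - 2) := by ring
    rw [h3]
    refine (norm_add_le _ _).trans_lt ?_
    linarith
  obtain ⟨b, hb, hb1⟩ := inside_local hq12 hJ hs ht hz (ε := ε / 4) (by linarith)
  refine ⟨b, hb, ?_⟩
  rw [dist_eq_norm]
  have h3 : q - b = -(f δ - q) + -(q1 - f δ) + -(b - q1) := by ring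
  rw [h3]
  refine (norm_add₃_le).trans_lt ?_
  rw [norm_neg, norm_neg, norm_neg]
  linarith

end CHR
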