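import Pool.Agent.CHR.Tie
import Pool.Agent.CHR.Beta

/-!
# CHR/InsideZero: zeros of the limit functions of two-hub rims

Package family CHR (MP_5e2eaf_co), architect helper80. Paper text: /team-store/CHR_Proof.md.

PROOF of `inside_zero`. Take `J ≥ 2` from `bet_large`. Apply `tie` with `F q = (q - 1)⁻¹`,
`G q = bet q J * (q - 1)⁻¹`, `T s t q = T q = -(q^2 - 3 q + 1) * (q - 1)⁻¹`, `c = T q0 ≠ 0`,
`N0 = 0`, `N = 2`. `F, G, T` are continuous at `q0` and differentiable where `q ≠ 1`, so a radius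
`r` exists such that on `ball q0 r`: `q ≠ 1`, `G q ≠ 0` (`‖G q0‖ > 1`) and
`‖T q - c‖ ≤ ‖c‖ / 2`. `‖F q0‖ < 1 < ‖G q0‖` clear.
`hnd`: `bet q J = P.eval q` for the polynomial `P = bet (X : ℂ[X]) J` (`bet_map`), so for `q ≠ 1`
`deriv G q * F q + σ (deriv F q * G q)
  = (P'.eval q (q - 1) - (1 + σ) P.eval q) / (q - 1)^3`.
Suppose it vanishes for all `q ∈ ball q0 δ` (shrink `δ` such that `1` is not in the ball): then the
polynomial `P' (X - 1) - C (1 + σ) P` vanishes at infinitely many points, so it is `0`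
(`Polynomial.eq_zero_of_infinite_isRoot`), and its value at `1` is `-(1 + σ) bet 1 J ≠ 0`
(`bet_one_ne`): contradiction.
The result `(q1 - 1)⁻¹ ^ s * (bet q1 J * (q1 - 1)⁻¹) ^ t = -(q1^2 - 3 q1 + 1) (q1 - 1)⁻¹`,
multiplied by `(q1 - 1)^(s+t)`, is `bet q1 J ^ t = -(q1 - 1)^(s+t-1) (q1^2-3 q1+1)` (here
`q1 ≠ 1`: choose `ε` of `tie` as `min ε r`).
-/

namespace CHR

open Metric Set Filter Topology Polynomial

private lemma eval_bet (q : ℂ) (J : ℕ) : (bet (X : ℂ[X]) J).eval q = bet q J := by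
  have h := bet_map (evalRingHom q) (X : ℂ[X]) J
  simpa using h

private lemma hasDerivAt_F {q : ℂ} (hq : q ≠ 1) :
    HasDerivAt (fun q : ℂ => (q - 1)⁻¹) (-1 / (q - 1) ^ 2) q :=
  ((hasDerivAt_id q).sub_const 1).inv (sub_ne_zero.2 hq)

private lemma hasDerivAt_G {q : ℂ} (hq : q ≠ 1) (P : ℂ[X]) :
    HasDerivAt (fun q : ℂ => P.eval q * (q - 1)⁻¹)
      (P.derivative.eval q * (q - 1)⁻¹ + P.eval q * (-1 / (q - 1) ^ 2)) q :=
  (P.hasDerivAt q).mul (hasDerivAt_F hq)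

private lemma nondeg (q0 : ℂ) (P : ℂ[X]) (hP : P.eval 1 ≠ 0) (σ : ℝ) (hσ : 0 < σ) (δ : ℝ)
    (hδ : 0 < δ) : ∃ q ∈ ball q0 δ,
      deriv (fun q : ℂ => P.eval q * (q - 1)⁻¹) q * (q - 1)⁻¹ +
        (σ : ℂ) * (deriv (fun q : ℂ => (q - 1)⁻¹) q * (P.eval q * (q - 1)⁻¹)) ≠ 0 := by
  by_contra hcon
  push Not at hcon
  have h2 : ∀ q ∈ ball q0 δ \ {1},
      (P.derivative * (X - 1) - C (1 + (σ : ℂ)) * P).eval q = 0 := by
    rintro q ⟨hq, hq1⟩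
    have hq1' : q ≠ 1 := hq1
    have hq2 : q - 1 ≠ 0 := sub_ne_zero.2 hq1'
    have h3 := hcon q hq
    rw [(hasDerivAt_F hq1').deriv, (hasDerivAt_G hq1' P).deriv] at h3
    simp only [eval_sub, eval_mul, eval_X, eval_one, eval_C]
    have h4 : (P.derivative.eval q * (q - 1)⁻¹ + P.eval q * (-1 / (q - 1) ^ 2)) * (q - 1)⁻¹ +
        (σ : ℂ) * (-1 / (q - 1) ^ 2 * (P.eval q * (q - 1)⁻¹)) =
        (P.derivative.eval q * (q - 1) - (1 + (σ : ℂ)) * P.eval q) * ((q - 1)⁻¹) ^ 3 := by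
      field_simp
      ring
    rw [h4] at h3
    rcases mul_eq_zero.1 h3 with h5 | h5
    · exact h5
    · exact absurd (pow_eq_zero_iff (by norm_num) |>.1 h5) (inv_ne_zero hq2)
  have h3 : (ball q0 δ \ {1}).Infinite :=
    (infinite_of_mem_nhds q0 (ball_mem_nhds q0 hδ)).sdiff (finite_singleton 1)
  have h4 : P.derivative * (X - 1) - C (1 + (σ : ℂ)) * P = 0 :=
    eq_zero_of_infinite_isRoot _ (h3.mono fun q hq => h2 q hq)
  have h5 := congrArg (eval 1) h4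
  simp only [eval_sub, eval_mul, eval_X, eval_one, eval_C, sub_self, mul_zero, zero_sub,
    eval_zero, neg_eq_zero] at h5
  rcases mul_eq_zero.1 h5 with h6 | h6
  · have h7 := congrArg Complex.re h6
    simp at h7
    linarith
  · exact hP h6

theorem inside_zero {q0 : ℂ} (h1 : 1 < ‖q0 - 1‖) (hre : q0.re ≠ 2)
    (h3 : q0 ^ 2 - 3 * q0 + 1 ≠ 0) {ε : ℝ} (hε : 0 < ε) :
    ∃ J s t, 2 ≤ J ∧ 2 ≤ s ∧ 2 ≤ t ∧ ∃ q1 : ℂ, ‖q1 - q0‖ < ε ∧
      (q1 - 1) ^ (s + t - 1) * (q1 ^ 2 - 3 * q1 + 1) + bet q1 J ^ t = 0 := by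
  obtain ⟨J, hJ2, hJ⟩ := bet_large h1 hre
  have hq01 : q0 - 1 ≠ 0 := by
    intro h
    rw [h, norm_zero] at h1
    linarith
  have hq0ne : q0 ≠ 1 := sub_ne_zero.1 hq01
  have hpos : 0 < ‖q0 - 1‖ := norm_pos_iff.2 hq01
  set c : ℂ := -(q0 ^ 2 - 3 * q0 + 1) * (q0 - 1)⁻¹ with hc
  have hc0 : c ≠ 0 := mul_ne_zero (neg_ne_zero.2 h3) (inv_ne_zero hq01)
  have hcT : ContinuousAt (fun q : ℂ => -(q ^ 2 - 3 * q + 1) * (q - 1)⁻¹) q0 := by
    have : ContinuousAt (fun q : ℂ => (q - 1)⁻¹) q0 := (hasDerivAt_F hq0ne).continuousAt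
    fun_prop
  have hcG : ContinuousAt (fun q : ℂ => (bet (X : ℂ[X]) J).eval q * (q - 1)⁻¹) q0 :=
    (hasDerivAt_G hq0ne _).continuousAt
  have hG1 : 1 < ‖(bet (X : ℂ[X]) J).eval q0 * (q0 - 1)⁻¹‖ := by
    rw [eval_bet, norm_mul, norm_inv, ← div_eq_mul_inv, one_lt_div hpos]
    exact hJ
  have hF1 : ‖(q0 - 1)⁻¹‖ < 1 := by
    rw [norm_inv]
    exact inv_lt_one_of_one_lt₀ h1
  have ev1 : ∀ᶠ q in 𝓝 q0, q ≠ 1 := eventually_ne_nhds hq0ne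
  have ev2 : ∀ᶠ q in 𝓝 q0, (bet (X : ℂ[X]) J).eval q * (q - 1)⁻¹ ≠ 0 :=
    hcG.eventually_ne (by
      intro h
      rw [h, norm_zero] at hG1
      linarith)
  have ev3 : ∀ᶠ q in 𝓝 q0, ‖-(q ^ 2 - 3 * q + 1) * (q - 1)⁻¹ - c‖ < ‖c‖ / 2 := by
    have h4 := (hcT.sub_const c).norm
    have h5 : ‖-(q0 ^ 2 - 3 * q0 + 1) * (q0 - 1)⁻¹ - c‖ < ‖c‖ / 2 := by
      rw [← hc, sub_self, norm_zero]
      have := norm_pos_iff.2 hc0
      linarith
    exact h4.eventually_lt_const h5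
  obtain ⟨r, hr, hb⟩ := Metric.eventually_nhds_iff_ball.1 (ev1.and (ev2.and ev3))
  obtain ⟨s, t, hs, ht, q1, hq1, he⟩ := tie (q0 := q0) (c := c) hr
    (F := fun q => (q - 1)⁻¹) (G := fun q => (bet (X : ℂ[X]) J).eval q * (q - 1)⁻¹)
    (fun q hq => (hasDerivAt_F (hb q hq).1).differentiableAt.differentiableWithinAt)
    (fun q hq => (hasDerivAt_G (hb q hq).1 _).differentiableAt.differentiableWithinAt)
    (fun q hq => inv_ne_zero (sub_ne_zero.2 (hb q hq).1))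
    (fun q hq => (hb q hq).2.1) hF1 hG1
    (nondeg q0 _ (by rw [eval_bet]; exact bet_one_ne (by omega)))
    hc0 0 (fun _ _ q => -(q ^ 2 - 3 * q + 1) * (q - 1)⁻¹)
    (fun s t _ _ q hq => by
      have : DifferentiableAt ℂ (fun q : ℂ => (q - 1)⁻¹) q :=
        (hasDerivAt_F (hb q hq).1).differentiableAt
      exact ((by fun_prop : DifferentiableAt ℂ (fun q : ℂ => -(q ^ 2 - 3 * q + 1)) q).mul
        this).differentiableWithinAt)
    (fun s t _ _ q hq => (hb q hq).2.2.le) (ε := min ε r) (lt_min hε hr) 2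
  have hq1r : q1 ∈ ball q0 r := by
    rw [mem_ball_iff_norm]
    exact hq1.trans_le (min_le_right _ _)
  have hne : q1 - 1 ≠ 0 := sub_ne_zero.2 (hb q1 hq1r).1
  refine ⟨J, s, t, hJ2, hs, ht, q1, hq1.trans_le (min_le_left _ _), ?_⟩
  simp only [eval_bet, mul_pow, inv_pow] at he
  obtain ⟨n, hn⟩ : ∃ n, s + t = n + 1 := ⟨s + t - 1, by omega⟩
  have hn' : s + t - 1 = n := by omega
  rw [hn']
  have e1 : bet q1 J ^ t = bet q1 J ^ t * ((q1 - 1)⁻¹ ^ t * (q1 - 1)⁻¹ ^ s) *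
      (q1 - 1) ^ (s + t) := by
    rw [← pow_add, add_comm t s, mul_assoc, ← mul_pow, inv_mul_cancel₀ hne, one_pow, mul_one]
  have e2 : bet q1 J ^ t * ((q1 - 1)⁻¹ ^ t * (q1 - 1)⁻¹ ^ s) =
      -(q1 ^ 2 - 3 * q1 + 1) * (q1 - 1)⁻¹ := by
    rw [← he, inv_pow, inv_pow]
    ring
  rw [e1, e2, hn, pow_succ]
  field_simp
  ring

end CHR
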