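import Pool.Agent.CHR.MiddleZero
import Pool.Agent.CHR.HubLocal
import Pool.Agent.CHR.HubConn
import Pool.Agent.CHR.HubPlanar
import Pool.Agent.CHR.Dom2
import Pool.Agent.H37.Chrom.Final

/-!
# CHR/Middle: the part `|q| ≥ 1`, `|q - 2| ≥ 1` of the disc `|q - 1| < 1`

Package family CHR (MP_5e2eaf_co), architect helper80. Paper text: /team-store/CHR_Proof.md.

PROOF of `middle_open`. `a = q0 - 1`, `0 < ‖a‖ < 1` (`a ≠ 0` because `‖q0‖ > 1`). `a.im ≠ 0`:
otherwise `a` is real, `|a| < 1`, `|a + 1| > 1` gives `a > 0`, `|a - 1| > 1` gives `a < 0`. Let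
`w + w⁻¹ = a - 1 + 3 / a` with `1 ≤ ‖w‖` (`exists_w`); `(a - 1 + 3/a).im = a.im (1 - 3 / |a|^2) ≠ 0`
(`im_T`), so `‖w‖ ≠ 1` (`norm_ne_one`). `dominance2` gives `‖w - 1‖ < ‖q0 - 2‖ ‖w‖`, `exists_dom`
(H37/Chrom/Branch.lean) the data `Dom (ball q0 r) …`. `middle_zero` with
`min (r/2) (ε/2)` gives `q1`, `local_root_HG` gives `q`, `l`; the graph `HG m l α` is 3-connected
(`threeConnected_HG`) and planar (`planar_HG`) (see the end of `H37.Chrom.region_subset`).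

PROOF of `middle_subset`. If `q ≠ 1`, `a = q - 1`: for small `δ > 0` the point `q' = 1 + (1+δ) a`
satisfies `‖q' - 1‖ < 1`, `‖q'‖ > 1`, `‖q' - 2‖ > 1`: `‖1 + (1+δ)a‖^2 = 1 + 2 (1+δ) Re a +
(1+δ)^2 |a|^2` and `2 Re a + |a|^2 ≥ 0`, so it is
`≥ 1 + (1+δ) δ |a|^2 > 1`; the same for `-a`. If `q = 1`: `q' = 1 + i δ`. So `q` is a limit of
points of `middle_open`; `closure_closure`.
-/

namespace CHR

open H37.Chrom

/-- moving away from `0` on the ray of `a` -/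
private lemma away {a : ℂ} (ha : a ≠ 0) (h : 1 ≤ ‖1 + a‖) {δ : ℝ} (hδ : 0 < δ) :
    1 < ‖1 + ((1 + δ : ℝ) : ℂ) * a‖ := by
  have h1 : Complex.normSq (1 + a) = 1 + 2 * a.re + Complex.normSq a := by
    rw [Complex.normSq_apply, Complex.normSq_apply]
    simp only [Complex.add_re, Complex.add_im, Complex.one_re, Complex.one_im]
    ring
  have h2 : Complex.normSq (1 + ((1 + δ : ℝ) : ℂ) * a) =
      1 + 2 * (1 + δ) * a.re + (1 + δ) ^ 2 * Complex.normSq a := by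
    rw [Complex.normSq_apply, Complex.normSq_apply]
    simp only [Complex.add_re, Complex.add_im, Complex.one_re, Complex.one_im, Complex.mul_re,
      Complex.mul_im, Complex.ofReal_re, Complex.ofReal_im]
    ring
  have h3 : 1 ≤ Complex.normSq (1 + a) := by
    rw [Complex.normSq_eq_norm_sq]
    nlinarith [norm_nonneg (1 + a)]
  have hpos : 0 < Complex.normSq a := Complex.normSq_pos.2 ha
  have h5 : 0 ≤ (1 + δ) * (2 * a.re + Complex.normSq a) := by
    apply mul_nonneg (by linarith)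
    linarith
  have h6 : 0 < (1 + δ) * δ * Complex.normSq a := by positivity
  have h4 : 1 < Complex.normSq (1 + ((1 + δ : ℝ) : ℂ) * a) := by
    rw [h2]
    have e : 1 + 2 * (1 + δ) * a.re + (1 + δ) ^ 2 * Complex.normSq a =
        1 + (1 + δ) * (2 * a.re + Complex.normSq a) + (1 + δ) * δ * Complex.normSq a := by
      ring
    rw [e]
    linarith
  rw [Complex.normSq_eq_norm_sq] at h4
  by_contra hc
  push Not at hc
  nlinarith [norm_nonneg (1 + ((1 + δ : ℝ) : ℂ) * a)]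

/-- the points of the open region are not real -/
private lemma im_ne {q0 : ℂ} (h1 : ‖q0 - 1‖ < 1) (h2 : 1 < ‖q0‖) (h3 : 1 < ‖q0 - 2‖) :
    q0.im ≠ 0 := by
  intro h
  have hq : q0 = ((q0.re : ℝ) : ℂ) := by
    apply Complex.ext
    · simp
    · simpa using h
  rw [hq] at h1 h2 h3
  have e1 : ((q0.re : ℝ) : ℂ) - 1 = ((q0.re - 1 : ℝ) : ℂ) := by push_cast; ring
  have e2 : ((q0.re : ℝ) : ℂ) - 2 = ((q0.re - 2 : ℝ) : ℂ) := by push_cast; ring
  rw [e1, Complex.norm_real, Real.norm_eq_abs] at h1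
  rw [Complex.norm_real, Real.norm_eq_abs] at h2
  rw [e2, Complex.norm_real, Real.norm_eq_abs] at h3
  have h4 := abs_lt.1 h1
  rcases lt_abs.1 h2 with h | h
  · rcases lt_abs.1 h3 with h' | h'
    · linarith [h4.2]
    · linarith
  · linarith [h4.1]

theorem middle_open {q0 : ℂ} (h1 : ‖q0 - 1‖ < 1) (h2 : 1 < ‖q0‖) (h3 : 1 < ‖q0 - 2‖) :
    q0 ∈ closure rootSet := by
  have haim := im_ne h1 h2 h3
  have ea : (q0 - 1) - 1 = q0 - 2 := by ring
  have ha0 : q0 - 1 ≠ 0 := by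
    intro h
    apply haim
    have h4 := congrArg Complex.im h
    simpa using h4
  have hpos : Complex.normSq (q0 - 1) ≠ 0 := fun h => ha0 (Complex.normSq_eq_zero.1 h)
  obtain ⟨w, hw, he⟩ := exists_w ((q0 - 1) - 1 + 3 / (q0 - 1))
  have hT : ((q0 - 1) - 1 + 3 / (q0 - 1)).im ≠ 0 := by
    rw [im_T (q0 - 1) ha0]
    refine mul_ne_zero ?_ ?_
    · simpa using haim
    · intro h
      have h5 : 3 / Complex.normSq (q0 - 1) = 1 := by linarith
      rw [div_eq_one_iff_eq hpos, Complex.normSq_eq_norm_sq] at h5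
      nlinarith [norm_nonneg (q0 - 1)]
  have hw1 : 1 < ‖w‖ := lt_of_le_of_ne hw (Ne.symm (norm_ne_one he hT))
  have hdom : ‖w - 1‖ < ‖(q0 - 1) - 1‖ * ‖w‖ :=
    dominance2 ha0 h1.le (by rw [ea]; exact h3.le) hw he
  rw [ea] at hdom he
  obtain ⟨r, hr, lp, lm, ρ, σ, D⟩ := exists_dom ha0 hw1 he hdom
  rw [Metric.mem_closure_iff]
  intro ε hε
  obtain ⟨q1, hq1, m, α, hW, hne, j1, j2, j3, h12, h13, h23, a1, a2, a3⟩ :=
    middle_zero h1 h2 h3 (lt_min hr (half_pos hε))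
  have hq1U : q1 ∈ Metric.ball q0 r := by
    rw [Metric.mem_ball, dist_eq_norm]
    exact lt_of_lt_of_le hq1 (min_le_left _ _)
  obtain ⟨q, hq, l, hroot⟩ := local_root_HG D hq1U hne hW (half_pos hε)
  refine ⟨q, ⟨_, inferInstance, HG m l α, threeConnected_HG m l α h12 h13 h23 a1 a2 a3,
    planar_HG m l α, hroot⟩, ?_⟩
  rw [dist_comm, dist_eq_norm]
  have h6 : ‖q1 - q0‖ < ε / 2 := lt_of_lt_of_le hq1 (min_le_right _ _)
  calc ‖q - q0‖ = ‖(q - q1) + (q1 - q0)‖ := by congr 1; ring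
    _ ≤ ‖q - q1‖ + ‖q1 - q0‖ := norm_add_le _ _
    _ < ε := by linarith

theorem middle_subset {q : ℂ} (h1 : ‖q - 1‖ < 1) (h2 : 1 ≤ ‖q‖) (h3 : 1 ≤ ‖q - 2‖) :
    q ∈ closure rootSet := by
  rw [← closure_closure, Metric.mem_closure_iff]
  intro ε hε
  suffices h : ∃ q' : ℂ, ‖q' - q‖ < ε ∧ ‖q' - 1‖ < 1 ∧ 1 < ‖q'‖ ∧ 1 < ‖q' - 2‖ by
    obtain ⟨q', hq', e1, e2, e3⟩ := h
    exact ⟨q', middle_open e1 e2 e3, by rw [dist_comm, dist_eq_norm]; exact hq'⟩
  by_cases hq : q = 1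
  · subst hq
    have hδ : 0 < min (ε / 2) (1 / 2) := lt_min (half_pos hε) (by norm_num)
    have hδ1 : min (ε / 2) (1 / 2) ≤ ε / 2 := min_le_left _ _
    have hδ2 : min (ε / 2) (1 / 2) ≤ 1 / 2 := min_le_right _ _
    generalize min (ε / 2) (1 / 2) = δ at hδ hδ1 hδ2
    have hn : ‖(1 + ((δ : ℝ) : ℂ) * Complex.I) - 1‖ = δ := by
      rw [add_sub_cancel_left, norm_mul, Complex.norm_I, mul_one, Complex.norm_real,
        Real.norm_of_nonneg hδ.le]
    have hδ3 : 0 < δ * δ := mul_pos hδ hδ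
    refine ⟨1 + ((δ : ℝ) : ℂ) * Complex.I, by rw [hn]; linarith, by rw [hn]; linarith, ?_, ?_⟩
    · have h4 : Complex.normSq (1 + ((δ : ℝ) : ℂ) * Complex.I) = 1 + δ * δ := by
        rw [Complex.normSq_apply]
        simp
      rw [Complex.normSq_eq_norm_sq] at h4
      by_contra hc
      push Not at hc
      nlinarith [norm_nonneg (1 + ((δ : ℝ) : ℂ) * Complex.I)]
    · have h4 : Complex.normSq (1 + ((δ : ℝ) : ℂ) * Complex.I - 2) = 1 + δ * δ := by
        rw [Complex.normSq_apply]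
        simp
        norm_num
      rw [Complex.normSq_eq_norm_sq] at h4
      by_contra hc
      push Not at hc
      nlinarith [norm_nonneg (1 + ((δ : ℝ) : ℂ) * Complex.I - 2)]
  · have ha : q - 1 ≠ 0 := sub_ne_zero.2 hq
    have hpos : 0 < ‖q - 1‖ := norm_pos_iff.2 ha
    have hδ : 0 < min (ε / 2) ((1 - ‖q - 1‖) / 2) :=
      lt_min (half_pos hε) (half_pos (by linarith))
    have hδ1 : min (ε / 2) ((1 - ‖q - 1‖) / 2) ≤ ε / 2 := min_le_left _ _
    have hδ2 : min (ε / 2) ((1 - ‖q - 1‖) / 2) ≤ (1 - ‖q - 1‖) / 2 := min_le_right _ _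
    generalize min (ε / 2) ((1 - ‖q - 1‖) / 2) = δ at hδ hδ1 hδ2
    have hδa : δ * ‖q - 1‖ < δ := by nlinarith
    refine ⟨1 + ((1 + δ : ℝ) : ℂ) * (q - 1), ?_, ?_, ?_, ?_⟩
    · have e : 1 + ((1 + δ : ℝ) : ℂ) * (q - 1) - q = ((δ : ℝ) : ℂ) * (q - 1) := by
        push_cast
        ring
      rw [e, norm_mul, Complex.norm_real, Real.norm_of_nonneg hδ.le]
      linarith
    · have e : 1 + ((1 + δ : ℝ) : ℂ) * (q - 1) - 1 = ((1 + δ : ℝ) : ℂ) * (q - 1) := by ring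
      rw [e, norm_mul, Complex.norm_real, Real.norm_of_nonneg (by linarith)]
      linarith
    · refine away ha ?_ hδ
      have e : 1 + (q - 1) = q := by ring
      rw [e]
      exact h2
    · have e : 1 + ((1 + δ : ℝ) : ℂ) * (q - 1) - 2 = -(1 + ((1 + δ : ℝ) : ℂ) * (-(q - 1))) := by
        ring
      rw [e, norm_neg]
      refine away (neg_ne_zero.2 ha) ?_ hδ
      have e' : 1 + -(q - 1) = -(q - 2) := by ring
      rw [e', norm_neg]
      exact h3

end CHR
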