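import Pool.Agent.CHR.Wheel

/-!
# CHR/WheelPat: the polynomial of the patterns `pat a L b`

Package family CHR (MP_5e2eaf_co), architect helper80. Paper text: /team-store/CHR_Proof.md.

PROOF. All identities are ring identities of the five coefficients (`Ker.ext`, `Ker.comp`, `ring`,
`thD_succ'`, and `n * thD n L = (n - 1)^L - (-1)^L`, `H37.Chrom.q_mul_thD`).
Let `Rk β μ = ⟨0, 0, 0, β, μ⟩` (kernel `β + μ [x = y]` for `x, y ≠ u`, zero otherwise).
(1) `Ker.comp` is associative (`ring`).
(2) `adjT = comp adj (Rk 0 1)`, `comp (Rk 0 1) (Rk β μ) = Rk β μ`.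
(3) `comp (Rk β μ) (Rk β' μ') = Rk β'' (μ μ')` with `μ μ' + (n-1) β'' = (μ + (n-1) β) *
    (μ' + (n-1) β')` (so `t = μ + (n-1) β` is multiplicative); explicitly
    `β'' = (n-1) β β' + β μ' + μ β'`.
(4) walks: `walkK 0 = ⟨1, 0, 0, 0, 1⟩` is the identity, `walkK 1 = adj`,
    `comp (walkK j) (walkK k) = walkK (j + k)` (induction on `j`), and
    `comp (Rk 0 1) (comp (walkK k) (Rk 0 1)) = Rk (thD n k) ((-1)^k)`.
(5) For a pattern that starts with `true`: `KA (true :: w) = comp adj (comp (Rk 0 1) (KA w))`.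
    Claim, by induction: for `w = replicate a true ++ (replicate b (replicate L false ++
    [true])).flatten`, `comp (Rk 0 1) (KA w) = comp (Rk β μ) adj` with `μ = (-1)^(a + b (L+1))`,
    `μ + (n-1) β = (n-2)^a * thD n (L+2)^b`: for a step `true`: `comp (Rk 0 1) (comp adjT K)
    = comp (comp (Rk 0 1) (comp adj (Rk 0 1))) (comp (Rk 0 1) K)`, where the first factor is
    `Rk (thD n 1) (-1)`, `t = -1 + (n - 1) = n - 2`; for a block `replicate L false ++ [true]`:
    the first factor is `comp (Rk 0 1) (comp (walkK (L+1)) (Rk 0 1)) = Rk (thD n (L+1))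
    ((-1)^(L+1))`, with `t = (-1)^(L+1) + (n-1) thD n (L+1) = thD n (L+2)`; `w = []`:
    `comp (Rk 0 1) adj`, `β = 0`, `μ = 1`.
(6) So `KA (pat a L b) = comp adj (comp (Rk β μ) adj)`, and `trK` is cyclic:
    `trK (comp (comp adj (comp (Rk β μ) adj)) (walkK (m+3)))
    = trK (comp (Rk β μ) (walkK (m+5)))`
    `= (n-1) * ((n-1) β thD + β (-1)^(m+5) + μ thD + μ (-1)^(m+5))`, `thD = thD n (m+5)`,
    `= t t' + (n - 2) μ μ'` with `μ' = (-1)^(m+5)`, `t' = μ' + (n-1) thD n (m+5) = thD n (m+6)`
    [on the `n - 1` colours `≠ u`: trace of `(β + μ [x=y])(β' + μ' [x=y])`]. Finally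
    `μ μ' = (-1)^(a + b (L+1) + m + 5) = 1` because `a + b (L+1) = m + 1`.
-/

namespace CHR

open H37.Chrom

variable {A : Type} [CommRing A]

theorem length_pat (a L b : ℕ) : (pat a L b).length = a + b * (L + 1) + 1 := by
  simp [pat, List.length_flatten]

/-- the coefficients of a path kernel seen from the colours different from that of the hub -/
private def WheelPatP (n : A) (w : List Bool) (t μ : A) : Prop :=
  ∃ β : A, t = μ + (n - 1) * β ∧ (KA n w).c = t ∧ (KA n w).d = μ + (n - 2) * β ∧
    (KA n w).s = -μ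

private lemma wheelPat_nil (n : A) : WheelPatP n [] 1 1 := by
  refine ⟨0, by ring, rfl, ?_, rfl⟩
  show (1 : A) = _
  ring

private lemma wheelPat_true {n : A} {w : List Bool} {t μ : A} (h : WheelPatP n w t μ) :
    WheelPatP n (true :: w) ((n - 2) * t) (-μ) := by
  obtain ⟨β, h1, h2, h3, h4⟩ := h
  refine ⟨(n - 2) * β + μ, by rw [h1]; ring, ?_, ?_, ?_⟩
  · rw [KA_cons]
    simp only [if_true, Ker.comp, adjT, h2]
    ring
  · rw [KA_cons]
    simp only [if_true, Ker.comp, adjT, h3, h4]
    ring
  · rw [KA_cons]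
    simp only [if_true, Ker.comp, adjT, h4]
    ring

private lemma wheelPat_block (n : A) (w : List Bool) (L : ℕ) :
    KA n (List.replicate L false ++ (true :: w)) =
      ⟨(n - 1) * thD n (L + 1) * (KA n w).c,
        (n - 1) * thD n (L + 1) * (KA n w).d + thD n (L + 1) * (KA n w).s,
        (n - 1) * thD n (L + 1) * (KA n w).c + (-1) ^ (L + 1) * (KA n w).c,
        (n - 1) * thD n (L + 1) * (KA n w).d + (-1) ^ (L + 1) * (KA n w).d +
          thD n (L + 1) * (KA n w).s,
        (-1) ^ (L + 1) * (KA n w).s⟩ := by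
  induction L with
  | zero =>
    rw [List.replicate_zero, List.nil_append, KA_cons, thD_succ', thD_zero']
    ext <;> simp only [if_true, Ker.comp, adjT] <;> ring
  | succ L ih =>
    have e : List.replicate (L + 1) false ++ (true :: w) =
        false :: (List.replicate L false ++ (true :: w)) := by
      rw [List.replicate_succ, List.cons_append]
    rw [e, KA_cons, ih, thD_succ' n (L + 1), pow_succ (-1 : A) (L + 1)]
    ext <;> simp only [if_false, Ker.comp, Ker.adj, Bool.false_eq_true] <;> ring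

private lemma wheelPat_blk {n : A} {w : List Bool} {t μ : A} (L : ℕ)
    (h : WheelPatP n w t μ) :
    WheelPatP n ((List.replicate L false ++ [true]) ++ w) (thD n (L + 2) * t)
      ((-1) ^ (L + 1) * μ) := by
  obtain ⟨β, h1, h2, h3, h4⟩ := h
  have e : (List.replicate L false ++ [true]) ++ w = List.replicate L false ++ (true :: w) := by
    simp
  rw [e]
  refine ⟨(n - 1) * thD n (L + 1) * β + thD n (L + 1) * μ + (-1) ^ (L + 1) * β, ?_, ?_, ?_, ?_⟩
  · rw [h1, thD_succ' n (L + 1)]
    ring
  · rw [wheelPat_block]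
    simp only
    rw [h2, thD_succ' n (L + 1)]
    ring
  · rw [wheelPat_block]
    simp only
    rw [h3, h4]
    ring
  · rw [wheelPat_block]
    simp only
    rw [h4]
    ring

private lemma wheelPat_blocks (n : A) (L b : ℕ) :
    WheelPatP n (List.replicate b (List.replicate L false ++ [true])).flatten
      (thD n (L + 2) ^ b) ((-1) ^ (b * (L + 1))) := by
  induction b with
  | zero => simpa using wheelPat_nil n
  | succ b ih =>
    have h := wheelPat_blk L ih
    rw [List.replicate_succ, List.flatten_cons]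
    have e1 : thD n (L + 2) ^ (b + 1) = thD n (L + 2) * thD n (L + 2) ^ b := by
      rw [pow_succ, mul_comm]
    have e2 : ((-1 : A)) ^ ((b + 1) * (L + 1)) = (-1) ^ (L + 1) * (-1) ^ (b * (L + 1)) := by
      rw [← pow_add]
      congr 1
      ring
    rw [e1, e2]
    exact h

private lemma wheelPat_all (n : A) (a L b : ℕ) :
    WheelPatP n (List.replicate a true ++
      (List.replicate b (List.replicate L false ++ [true])).flatten)
      ((n - 2) ^ a * thD n (L + 2) ^ b) ((-1) ^ (a + b * (L + 1))) := by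
  induction a with
  | zero => simpa using wheelPat_blocks n L b
  | succ a ih =>
    have h := wheelPat_true ih
    rw [List.replicate_succ, List.cons_append]
    have e1 : (n - 2) ^ (a + 1) * thD n (L + 2) ^ b =
        (n - 2) * ((n - 2) ^ a * thD n (L + 2) ^ b) := by
      rw [pow_succ]
      ring
    have e2 : ((-1 : A)) ^ (a + 1 + b * (L + 1)) = -(-1) ^ (a + b * (L + 1)) := by
      have e3 : a + 1 + b * (L + 1) = (a + b * (L + 1)) + 1 := by ring
      rw [e3, pow_succ]
      ring
    rw [e1, e2]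
    exact h

theorem WA_pat {m a L b : ℕ} (h : a + b * (L + 1) = m + 1) (n : A) :
    WA m (pat a L b) n =
      n * ((n - 2) ^ a * thD n (L + 2) ^ b * thD n (m + 6) + (n - 2)) := by
  obtain ⟨β, h1, h2, h3, h4⟩ := wheelPat_all n a L b
  have hsq : ((-1 : A)) ^ (a + b * (L + 1)) * (-1) ^ (m + 3) = 1 := by
    rw [h, ← pow_add]
    have e : m + 1 + (m + 3) = 2 * (m + 2) := by ring
    rw [e, pow_mul]
    simp
  unfold WA
  congr 1
  unfold pat
  rw [KA_cons, if_pos rfl]
  generalize KA n (List.replicate a true ++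
      (List.replicate b (List.replicate L false ++ [true])).flatten) = K at *
  rw [h1] at h2 ⊢
  generalize ((-1 : A)) ^ (a + b * (L + 1)) = μ at *
  have t1 : thD n (m + 6) = (n - 1) * ((n - 1) * ((n - 1) * thD n (m + 3) + (-1) ^ (m + 3)) -
      (-1) ^ (m + 3)) + (-1) ^ (m + 3) := by
    rw [thD_succ' n (m + 5), thD_succ' n (m + 4), thD_succ' n (m + 3),
      show m + 5 = (m + 3) + 2 by ring, show m + 4 = (m + 3) + 1 by ring, pow_add, pow_succ]
    ring
  rw [t1]
  simp only [trK, Ker.comp, adjT, walkK, h2, h3, h4]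
  generalize thD n (m + 3) = T
  generalize ((-1 : A)) ^ (m + 3) = e at *
  linear_combination (n - 2) * hsq

end CHR
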