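import Pool.Agent.CHR.Tie
import Pool.Agent.CHR.WheelPat

/-!
# CHR/MiddleZero: zeros of subdivided wheels

Package family CHR (MP_5e2eaf_co), architect helper80. Paper text: /team-store/CHR_Proof.md.

PROOF of `middle_zero`. `M q L := thD q (2 L + 1) = (1 + (q-1)^(2L+1)) / q` (`q_mul_thD`). As
`‖q0 - 1‖ < 1 < ‖q0‖` there is `L ≥ 1` with `‖thD q0 (2 L + 1)‖ < 1` (it tends to `1/q0`). Put
`F q = thD q (2 L + 1)`, but if `F q0 = 0` take a larger `L` (`F q0 → 1 / q0 ≠ 0`), so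
`0 < ‖F q0‖ < 1`. `G q = (q - 2)^2`, `‖G q0‖ > 1`.
`T s t q = q / (1 - (q - 1)^(2 t + s * (2 L) + 6))`, `c = q0`. Choose `r` such that on
`ball q0 r`: `q ≠ 0`, `q ≠ 2`, `F q ≠ 0`, `‖q - 1‖ ≤ κ < 1` for a `κ < 1`, `‖q - q0‖ ≤ ‖q0‖/8`, and
`N0` such that `κ^N0 ≤ 1/8` (then `‖T s t q - q0‖ ≤ ‖q0‖ / 2`:
`‖q/(1-u) - q0‖ ≤ (‖q - q0‖ + ‖q0‖ ‖u‖) / (1 - ‖u‖) ≤ (1/8 + 1/8) ‖q0‖ / (7/8)`).
`hnd`: `deriv G q * F q + σ (deriv F q * G q) = (q - 2) (2 F q + σ (q - 2) F' q)`, `F` is the value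
of the polynomial `Fp = thD X (2 L + 1)` (`thD_map`); if it vanished on a ball then the polynomial
`(X - 2)(2 Fp + C σ (X - 2) Fp')` would be `0` (infinitely many roots), hence
`2 Fp + C σ (X-2) Fp' = 0`, and at `2`: `2 thD 2 (2L+1) = 1 - (-1)^(2L+1) = 2 ≠ 0`
(`H37.Chrom.thD_two`-type: `q_mul_thD`).
`tie` gives `s, t ≥ 3` and `q1` (also `‖q1 - q0‖ < r`) with `F q1 ^ s * G q1 ^ t = T s t q1`. Put
`a = 2 t + 1`, `b = s`, block length `L' + 1 = 2 L` (`L' = 2 L - 1`, `L' + 2 = 2 L + 1`),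
`m = 2 t + s * (2 L)`, so `a + b (L' + 1) = m + 1`, and `m + 6 = 2 t + s (2L) + 6` is even:
`q1 * thD q1 (m + 6) = (q1-1)^(m+6) - 1`. By `WA_pat` (`α` the entries of `pat a L' b`, a list of
length `m + 2`)
`WA = q1 ((q1-2)^(2t+1) F^s thD q1 (m+6) + (q1 - 2)) = q1 (q1 - 2) (1 - G^t F^s
(1 - (q1-1)^(m+6))/q1) = 0`. The polynomial `WA m (pat ..) X` is not `0`: its value at `3` is
`3 (thD 3 (L'+2)^b * thD 3 (m+6) + 1)`, and `thD (3 : ℂ) k` is a nonnegative real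
(`3 * thD 3 k = 2^k - (-1)^k`). Three indices with `α j = true`: `j = 0, 1, 2` (`a ≥ 2`).
The function `α : Fin (m + 2) → Bool` with `List.ofFn α = pat a L' b`: use
`length_pat` and `List.ofFn_get` (after `subst`/`obtain`), e.g. from
`∃ α : Fin (m+2) → Bool, List.ofFn α = w` for every list `w` of length `m + 2`.
-/

namespace CHR

open H37.Chrom Polynomial

private lemma mz_ofFn (n : ℕ) (w : List Bool) (h : w.length = n) :
    ∃ α : Fin n → Bool, List.ofFn α = w := by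
  subst h
  exact ⟨w.get, List.ofFn_get w⟩

private lemma mz_pat (a L b j : ℕ) (h : j ≤ a) : (pat a L b)[j]? = some true := by
  cases j with
  | zero => simp [pat]
  | succ i =>
    rw [pat, List.getElem?_cons_succ,
      List.getElem?_append_left (by rw [List.length_replicate]; omega),
      List.getElem?_replicate, if_pos (by omega)]

private lemma mz_get {n : ℕ} (α : Fin n → Bool) (j : Fin n) :
    (List.ofFn α)[(j : ℕ)]? = some (α j) := by
  simp

private lemma mz_three (k : ℕ) : (0 : ℝ) ≤ thD (3 : ℝ) k := by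
  have h := q_mul_thD (3 : ℝ) k
  have h1 : (1 : ℝ) ≤ 2 ^ k := one_le_pow₀ (by norm_num)
  have h2 : (-1 : ℝ) ^ k ≤ 1 := by
    rcases Nat.even_or_odd k with he | ho
    · rw [he.neg_one_pow]
    · rw [ho.neg_one_pow]; norm_num
  have h3 : (3 : ℝ) - 1 = 2 := by norm_num
  rw [h3] at h
  linarith

private lemma mz_threeC (k : ℕ) : thD (3 : ℂ) k = ((thD (3 : ℝ) k : ℝ) : ℂ) := by
  have h := thD_map Complex.ofRealHom (3 : ℝ) k
  simpa using h.symm

private lemma mz_ne {m a L b : ℕ} (h : a + b * (L + 1) = m + 1) :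
    WA m (pat a L b) (X : ℂ[X]) ≠ 0 := by
  intro h0
  rw [WA_pat h] at h0
  have h1 := congrArg (Polynomial.eval (3 : ℂ)) h0
  have hm : ∀ k : ℕ, Polynomial.eval (3 : ℂ) (thD (X : ℂ[X]) k) = thD (3 : ℂ) k := by
    intro k
    rw [← coe_evalRingHom, thD_map, coe_evalRingHom, eval_X]
  have h2 : Polynomial.eval (3 : ℂ) ((X : ℂ[X]) - 2) = 1 := by
    have : (2 : ℂ[X]) = C 2 := (C_ofNat 2).symm
    rw [this, eval_sub, eval_X, eval_C]
    norm_num
  rw [eval_mul, eval_add, eval_mul, eval_mul, eval_pow, eval_pow, hm, hm, h2, eval_X, one_pow,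
    one_mul, eval_zero, mz_threeC, mz_threeC] at h1
  have h3 : (3 : ℂ) * ((((thD (3 : ℝ) (L + 2)) ^ b * thD (3 : ℝ) (m + 6) + 1 : ℝ)) : ℂ) = 0 := by
    rw [← h1]
    push_cast
    ring
  have h4 : (0 : ℝ) < (thD (3 : ℝ) (L + 2)) ^ b * thD (3 : ℝ) (m + 6) + 1 := by
    have := mul_nonneg (pow_nonneg (mz_three (L + 2)) b) (mz_three (m + 6))
    linarith
  rcases mul_eq_zero.1 h3 with h | h
  · norm_num at h
  · rw [Complex.ofReal_eq_zero] at h
    linarith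

private lemma mz_nd (L : ℕ) (q0 : ℂ) (σ : ℝ) (δ : ℝ) (hδ : 0 < δ) :
    ∃ q ∈ Metric.ball q0 δ, deriv (fun q : ℂ => (q - 2) ^ 2) q * thD q (2 * L + 1) +
      (σ : ℂ) * (deriv (fun q : ℂ => thD q (2 * L + 1)) q * (q - 2) ^ 2) ≠ 0 := by
  by_contra hcon
  push Not at hcon
  set Fp : ℂ[X] := thD X (2 * L + 1) with hFp
  have hF : ∀ q : ℂ, thD q (2 * L + 1) = Fp.eval q := by
    intro q
    rw [hFp, ← coe_evalRingHom, thD_map, coe_evalRingHom, eval_X]
  have hF' : (fun q : ℂ => thD q (2 * L + 1)) = fun q => Fp.eval q := funext hF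
  set P : ℂ[X] := (X - C 2) * (C 2 * Fp + C (σ : ℂ) * (derivative Fp * (X - C 2))) with hP
  have hroot : ∀ q ∈ Metric.ball q0 δ, P.eval q = 0 := by
    intro q hq
    have h := hcon q hq
    have hd : deriv (fun q : ℂ => (q - 2) ^ 2) q = 2 * (q - 2) := by
      have h1 : HasDerivAt (fun q : ℂ => (q - 2) ^ 2) (2 * (q - 2)) q := by
        have h2 := ((hasDerivAt_id q).sub_const (2 : ℂ)).fun_pow 2
        simpa using h2
      exact h1.deriv
    rw [hd, hF', Polynomial.deriv, hF] at h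
    rw [hP]
    simp only [eval_mul, eval_add, eval_sub, eval_X, eval_C]
    linear_combination h
  have hinf : Set.Infinite {q : ℂ | IsRoot P q} := by
    have hb : Set.Infinite (Metric.ball q0 δ) := by
      exact infinite_of_mem_nhds q0 (Metric.ball_mem_nhds q0 hδ)
    exact hb.mono fun q hq => hroot q hq
  have hP0 : P = 0 := eq_zero_of_infinite_isRoot P hinf
  rw [hP] at hP0
  rcases mul_eq_zero.1 hP0 with h | h
  · exact X_sub_C_ne_zero _ h
  · have h2 := congrArg (Polynomial.eval (2 : ℂ)) h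
    simp only [eval_mul, eval_add, eval_sub, eval_X, eval_C, sub_self, mul_zero, add_zero,
      eval_zero, ← hF] at h2
    have h3 := q_mul_thD (2 : ℂ) (2 * L + 1)
    rw [h2] at h3
    have h4 : ((-1 : ℂ)) ^ (2 * L + 1) = -1 := (odd_two_mul_add_one L).neg_one_pow
    rw [h4] at h3
    norm_num at h3

private lemma mz_L {q0 : ℂ} (h1 : ‖q0 - 1‖ < 1) (h2 : 1 < ‖q0‖) :
    ∃ L : ℕ, 1 ≤ L ∧ thD q0 (2 * L + 1) ≠ 0 ∧ ‖thD q0 (2 * L + 1)‖ < 1 := by
  have hq : q0 ≠ 0 := by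
    intro h
    rw [h, norm_zero] at h2
    linarith
  have hf : ∀ L : ℕ, thD q0 (2 * L + 1) = ((q0 - 1) ^ (2 * L + 1) + 1) / q0 := by
    intro L
    have h3 := q_mul_thD q0 (2 * L + 1)
    have h4 : ((-1 : ℂ)) ^ (2 * L + 1) = -1 := (odd_two_mul_add_one L).neg_one_pow
    rw [h4] at h3
    rw [eq_div_iff hq, mul_comm, h3]
    ring
  have ht : Filter.Tendsto (fun L : ℕ => ((q0 - 1) ^ (2 * L + 1) + 1) / q0) Filter.atTop
      (nhds ((0 + 1) / q0)) := by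
    refine Filter.Tendsto.div_const (Filter.Tendsto.add_const _ ?_) _
    have h3 := tendsto_pow_atTop_nhds_zero_of_norm_lt_one h1
    refine h3.comp ?_
    refine Filter.tendsto_atTop_mono (fun L => ?_) Filter.tendsto_id
    simp only [id]
    omega
  have htn := ht.norm
  have hn : ‖(0 + 1) / q0‖ = 1 / ‖q0‖ := by
    rw [zero_add, norm_div, norm_one]
  rw [hn] at htn
  have hlt : 1 / ‖q0‖ < 1 := by
    rw [div_lt_one (by linarith)]
    exact h2
  have hgt : 0 < 1 / ‖q0‖ := by positivity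
  have e1 := htn.eventually (gt_mem_nhds hlt)
  have e2 := htn.eventually (lt_mem_nhds hgt)
  obtain ⟨L, ⟨hL1, hL2⟩, hL3⟩ := ((e1.and e2).and (Filter.eventually_ge_atTop 1)).exists
  refine ⟨L, hL3, ?_, ?_⟩
  · rw [hf]
    exact norm_pos_iff.1 hL2
  · rw [hf]
    exact hL1

theorem middle_zero {q0 : ℂ} (h1 : ‖q0 - 1‖ < 1) (h2 : 1 < ‖q0‖) (h3 : 1 < ‖q0 - 2‖)
    {ε : ℝ} (hε : 0 < ε) :
    ∃ q1 : ℂ, ‖q1 - q0‖ < ε ∧ ∃ (m : ℕ) (α : Fin (m + 2) → Bool),
      WA m (List.ofFn α) q1 = 0 ∧ WA m (List.ofFn α) (X : ℂ[X]) ≠ 0 ∧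
      ∃ j1 j2 j3 : Fin (m + 2), j1 ≠ j2 ∧ j1 ≠ j3 ∧ j2 ≠ j3 ∧
        α j1 = true ∧ α j2 = true ∧ α j3 = true := by
  obtain ⟨L, hL1, hL2, hL3⟩ := mz_L h1 h2
  have hq0 : q0 ≠ 0 := by
    intro h
    rw [h, norm_zero] at h2
    linarith
  have hq2 : q0 ≠ 2 := by
    intro h
    rw [h, sub_self, norm_zero] at h3
    linarith
  have hFe : (fun q : ℂ => thD q (2 * L + 1)) = fun q => (thD X (2 * L + 1) : ℂ[X]).eval q := by
    funext q
    rw [← coe_evalRingHom, thD_map, coe_evalRingHom, eval_X]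
  have hFd : Differentiable ℂ (fun q : ℂ => thD q (2 * L + 1)) := by
    rw [hFe]
    exact Polynomial.differentiable _
  set κ : ℝ := (1 + ‖q0 - 1‖) / 2 with hκ
  have hκ0 : 0 ≤ κ := by positivity
  have hκ1 : κ < 1 := by rw [hκ]; linarith
  have hκ2 : ‖q0 - 1‖ < κ := by rw [hκ]; linarith
  have hn0 : 0 < ‖q0‖ := norm_pos_iff.2 hq0
  have ev : ∀ᶠ q in nhds q0, q ≠ 0 ∧ q ≠ 2 ∧ thD q (2 * L + 1) ≠ 0 ∧ ‖q - 1‖ < κ ∧
      ‖q - q0‖ < ‖q0‖ / 8 := by
    refine (eventually_ne_nhds hq0).and ((eventually_ne_nhds hq2).and ?_)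
    refine (hFd.continuous.continuousAt.eventually_ne hL2).and (Filter.Eventually.and ?_ ?_)
    · have hc : Continuous fun q : ℂ => ‖q - 1‖ := by fun_prop
      exact hc.continuousAt.eventually (gt_mem_nhds hκ2)
    · have hc : Continuous fun q : ℂ => ‖q - q0‖ := by fun_prop
      refine hc.continuousAt.eventually (gt_mem_nhds ?_)
      simp only [sub_self, norm_zero]
      positivity
  obtain ⟨r, hr, hball⟩ := Metric.eventually_nhds_iff_ball.1 ev
  obtain ⟨N0, hN0⟩ := exists_pow_lt_of_lt_one (show (0 : ℝ) < 1 / 8 by norm_num) hκ1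
  have hsm : ∀ k, N0 ≤ k → ∀ q ∈ Metric.ball q0 r, ‖(q - 1) ^ k‖ ≤ 1 / 8 := by
    intro k hk q hq
    have hq1 := (hball q hq).2.2.2.1
    calc ‖(q - 1) ^ k‖ = ‖q - 1‖ ^ k := norm_pow _ _
      _ ≤ κ ^ k := pow_le_pow_left₀ (norm_nonneg _) hq1.le k
      _ ≤ κ ^ N0 := pow_le_pow_of_le_one hκ0 hκ1.le hk
      _ ≤ 1 / 8 := hN0.le
  have hden : ∀ k, N0 ≤ k → ∀ q ∈ Metric.ball q0 r, 7 / 8 ≤ ‖1 - (q - 1) ^ k‖ := by
    intro k hk q hq
    have h := norm_sub_norm_le (1 : ℂ) ((q - 1) ^ k)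
    rw [norm_one] at h
    have := hsm k hk q hq
    linarith
  have hden0 : ∀ k, N0 ≤ k → ∀ q ∈ Metric.ball q0 r, 1 - (q - 1) ^ k ≠ 0 := by
    intro k hk q hq h
    have := hden k hk q hq
    rw [h, norm_zero] at this
    linarith
  obtain ⟨s, t, hs, ht, q1, hq1, hqe⟩ := tie (q0 := q0) (c := q0) hr
    (F := fun q => thD q (2 * L + 1)) (G := fun q => (q - 2) ^ 2)
    hFd.differentiableOn (by fun_prop)
    (fun q hq => (hball q hq).2.2.1)
    (fun q hq => pow_ne_zero 2 (sub_ne_zero.2 (hball q hq).2.1))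
    hL3 (by
      simp only [norm_pow]
      nlinarith)
    (fun σ _ δ hδ => mz_nd L q0 σ δ hδ) hq0 N0
    (fun s t q => q / (1 - (q - 1) ^ (2 * t + s * (2 * L) + 6)))
    (by
      intro s t _ ht q hq
      have hk : N0 ≤ 2 * t + s * (2 * L) + 6 := by
        have := Nat.zero_le (s * (2 * L))
        omega
      refine DifferentiableAt.differentiableWithinAt ?_
      refine DifferentiableAt.div differentiableAt_id ?_ (hden0 _ hk q hq)
      fun_prop)
    (by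
      intro s t _ ht q hq
      have hk : N0 ≤ 2 * t + s * (2 * L) + 6 := by
        have := Nat.zero_le (s * (2 * L))
        omega
      have e0 := hden0 _ hk q hq
      have e1 := hden _ hk q hq
      have e2 := hsm _ hk q hq
      have e3 := (hball q hq).2.2.2.2
      set u := (q - 1) ^ (2 * t + s * (2 * L) + 6) with hu
      have e4 : q / (1 - u) - q0 = (q - q0 + q0 * u) / (1 - u) := by
        field_simp
        ring
      have e5 : ‖q - q0 + q0 * u‖ ≤ ‖q0‖ / 4 := by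
        calc ‖q - q0 + q0 * u‖ ≤ ‖q - q0‖ + ‖q0 * u‖ := norm_add_le _ _
          _ = ‖q - q0‖ + ‖q0‖ * ‖u‖ := by rw [norm_mul]
          _ ≤ ‖q0‖ / 8 + ‖q0‖ * (1 / 8) := by gcongr
          _ = ‖q0‖ / 4 := by ring
      change ‖q / (1 - u) - q0‖ ≤ ‖q0‖ / 2
      rw [e4, norm_div, div_le_iff₀ (by linarith)]
      nlinarith)
    (ε := min ε r) (lt_min hε hr) (max 3 N0)
  have hs3 : 3 ≤ s := le_trans (le_max_left _ _) hs
  have ht3 : 3 ≤ t := le_trans (le_max_left _ _) ht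
  have htN : N0 ≤ t := le_trans (le_max_right _ _) ht
  have hqr : q1 ∈ Metric.ball q0 r := by
    rw [Metric.mem_ball, dist_eq_norm]
    exact lt_of_lt_of_le hq1 (min_le_right _ _)
  obtain ⟨L', rfl⟩ : ∃ L', L = L' + 1 := ⟨L - 1, by omega⟩
  set m : ℕ := 2 * t + s * (2 * (L' + 1)) with hm
  have hpat : (2 * t + 1) + s * ((2 * L' + 1) + 1) = m + 1 := by
    rw [hm]
    ring
  obtain ⟨α, hα⟩ := mz_ofFn (m + 2) (pat (2 * t + 1) (2 * L' + 1) s) (by
    rw [length_pat, hpat])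
  have hα3 : ∀ j : Fin (m + 2), (j : ℕ) ≤ 2 * t + 1 → α j = true := by
    intro j hj
    have e1 := mz_get α j
    rw [hα, mz_pat _ _ _ _ hj] at e1
    exact (Option.some.inj e1).symm
  have hk : N0 ≤ m + 6 := by
    rw [hm]
    have := Nat.zero_le (s * (2 * (L' + 1)))
    omega
  refine ⟨q1, lt_of_lt_of_le hq1 (min_le_left _ _), m, α, ?_, ?_, ?_⟩
  · rw [hα, WA_pat hpat]
    have e1 := q_mul_thD q1 (m + 6)
    have e2 : ((-1 : ℂ)) ^ (m + 6) = 1 := by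
      have : Even (m + 6) := by
        rw [hm]
        exact ⟨t + s * (L' + 1) + 3, by ring⟩
      exact this.neg_one_pow
    rw [e2] at e1
    have e3 := hden0 _ hk q1 hqr
    have e4 : thD q1 (2 * (L' + 1) + 1) ^ s * ((q1 - 2) ^ 2) ^ t =
        q1 / (1 - (q1 - 1) ^ (m + 6)) := hqe
    rw [eq_div_iff e3] at e4
    have e5 : (2 * L' + 1) + 2 = 2 * (L' + 1) + 1 := by ring
    rw [e5]
    have e6 : (q1 - 2) ^ (2 * t + 1) = ((q1 - 2) ^ 2) ^ t * (q1 - 2) := by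
      rw [pow_succ, pow_mul]
    rw [e6]
    have hq10 : q1 ≠ 0 := (hball q1 hqr).1
    have e7 : (thD q1 (2 * (L' + 1) + 1) ^ s * ((q1 - 2) ^ 2) ^ t * thD q1 (m + 6) + 1) = 0 := by
      have e8 : q1 * (1 - (q1 - 1) ^ (m + 6)) *
          (thD q1 (2 * (L' + 1) + 1) ^ s * ((q1 - 2) ^ 2) ^ t * thD q1 (m + 6) + 1) = 0 := by
        linear_combination q1 * thD q1 (m + 6) * e4 + q1 * e1
      rcases mul_eq_zero.1 e8 with h | h
      · exact absurd h (mul_ne_zero hq10 e3)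
      · exact h
    linear_combination q1 * (q1 - 2) * e7
  · rw [hα]
    exact mz_ne hpat
  · refine ⟨⟨0, by omega⟩, ⟨1, by omega⟩, ⟨2, by omega⟩, ?_, ?_, ?_, ?_, ?_, ?_⟩
    · simp
    · simp [Fin.ext_iff]
    · simp [Fin.ext_iff]
    · exact hα3 _ (by simp)
    · exact hα3 _ (by simp)
    · exact hα3 _ (by simp; omega)

end CHR
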