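import Pool.Agent.H37.Chrom.Defs

/-!
# CHR/Rim: two-hub rims

Package family CHR (MP_5e2eaf_co), architect helper80. Paper text: /team-store/CHR_Proof.md.
Definitions only (no sorry).
-/

namespace CHR

/-- vertices of a two-hub rim: a cycle of `n` rim vertices and the hubs `hub false` (`c`) and
`hub true` (`d`) -/
inductive RV (n : ℕ)
  | rim (i : Fin n)
  | hub (b : Bool)
  deriving DecidableEq, Fintype

/-- `j` is the cyclic successor of `i` -/
def Cyc {n : ℕ} (i j : Fin n) : Prop :=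
  j.val = i.val + 1 ∨ (i.val + 1 = n ∧ j.val = 0)

/-- oriented edges: the rim, and the spokes of every rim vertex to its hub -/
inductive RE {n : ℕ} (τ : Fin n → Bool) : RV n → RV n → Prop
  | step (i j : Fin n) (h : Cyc i j) : RE τ (.rim i) (.rim j)
  | spoke (i : Fin n) : RE τ (.rim i) (.hub (τ i))

/-- the two-hub rim of type `τ` -/
def RG {n : ℕ} (τ : Fin n → Bool) : SimpleGraph (RV n) := SimpleGraph.fromRel (RE τ)

variable {n : ℕ} {τ : Fin n → Bool}

lemma RG_adj {a b : RV n} : (RG τ).Adj a b ↔ a ≠ b ∧ (RE τ a b ∨ RE τ b a) := by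
  rw [RG, SimpleGraph.fromRel_adj]

lemma RG_step {i j : Fin n} (h : Cyc i j) (hij : i ≠ j) :
    (RG τ).Adj (.rim i) (.rim j) :=
  RG_adj.2 ⟨by simpa using hij, Or.inl (RE.step i j h)⟩

lemma RG_spoke (i : Fin n) : (RG τ).Adj (.rim i) (.hub (τ i)) :=
  RG_adj.2 ⟨by simp, Or.inl (RE.spoke i)⟩

lemma Cyc.ne {i j : Fin n} (hn : 2 ≤ n) (h : Cyc i j) : i ≠ j := by
  rintro rfl
  rcases h with h | ⟨h1, h2⟩ <;> omega

/-- adjacency of two rim vertices -/
lemma RG_rim_rim {i j : Fin n} (hn : 2 ≤ n) :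
    (RG τ).Adj (.rim i) (.rim j) ↔ Cyc i j ∨ Cyc j i := by
  rw [RG_adj]
  constructor
  · rintro ⟨_, h | h⟩
    · cases h with
      | step _ _ h => exact Or.inl h
    · cases h with
      | step _ _ h => exact Or.inr h
  · rintro (h | h)
    · exact ⟨by simpa using h.ne hn, Or.inl (RE.step _ _ h)⟩
    · exact ⟨by simpa using (h.ne hn).symm, Or.inr (RE.step _ _ h)⟩

/-- adjacency of a rim vertex and a hub -/
lemma RG_rim_hub {i : Fin n} {b : Bool} : (RG τ).Adj (.rim i) (.hub b) ↔ τ i = b := by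
  rw [RG_adj]
  constructor
  · rintro ⟨_, h | h⟩
    · cases h with
      | spoke _ => rfl
    · cases h
  · rintro rfl
    exact ⟨by simp, Or.inl (RE.spoke _)⟩

lemma RG_hub_hub {b b' : Bool} : ¬ (RG τ).Adj (.hub b) (.hub b') := by
  rw [RG_adj]
  rintro ⟨_, h | h⟩ <;> cases h

end CHR
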