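import Pool.Agent.CHR.Rim

/-!
# CHR/RimConn: two-hub rims with isolated `c`-vertices are 3-connected

Package family CHR (MP_5e2eaf_co), architect helper80. Paper text: /team-store/CHR_Proof.md.

`τ i = false` means that `rim i` is joined to `c = hub false` (call it a C), `τ i = true` that it
is joined to `d = hub true` (a D). Hypotheses: the successor of a C is a D (`hiso`), and there are
three different C's.

PROOF. Suggested tool: `Rch S a b` = both not in `S` and reachable in the induced graph (see
H37/Chrom/FamConn.lean, namespace `Rch`: refl, symm, trans, step). Cardinality: `RV n` has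
`n + 2 ≥ 5` elements (`n ≥ 3`; in fact there are at least three C's and three D's).
Let `S` have at most two elements. Show that all vertices outside `S` are connected with each other.
(1) `c, d ∉ S`. Every rim vertex `i ∉ S` is joined to its hub. The three pairs
    `{rim i_k, rim (i_k + 1)}` (`k = 1, 2, 3`) are pairwise disjoint (`i_k + 1` is a D; successors
    of different vertices are different), so one of them is disjoint from `S`, and
    `c - rim i_k - rim (i_k + 1) - d` connects the hubs.
(2) `c ∈ S`, `d ∉ S`. `S` contains at most one more vertex. Every D outside `S` is joined to `d`.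
    For a C `i ∉ S` the successor and the predecessor are D's (predecessor: if it were a C, its
    successor `i` would be a D) and different (`n ≥ 3`), so one of them is not in `S`.
(3) `c ∉ S`, `d ∈ S`. `S` contains at most one more vertex `v`. Every C outside `S` is joined to
    `c`. For a D `i ∉ S`: walk from `i` forward (`i, i+1, …`) to the first C, and backward to the
    first C. If both walks (with their end) meet `S`, they both contain `v = rim (i + a)
    = rim (i - b)` (`a, b ≥ 1` minimal), all of `i, …, i + a - 1` and `i, …, i - b + 1` are D's,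
    and `a + b = n` (cyclic), so all rim vertices except `v` are D's: contradiction to two
    different C's. Otherwise `i` is connected with a C outside `S`, hence with `c`.
(4) `c, d ∈ S`. Then `S = {c, d}` and every `rim i` is connected with `rim 0` (walk down).
-/

namespace CHR

open H37.Chrom

section RimConn

variable {n : ℕ}

/-- reachability in the graph with `S` deleted -/
private def RR (τ : Fin n → Bool) (S : Finset (RV n)) (a b : RV n) : Prop :=
  ∃ (ha : a ∈ {v | v ∉ S}) (hb : b ∈ {v | v ∉ S}),
    ((RG τ).induce {v | v ∉ S}).Reachable ⟨a, ha⟩ ⟨b, hb⟩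

private lemma RR.refl {τ : Fin n → Bool} {S : Finset (RV n)} {a : RV n} (h : a ∉ S) :
    RR τ S a a := ⟨h, h, SimpleGraph.Reachable.refl _⟩

private lemma RR.symm {τ : Fin n → Bool} {S : Finset (RV n)} {a b : RV n} (h : RR τ S a b) :
    RR τ S b a := by
  obtain ⟨ha, hb, h⟩ := h
  exact ⟨hb, ha, h.symm⟩

private lemma RR.trans {τ : Fin n → Bool} {S : Finset (RV n)} {a b c : RV n}
    (h : RR τ S a b) (h' : RR τ S b c) : RR τ S a c := by
  obtain ⟨ha, hb, h⟩ := h
  obtain ⟨hb', hc, h'⟩ := h'
  exact ⟨ha, hc, h.trans h'⟩

private lemma RR.step {τ : Fin n → Bool} {S : Finset (RV n)} {a b : RV n}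
    (h : (RG τ).Adj a b) (ha : a ∉ S) (hb : b ∉ S) : RR τ S a b := by
  refine ⟨ha, hb, SimpleGraph.Adj.reachable ?_⟩
  rw [SimpleGraph.comap_adj]
  exact h

private lemma rc_three {α : Type} [DecidableEq α] {S : Finset α} (hS : S.card ≤ 2) {x y z : α}
    (hx : x ∈ S) (hy : y ∈ S) (hz : z ∈ S) (hxy : x ≠ y) (hxz : x ≠ z) (hyz : y ≠ z) :
    False := by
  have h : ({x, y, z} : Finset α) ⊆ S := by
    intro w hw
    simp only [Finset.mem_insert, Finset.mem_singleton] at hw
    rcases hw with rfl | rfl | rfl <;> assumption
  have h2 := Finset.card_le_card h
  have h3 : ({x, y, z} : Finset α).card = 3 := by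
    rw [Finset.card_insert_of_notMem, Finset.card_pair hyz]
    simp [hxy, hxz]
  omega

private lemma rc_succ (i : Fin n) : ∃ j : Fin n, Cyc i j := by
  by_cases h : i.val + 1 < n
  · exact ⟨⟨i.val + 1, h⟩, Or.inl rfl⟩
  · have := i.2
    exact ⟨⟨0, by omega⟩, Or.inr ⟨by omega, rfl⟩⟩

private lemma rc_pred (i : Fin n) : ∃ j : Fin n, Cyc j i := by
  by_cases h : i.val = 0
  · have := i.2
    exact ⟨⟨n - 1, by omega⟩, Or.inr ⟨by simp; omega, h⟩⟩
  · have := i.2
    exact ⟨⟨i.val - 1, by omega⟩, Or.inl (by simp; omega)⟩

private lemma rc_inj {i j k : Fin n} (h : Cyc i k) (h' : Cyc j k) : i = j := by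
  have hi := i.2
  have hj := j.2
  have hk := k.2
  rcases h with h | ⟨h, h2⟩ <;> rcases h' with h' | ⟨h', h2'⟩ <;> (ext; omega)

private lemma rc_two (hn : 3 ≤ n) {i j k : Fin n} (h : Cyc i j) (h' : Cyc k i) : j ≠ k := by
  rintro rfl
  have hi := i.2
  have hj := j.2
  rcases h with h | ⟨h, h2⟩ <;> rcases h' with h' | ⟨h', h2'⟩ <;> omega

/-- the cycle without one vertex is connected -/
private lemma rc_cycle (v : Fin n) (P : Fin n → Prop)
    (hP : ∀ x y : Fin n, Cyc x y → x ≠ v → y ≠ v → (P x ↔ P y)) {i j : Fin n} (hi : i ≠ v)
    (hj : j ≠ v) (h : P i) : P j := by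
  have hv := v.2
  let pos : ℕ → Fin n := fun a =>
    if h : v.val + a < n then ⟨v.val + a, h⟩ else ⟨(v.val + a - n) % n, Nat.mod_lt _ (by omega)⟩
  have hpos1 : ∀ a, v.val + a < n → (pos a).val = v.val + a := by
    intro a h
    simp [pos, h]
  have hpos2 : ∀ a, ¬ v.val + a < n → a < n → (pos a).val = v.val + a - n := by
    intro a h h2
    simp only [pos, h, dif_neg, not_false_iff]
    exact Nat.mod_eq_of_lt (by omega)
  have hstep : ∀ a, 1 ≤ a → a < n → (P (pos 1) ↔ P (pos a)) := by
    intro a ha
    induction a, ha using Nat.le_induction with
    | base => intro _; exact Iff.rfl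
    | succ a ha ih =>
      intro h2
      rw [ih (by omega)]
      refine hP _ _ ?_ ?_ ?_
      · by_cases h3 : v.val + (a + 1) < n
        · left
          rw [hpos1 a (by omega), hpos1 (a + 1) h3]
          omega
        · by_cases h4 : v.val + a < n
          · right
            rw [hpos1 a h4, hpos2 (a + 1) h3 h2]
            omega
          · left
            rw [hpos2 a h4 (by omega), hpos2 (a + 1) h3 h2]
            omega
      · intro h5
        have h6 := congrArg Fin.val h5
        by_cases h4 : v.val + a < n
        · rw [hpos1 a h4] at h6; omega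
        · rw [hpos2 a h4 (by omega)] at h6; omega
      · intro h5
        have h6 := congrArg Fin.val h5
        by_cases h4 : v.val + (a + 1) < n
        · rw [hpos1 _ h4] at h6; omega
        · rw [hpos2 _ h4 h2] at h6; omega
  have hall : ∀ x : Fin n, x ≠ v → (P (pos 1) ↔ P x) := by
    intro x hx
    have hx2 := x.2
    have hx3 : x.val ≠ v.val := fun h => hx (Fin.ext h)
    by_cases h3 : v.val < x.val
    · have h4 : pos (x.val - v.val) = x := by
        ext
        rw [hpos1 _ (by omega)]
        omega
      rw [hstep (x.val - v.val) (by omega) (by omega), h4]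
    · have h4 : pos (x.val + n - v.val) = x := by
        ext
        rw [hpos2 _ (by omega) (by omega)]
        omega
      rw [hstep (x.val + n - v.val) (by omega) (by omega), h4]
  exact (hall j hj).1 ((hall i hi).2 h)

end RimConn

theorem threeConnected_rim {n : ℕ} (hn : 3 ≤ n) (τ : Fin n → Bool)
    (hiso : ∀ i j : Fin n, Cyc i j → τ i = false → τ j = true)
    (i1 i2 i3 : Fin n) (h12 : i1 ≠ i2) (h13 : i1 ≠ i3) (h23 : i2 ≠ i3)
    (t1 : τ i1 = false) (t2 : τ i2 = false) (t3 : τ i3 = false) :
    ThreeConnected (RG τ) := by
  classical
  have hne : ∀ i j : Fin n, τ i = false → τ j = true → i ≠ j := by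
    rintro i j h h' rfl
    rw [h] at h'
    cases h'
  refine ⟨?_, fun S hS => ?_⟩
  · have h : Function.Injective (Sum.elim RV.rim RV.hub : Fin n ⊕ Bool → RV n) := by
      rintro (i | b) (j | b') h <;> simp at h <;> simp [h]
    have h2 := Fintype.card_le_of_injective _ h
    simp only [Fintype.card_sum, Fintype.card_fin, Fintype.card_bool] at h2
    omega
  have key : ∃ r : RV n, r ∉ S ∧ ∀ a, a ∉ S → RR τ S r a := by
    by_cases hc : RV.hub false ∈ S
    · by_cases hd : RV.hub true ∈ S
      · -- both hubs are deleted
        have hrim : ∀ x : Fin n, RV.rim x ∉ S := fun x hx =>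
          rc_three hS hc hd hx (by simp) (by simp) (by simp)
        refine ⟨.rim i1, hrim i1, ?_⟩
        rintro (j | b) ha
        · obtain ⟨v, hv1, hv2⟩ : ∃ v : Fin n, i1 ≠ v ∧ j ≠ v := by
            by_cases h : j = i2
            · exact ⟨i3, h13, by rw [h]; exact h23⟩
            · exact ⟨i2, h12, h⟩
          refine rc_cycle v (fun x => RR τ S (.rim i1) (.rim x)) ?_ hv1 hv2
            (RR.refl (hrim i1))
          intro x y hxy _ _
          have h1 : RR τ S (.rim x) (.rim y) :=
            RR.step (RG_step hxy (hxy.ne (by omega))) (hrim x) (hrim y)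
          exact ⟨fun h => h.trans h1, fun h => h.trans h1.symm⟩
        · cases b
          · exact absurd hc ha
          · exact absurd hd ha
      · -- only `c` is deleted
        refine ⟨.hub true, hd, ?_⟩
        have hD : ∀ x : Fin n, τ x = true → RV.rim x ∉ S → RR τ S (.hub true) (.rim x) := by
          intro x hx hxS
          have h := RG_spoke (τ := τ) x
          rw [hx] at h
          exact (RR.step h hxS hd).symm
        rintro (x | b) ha
        · cases hx : τ x with
          | true => exact hD x hx ha
          | false =>
            obtain ⟨y, hy⟩ := rc_succ x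
            obtain ⟨z, hz⟩ := rc_pred x
            have hyz := rc_two hn hy hz
            have hty := hiso x y hy hx
            have htz : τ z = true := by
              cases h : τ z with
              | true => rfl
              | false =>
                have := hiso z x hz h
                rw [hx] at this
                exact this
            by_cases hyS : RV.rim y ∈ S
            · have hzS : RV.rim z ∉ S := fun hzS =>
                rc_three hS hc hyS hzS (by simp) (by simp) (by simpa using hyz)
              exact (hD z htz hzS).trans (RR.step (RG_step hz (hz.ne (by omega))) hzS ha)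
            · exact (hD y hty hyS).trans
                (RR.step (RG_step hy (hy.ne (by omega))) ha hyS).symm
        · cases b
          · exact absurd hc ha
          · exact RR.refl hd
    · refine ⟨.hub false, hc, ?_⟩
      have hC : ∀ x : Fin n, τ x = false → RV.rim x ∉ S → RR τ S (.hub false) (.rim x) := by
        intro x hx hxS
        have h := RG_spoke (τ := τ) x
        rw [hx] at h
        exact (RR.step h hxS hc).symm
      by_cases hd : RV.hub true ∈ S
      · -- only `d` is deleted
        rintro (i | b) ha
        · by_contra hcon
          obtain ⟨v, hv⟩ : ∃ v : Fin n, ∀ x, x ≠ v → RV.rim x ∉ S := by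
            by_cases h : ∃ v : Fin n, RV.rim v ∈ S
            · obtain ⟨v, hv⟩ := h
              exact ⟨v, fun x hx hxS =>
                rc_three hS hd hv hxS (by simp) (by simp) (by simpa using hx.symm)⟩
            · push Not at h
              exact ⟨i1, fun x _ => h x⟩
          have hti : τ i = true := by
            cases h : τ i with
            | true => rfl
            | false => exact absurd (hC i h ha) hcon
          by_cases hiv : i = v
          · -- then no rim vertex is deleted at all
            have hall : ∀ x : Fin n, RV.rim x ∉ S := by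
              intro x
              by_cases hx : x = v
              · rw [hx, ← hiv]; exact ha
              · exact hv x hx
            have h2 := rc_cycle i1 (fun x => ¬ RR τ S (.hub false) (.rim x)) (by
              intro x y hxy _ _
              have h1 : RR τ S (.rim x) (.rim y) :=
                RR.step (RG_step hxy (hxy.ne (by omega))) (hall x) (hall y)
              exact not_congr ⟨fun h => h.trans h1, fun h => h.trans h1.symm⟩)
              (hne i1 i t1 hti).symm h12.symm hcon
            exact h2 (hC i2 t2 (hall i2))
          · have h2 : ∀ x : Fin n, x ≠ v → ¬ RR τ S (.hub false) (.rim x) := fun x hx =>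
              rc_cycle v (fun x => ¬ RR τ S (.hub false) (.rim x)) (by
                intro x y hxy hx hy
                have h1 : RR τ S (.rim x) (.rim y) :=
                  RR.step (RG_step hxy (hxy.ne (by omega))) (hv x hx) (hv y hy)
                exact not_congr ⟨fun h => h.trans h1, fun h => h.trans h1.symm⟩) hiv hx hcon
            by_cases h1v : i1 = v
            · have h2v : i2 ≠ v := by rw [← h1v]; exact h12.symm
              exact h2 i2 h2v (hC i2 t2 (hv i2 h2v))
            · exact h2 i1 h1v (hC i1 t1 (hv i1 h1v))
        · cases b
          · exact RR.refl hc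
          · exact absurd hd ha
      · -- no hub is deleted
        have hD : ∀ x : Fin n, τ x = true → RV.rim x ∉ S → RR τ S (.hub true) (.rim x) := by
          intro x hx hxS
          have h := RG_spoke (τ := τ) x
          rw [hx] at h
          exact (RR.step h hxS hd).symm
        have hcd : RR τ S (.hub false) (.hub true) := by
          by_contra hcon
          have hpair : ∀ x : Fin n, τ x = false → ∃ y : Fin n, (y = x ∨ Cyc x y) ∧
              RV.rim y ∈ S := by
            intro x hx
            by_contra h
            push Not at h
            obtain ⟨y, hy⟩ := rc_succ x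
            have hxS := h x (Or.inl rfl)
            have hyS := h y (Or.inr hy)
            exact hcon (((hC x hx hxS).trans
              (RR.step (RG_step hy (hy.ne (by omega))) hxS hyS)).trans
                (hD y (hiso x y hy hx) hyS).symm)
          have hdis : ∀ x x' y y' : Fin n, τ x = false → τ x' = false → x ≠ x' →
              (y = x ∨ Cyc x y) → (y' = x' ∨ Cyc x' y') → y ≠ y' := by
            intro x x' y y' hx hx' hxx hy hy'
            rcases hy with rfl | hy
            · rcases hy' with rfl | hy'
              · exact hxx
              · exact hne _ _ hx (hiso _ _ hy' hx')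
            · rcases hy' with rfl | hy'
              · exact (hne _ _ hx' (hiso _ _ hy hx)).symm
              · rintro rfl
                exact hxx (rc_inj hy hy')
          obtain ⟨y1, hy1, hs1⟩ := hpair i1 t1
          obtain ⟨y2, hy2, hs2⟩ := hpair i2 t2
          obtain ⟨y3, hy3, hs3⟩ := hpair i3 t3
          exact rc_three hS hs1 hs2 hs3
            (by simpa using hdis _ _ _ _ t1 t2 h12 hy1 hy2)
            (by simpa using hdis _ _ _ _ t1 t3 h13 hy1 hy3)
            (by simpa using hdis _ _ _ _ t2 t3 h23 hy2 hy3)
        rintro (x | b) ha
        · cases hx : τ x with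
          | true => exact hcd.trans (hD x hx ha)
          | false => exact hC x hx ha
        · cases b
          · exact RR.refl hc
          · exact hcd
  obtain ⟨r, hr, hkey⟩ := key
  have : Nonempty {v | v ∉ S} := ⟨⟨r, hr⟩⟩
  refine ⟨fun a b => ?_⟩
  obtain ⟨h1, h2, h3⟩ := hkey a.1 a.2
  obtain ⟨h1', h2', h3'⟩ := hkey b.1 b.2
  exact h3.symm.trans h3'

end CHR
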