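import Pool.Agent.CHR.Rim
import Pool.Agent.H37.Chrom.Level

/-!
# CHR/RimPlanar: planarity of two-hub rims

Package family CHR (MP_5e2eaf_co), architect helper80. Paper text: /team-store/CHR_Proof.md.

PROOF. Build an element of `H37.Chrom.Levelled (RG τ)` (see H37/Chrom/Level.lean; example:
`levelled` in H37/Chrom/FamPlanar.lean) and use `Levelled.planar`.
Let `n ≥ 6`, `M := n - 5 ≥ 1` (as a natural number).
* `L = rim 0`, `R = rim (n - 3)`;
* `row (rim i) = 0` for `i.val < n - 3`, `= 2` for `i.val ≥ n - 3` (so rows of `rim (n-2)`,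
  `rim (n-1)` are `2`; the rows of the two hubs `L, R` do not matter);
  `row (hub false) = -1`, `row (hub true) = 1`;
* `x (rim i) = (i.val - 1) / M` (real numbers) for `1 ≤ i.val ≤ n - 4`,
  `x (rim (n - 2)) = 1`, `x (rim (n - 1)) = 0`; `x (hub false) = 0`, `x (hub true) = 1`.
Checks. `hLR`: `0 ≠ n - 3`. `nadj`: `0` and `n - 3` are not cyclic neighbours (`n ≥ 6`).
`x0, x1`: clear. `inj`: rows `-1, 1` contain one vertex, row `0` the `rim i`, `1 ≤ i ≤ n - 4` with
different `x`, row `2` contains `rim (n-2)`, `rim (n-1)` with `x = 1, 0`.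
`hubL`: neighbours of `rim 0`: `rim 1` (`x = 0`), `rim (n-1)` (`x = 0`), `hub (τ 0) = hub false`
(`x = 0`). `hubR`: neighbours of `rim (n-3)`: `rim (n-4)` (`x = (n-5)/M = 1`), `rim (n-2)`
(`x = 1`), `hub (τ (n-3)) = hub true` (`x = 1`).
`edge`: `rim i, rim (i+1)` with `1 ≤ i`, `i + 1 ≤ n - 4`: same row `0`, no vertex between;
`rim (n-2), rim (n-1)`: same row `2`, no vertex of row 2 strictly between; `rim i` (row 0) and
`hub true` (row 1); `rim i` (row 0) and `hub false` (row -1); `rim (n-2)`, `rim (n-1)` (row 2) and
`hub true` (row 1) - here `τ = true` by `h2`, so they are not joined to `hub false`.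
`band`: edges between consecutive rows always have the vertex `hub false` (rows -1, 0) or
`hub true` (rows 0, 1 and 1, 2) as an end, so either `a = c` (then `x a < x c` is false) or
`b = d` (then `x b ≤ x d`).
-/

namespace CHR

open H37.Chrom

/-- integral abscissa -/
private def xiP (n : ℕ) : RV n → ℕ
  | .rim i => if i.val + 2 = n then n - 5 else if i.val + 1 = n then 0 else i.val - 1
  | .hub b => if b then n - 5 else 0

/-- rows -/
private def rowP (n : ℕ) : RV n → ℤ
  | .rim i => if n ≤ i.val + 3 then 2 else 0
  | .hub b => if b then 1 else -1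

private lemma xiP_rim (n : ℕ) (i : Fin n) : xiP n (.rim i) =
    if i.val + 2 = n then n - 5 else if i.val + 1 = n then 0 else i.val - 1 := rfl

private lemma xiP_hub (n : ℕ) (b : Bool) : xiP n (.hub b) = if b then n - 5 else 0 := rfl

private lemma rowP_rim (n : ℕ) (i : Fin n) : rowP n (.rim i) =
    if n ≤ i.val + 3 then 2 else 0 := rfl

private lemma rowP_hub (n : ℕ) (b : Bool) : rowP n (.hub b) = if b then 1 else -1 := rfl

private lemma rim_ne {n : ℕ} {i j : Fin n} (h : (RV.rim i : RV n) ≠ .rim j) : i.val ≠ j.val := by
  intro he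
  exact h (by rw [Fin.ext he])

private lemma xiP_le {n : ℕ} (hn : 6 ≤ n) (a : RV n) (ha : a ≠ .rim ⟨0, by omega⟩)
    (ha' : a ≠ .rim ⟨n - 3, by omega⟩) : xiP n a ≤ n - 5 := by
  rcases a with i | b
  · have h1 := rim_ne ha
    have h2 := rim_ne ha'
    have := i.2
    simp only at h1 h2
    rw [xiP_rim]
    split_ifs <;> omega
  · rw [xiP_hub]
    split_ifs <;> omega

private lemma injP {n : ℕ} (hn : 6 ≤ n) (a b : RV n) (ha : a ≠ .rim ⟨0, by omega⟩)
    (ha' : a ≠ .rim ⟨n - 3, by omega⟩) (hb : b ≠ .rim ⟨0, by omega⟩)
    (hb' : b ≠ .rim ⟨n - 3, by omega⟩) (hr : rowP n a = rowP n b) (hx : xiP n a = xiP n b) :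
    a = b := by
  rcases a with i | c <;> rcases b with j | c'
  · have h1 := rim_ne ha
    have h2 := rim_ne ha'
    have h3 := rim_ne hb
    have h4 := rim_ne hb'
    have := i.2
    have := j.2
    simp only at h1 h2 h3 h4
    rw [rowP_rim, rowP_rim] at hr
    rw [xiP_rim, xiP_rim] at hx
    have : i.val = j.val := by
      split_ifs at hr hx <;> omega
    rw [Fin.ext this]
  · exfalso
    rw [rowP_rim, rowP_hub] at hr
    split_ifs at hr <;> omega
  · exfalso
    rw [rowP_rim, rowP_hub] at hr
    split_ifs at hr <;> omega
  · rw [rowP_hub, rowP_hub] at hr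
    cases c <;> cases c' <;> simp at hr ⊢

private lemma edgeP {n : ℕ} (hn : 6 ≤ n) (τ : Fin n → Bool)
    (h2 : ∀ i : Fin n, n ≤ i.val + 3 → τ i = true)
    (a b : RV n) (ha : a ≠ .rim ⟨0, by omega⟩)
    (ha' : a ≠ .rim ⟨n - 3, by omega⟩) (hb : b ≠ .rim ⟨0, by omega⟩)
    (hb' : b ≠ .rim ⟨n - 3, by omega⟩) (h : (RG τ).Adj a b) :
    (rowP n a = rowP n b ∧ ∀ c : RV n, c ≠ .rim ⟨0, by omega⟩ → c ≠ .rim ⟨n - 3, by omega⟩ →
      rowP n c = rowP n a →
      ¬ (xiP n a < xiP n c ∧ xiP n c < xiP n b) ∧ ¬ (xiP n b < xiP n c ∧ xiP n c < xiP n a)) ∨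
    rowP n b = rowP n a + 1 ∨ rowP n a = rowP n b + 1 := by
  rcases a with i | c <;> rcases b with j | c'
  · left
    have g1 := rim_ne ha
    have g2 := rim_ne ha'
    have g3 := rim_ne hb
    have g4 := rim_ne hb'
    have hi := i.2
    have hj := j.2
    simp only at g1 g2 g3 g4
    have hc : j.val = i.val + 1 ∨ i.val = j.val + 1 := by
      rcases (RG_rim_rim (by omega)).1 h with hc | hc
      · rcases hc with hc | hc <;> omega
      · rcases hc with hc | hc <;> omega
    refine ⟨?_, ?_⟩
    · rw [rowP_rim, rowP_rim]
      split_ifs <;> omega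
    · intro c hc1 hc2 hc3
      rcases c with k | c
      · have g5 := rim_ne hc1
        have g6 := rim_ne hc2
        have hk := k.2
        simp only at g5 g6
        rw [rowP_rim, rowP_rim] at hc3
        rw [xiP_rim, xiP_rim, xiP_rim]
        constructor <;> rintro ⟨q1, q2⟩ <;> split_ifs at hc3 q1 q2 <;> omega
      · exfalso
        rw [rowP_rim, rowP_hub] at hc3
        split_ifs at hc3 <;> omega
  · right
    have he := RG_rim_hub.1 h
    rw [rowP_rim, rowP_hub]
    by_cases hi : n ≤ i.val + 3
    · rw [← he, h2 i hi]
      simp [hi]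
    · cases c' <;> simp [hi]
  · right
    have he := RG_rim_hub.1 h.symm
    rw [rowP_rim, rowP_hub]
    by_cases hi : n ≤ j.val + 3
    · rw [← he, h2 j hi]
      simp [hi]
    · cases c <;> simp [hi]
  · exact absurd h RG_hub_hub

theorem planar_rim {n : ℕ} (hn : 6 ≤ n) (τ : Fin n → Bool)
    (h0 : ∀ i : Fin n, i.val = 0 → τ i = false)
    (h2 : ∀ i : Fin n, n ≤ i.val + 3 → τ i = true) : Planar (RG τ) := by
  have hM : (0 : ℝ) < ((n - 5 : ℕ) : ℝ) := by
    have : 0 < n - 5 := by omega
    exact_mod_cast this
  have key : Levelled (RG τ) :=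
    { L := .rim ⟨0, by omega⟩
      R := .rim ⟨n - 3, by omega⟩
      row := rowP n
      x := fun a => (xiP n a : ℝ) / ((n - 5 : ℕ) : ℝ)
      hLR := by
        intro h
        have := congrArg (fun a : RV n => match a with | .rim i => i.val | .hub _ => 0) h
        simp only at this
        omega
      nadj := by
        rw [RG_rim_rim (by omega)]
        rintro (h | h) <;> rcases h with h | h <;> simp only at h <;> omega
      x0 := fun a _ _ => by positivity
      x1 := fun a ha ha' => by
        rw [div_le_one hM]
        exact_mod_cast xiP_le hn a ha ha'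
      inj := by
        intro a b ha ha' hb hb' hr hx
        refine injP hn a b ha ha' hb hb' hr ?_
        have h1 := (div_left_inj' hM.ne').1 hx
        exact_mod_cast h1
      hubL := by
        intro a h
        have hx : xiP n a = 0 := by
          rcases a with i | b
          · rcases (RG_rim_rim (by omega)).1 h with hc | hc
            · rcases hc with hc | hc <;> simp only at hc <;> rw [xiP_rim] <;> split_ifs <;> omega
            · rcases hc with hc | hc <;> simp only at hc <;> rw [xiP_rim] <;> split_ifs <;> omega
          · have he := RG_rim_hub.1 h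
            rw [h0 _ rfl] at he
            rw [← he]
            rfl
        rw [hx]
        simp
      hubR := by
        intro a h
        have hx : xiP n a = n - 5 := by
          rcases a with i | b
          · have := i.2
            rcases (RG_rim_rim (by omega)).1 h with hc | hc
            · rcases hc with hc | hc <;> simp only at hc <;> rw [xiP_rim] <;> split_ifs <;> omega
            · rcases hc with hc | hc <;> simp only at hc <;> rw [xiP_rim] <;> split_ifs <;> omega
          · have he := RG_rim_hub.1 h
            rw [h2 _ (by simp only; omega)] at he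
            rw [← he]
            rfl
        rw [hx]
        exact div_self hM.ne'
      edge := by
        intro a b ha ha' hb hb' h
        rcases edgeP hn τ h2 a b ha ha' hb hb' h with ⟨hr, hc⟩ | hr | hr
        · left
          refine ⟨hr, fun c hc1 hc2 hc3 => ?_⟩
          simp only [div_lt_div_iff_of_pos_right hM, Nat.cast_lt]
          exact hc c hc1 hc2 hc3
        · right; left; exact hr
        · right; right; exact hr
      band := by
        intro a b c d ha ha' hb hb' hc hc' hd hd' hab hcd hr hr2 hr3 hx
        rw [div_lt_div_iff_of_pos_right hM, Nat.cast_lt] at hx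
        rw [div_le_div_iff_of_pos_right hM, Nat.cast_le]
        rcases a with i | u
        · rcases b with j | w
          · exfalso
            rw [rowP_rim, rowP_rim] at hr
            split_ifs at hr <;> omega
          · rcases d with k | w'
            · exfalso
              rw [rowP_rim, rowP_hub] at hr
              rw [rowP_rim, rowP_rim] at hr3
              split_ifs at hr hr3 <;> omega
            · have : w = w' := by
                rw [rowP_rim, rowP_hub] at hr
                rw [rowP_rim, rowP_hub] at hr3
                cases w <;> cases w' <;> simp at hr hr3 ⊢ <;> split_ifs at hr hr3 <;> omega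
              rw [this]
        · exfalso
          rcases c with k | u'
          · rw [rowP_rim, rowP_hub] at hr2
            split_ifs at hr2 <;> omega
          · have : u = u' := by
              rw [rowP_hub, rowP_hub] at hr2
              cases u <;> cases u' <;> simp at hr2 ⊢
            rw [this] at hx
            exact lt_irrefl _ hx }
  exact key.planar

end CHR
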