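import Mathlib
import Pool.Agent.H37.Chrom.Hurwitz

/-!
# CHR/Tie: the tie lemma

Package family CHR (MP_5e2eaf_co), architect helper80. Paper text: /team-store/CHR_Proof.md.

THEOREM `tie`. `F, G` analytic and without zero on the ball `B(q0, r)`, `‖F q0‖ < 1 < ‖G q0‖`, not
degenerate (hypothesis `hnd`), `T s t` (for `s, t ≥ N0`) analytic on the ball with
`‖T s t q - c‖ ≤ ‖c‖ / 2`, `c ≠ 0`. Then near `q0` there are solutions of `F ^ s * G ^ t = T s t`
with large `s, t`.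

PROOF.
1. Shrink `r` to `r'` such that `F q / F q0` and `G q / G q0` lie in `Complex.slitPlane` on
   `ball q0 r'` (continuity at `q0`, the value there is `1`). Put
   `f q = log (F q / F q0) + log (F q0)`, `g q = log (G q / G q0) + log (G q0)`,
   `h s t q = log (T s t q / c) + log c`. They are differentiable on the ball, `exp f = F`,
   `exp g = G`, `exp (h s t) = T s t`, and with `(f q0).re = Real.log ‖F q0‖ < 0`,
   `(g q0).re = Real.log ‖G q0‖ > 0` (`Complex.log_re`).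
   `‖T s t q / c - 1‖ ≤ 1/2` gives `T s t q / c ∈ slitPlane` (`Complex.mem_slitPlane_of_norm_lt_one`
   for `1 + z`) and `‖log (T s t q / c)‖ ≤ 3/4`
   (`Complex.norm_log_one_add_half_le_self`), so `‖h s t q‖ ≤ C1 := 1 + ‖log c‖`.
2. `σ := -(g q0).re / (f q0).re > 0`, `ψ q := g q + σ * f q`. `(ψ q0).re = 0`, so
   `ψ q0 = θ * I` with `θ := (ψ q0).im`. `deriv ψ q = G'/G + σ F'/F
   = (G' F + σ F' G) / (F G)` on the ball.
3. `ψ - ψ q0` is analytic at `q0` (`DifferentiableOn.analyticAt`); by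
   `AnalyticAt.eventually_eq_zero_or_eventually_ne_zero` it is either zero near `q0`, then `deriv ψ`
   is zero on a small ball, against `hnd σ`; or it is `≠ 0` in a punctured neighbourhood of `q0`. So
   there is `δ > 0` with `δ < r'`, `δ < ε`, with `ψ z ≠ ψ q0` for all `z ∈ sphere q0 δ`. The sphere
   is compact (and nonempty), so `‖ψ z - ψ q0‖ ≥ η` there for some `η > 0`
   (`IsCompact.exists_isMinOn`); and `‖f‖ ≤ C2` on `closedBall q0 δ` (`IsCompact.exists_isMaxOn`).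
4. Let `t` be a natural number with `t ≥ N, N0`, `σ t ≥ N + 1, N0 + 1` and
   `(Real.pi + C1 + C2 + 1) / t < η / 2`. Put `s := ⌊σ t⌋₊` (so `s ≥ N, N0`, and
   `0 ≤ σ t - s < 1`) and `k : ℤ := round (t θ / (2 π))`, so `|2 π k - t θ| ≤ π`. Let
   `Ψ q := (ψ q - ψ q0) - ((2 π k - t θ) * I + h s t q + (σ t - s) * f q) / t`. It is
   differentiable on `closedBall q0 δ`, and `‖Ψ q - (ψ q - ψ q0)‖ < η / 2` there. By
   `H37.Chrom.zero_of_close` (with `f := fun q => ψ q - ψ q0`, `g := Ψ`, `c := q0`) there is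
   `q1 ∈ closedBall q0 δ` with `Ψ q1 = 0`.
5. Multiply by `t`: `t ψ q1 - t θ I = (2 π k - t θ) I + h + (σ t - s) f`, so
   `t g q1 + s f q1 = 2 π k I + h s t q1` (as `t ψ = t g + σ t f`). Exponentiate
   (`Complex.exp_nat_mul`, `Complex.exp_int_mul_two_pi_mul_I`): `G q1 ^ t * F q1 ^ s = T s t q1`.
-/

namespace CHR

open Metric Set Filter Topology

private lemma log_data {q0 : ℂ} {r : ℝ} (hr : 0 < r) {F : ℂ → ℂ}
    (hF : DifferentiableOn ℂ F (ball q0 r)) (hF0 : ∀ q ∈ ball q0 r, F q ≠ 0) :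
    ∃ r1 > 0, r1 ≤ r ∧ ∃ f : ℂ → ℂ, DifferentiableOn ℂ f (ball q0 r1) ∧
      (∀ q ∈ ball q0 r1, Complex.exp (f q) = F q) ∧ (f q0).re = Real.log ‖F q0‖ := by
  have hq0 : q0 ∈ ball q0 r := mem_ball_self hr
  have h0 : F q0 ≠ 0 := hF0 q0 hq0
  have hcont : ContinuousAt (fun q => F q / F q0) q0 :=
    ((hF.differentiableAt (isOpen_ball.mem_nhds hq0)).continuousAt).div_const _
  have hev : ∀ᶠ q in 𝓝 q0, F q / F q0 ∈ Complex.slitPlane := by
    refine hcont.eventually_mem (Complex.isOpen_slitPlane.mem_nhds ?_)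
    rw [div_self h0]
    exact Complex.one_mem_slitPlane
  obtain ⟨r1, hr1, hr1'⟩ := Metric.eventually_nhds_iff.1 hev
  refine ⟨min r1 r, lt_min hr1 hr, min_le_right _ _,
    fun q => Complex.log (F q / F q0) + Complex.log (F q0), ?_, ?_, ?_⟩
  · refine DifferentiableOn.add_const _ (DifferentiableOn.clog ?_ ?_)
    · exact (hF.mono (ball_subset_ball (min_le_right _ _))).div_const _
    · intro q hq
      exact hr1' (lt_of_lt_of_le hq (min_le_left _ _))
  · intro q hq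
    have hq' : q ∈ ball q0 r := ball_subset_ball (min_le_right _ _) hq
    have hne : F q / F q0 ≠ 0 := div_ne_zero (hF0 q hq') h0
    simp only []
    rw [Complex.exp_add, Complex.exp_log hne, Complex.exp_log h0, div_mul_cancel₀ _ h0]
  · simp only [div_self h0, Complex.log_one, zero_add, Complex.log_re]

private lemma log_T {q0 c : ℂ} {r : ℝ} (hc : c ≠ 0) {T : ℂ → ℂ}
    (hT : DifferentiableOn ℂ T (ball q0 r))
    (hTc : ∀ q ∈ ball q0 r, ‖T q - c‖ ≤ ‖c‖ / 2) :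
    ∃ h : ℂ → ℂ, DifferentiableOn ℂ h (ball q0 r) ∧
      (∀ q ∈ ball q0 r, Complex.exp (h q) = T q) ∧
      ∀ q ∈ ball q0 r, ‖h q‖ ≤ 1 + ‖Complex.log c‖ := by
  have hcn : 0 < ‖c‖ := norm_pos_iff.2 hc
  have hz : ∀ q ∈ ball q0 r, ‖T q / c - 1‖ ≤ 1 / 2 := by
    intro q hq
    have h1 : T q / c - 1 = (T q - c) / c := by field_simp
    rw [h1, norm_div, div_le_iff₀ hcn]
    have := hTc q hq
    linarith
  have hsl : ∀ q ∈ ball q0 r, T q / c ∈ Complex.slitPlane := by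
    intro q hq
    have h1 := Complex.mem_slitPlane_of_norm_lt_one (z := T q / c - 1)
      (lt_of_le_of_lt (hz q hq) (by norm_num))
    simpa using h1
  refine ⟨fun q => Complex.log (T q / c) + Complex.log c, ?_, ?_, ?_⟩
  · exact DifferentiableOn.add_const _ (DifferentiableOn.clog (hT.div_const _) hsl)
  · intro q hq
    simp only []
    rw [Complex.exp_add, Complex.exp_log (Complex.slitPlane_ne_zero (hsl q hq)),
      Complex.exp_log hc, div_mul_cancel₀ _ hc]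
  · intro q hq
    have h1 := Complex.norm_log_one_add_half_le_self (z := T q / c - 1) (hz q hq)
    have h2 : (1 : ℂ) + (T q / c - 1) = T q / c := by ring
    rw [h2] at h1
    have h3 := hz q hq
    calc ‖Complex.log (T q / c) + Complex.log c‖
        ≤ ‖Complex.log (T q / c)‖ + ‖Complex.log c‖ := norm_add_le _ _
      _ ≤ 1 + ‖Complex.log c‖ := by linarith

private lemma deriv_exp {q0 : ℂ} {r : ℝ} {F f : ℂ → ℂ}
    (hf : DifferentiableOn ℂ f (ball q0 r))
    (he : ∀ q ∈ ball q0 r, Complex.exp (f q) = F q) {q : ℂ} (hq : q ∈ ball q0 r) :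
    deriv F q = F q * deriv f q := by
  have hd : DifferentiableAt ℂ f q := hf.differentiableAt (isOpen_ball.mem_nhds hq)
  have h1 : HasDerivAt (fun z => Complex.exp (f z)) (Complex.exp (f q) * deriv f q) q :=
    hd.hasDerivAt.cexp
  have h2 : (fun z => Complex.exp (f z)) =ᶠ[𝓝 q] F := by
    filter_upwards [isOpen_ball.mem_nhds hq] with z hz
    exact he z hz
  have h3 := h2.symm.hasDerivAt_iff.2 h1
  rw [he q hq] at h3
  exact h3.deriv


theorem tie {q0 c : ℂ} {r : ℝ} (hr : 0 < r) {F G : ℂ → ℂ}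
    (hF : DifferentiableOn ℂ F (ball q0 r)) (hG : DifferentiableOn ℂ G (ball q0 r))
    (hF0 : ∀ q ∈ ball q0 r, F q ≠ 0) (hG0 : ∀ q ∈ ball q0 r, G q ≠ 0)
    (h1 : ‖F q0‖ < 1) (h2 : 1 < ‖G q0‖)
    (hnd : ∀ σ : ℝ, 0 < σ → ∀ δ : ℝ, 0 < δ → ∃ q ∈ ball q0 δ,
      deriv G q * F q + (σ : ℂ) * (deriv F q * G q) ≠ 0)
    (hc : c ≠ 0) (N0 : ℕ) (T : ℕ → ℕ → ℂ → ℂ)
    (hT : ∀ s t, N0 ≤ s → N0 ≤ t → DifferentiableOn ℂ (T s t) (ball q0 r))
    (hTc : ∀ s t, N0 ≤ s → N0 ≤ t → ∀ q ∈ ball q0 r, ‖T s t q - c‖ ≤ ‖c‖ / 2)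
    {ε : ℝ} (hε : 0 < ε) (N : ℕ) :
    ∃ s t, N ≤ s ∧ N ≤ t ∧ ∃ q1, ‖q1 - q0‖ < ε ∧ F q1 ^ s * G q1 ^ t = T s t q1 := by
  obtain ⟨r1, hr1, -, f, hfd, hfe, hfr⟩ := log_data hr hF hF0
  obtain ⟨r2, hr2, -, g, hgd, hge, hgr⟩ := log_data hr hG hG0
  have hq0 : q0 ∈ ball q0 r := mem_ball_self hr
  have ha : (f q0).re < 0 := by
    rw [hfr]
    exact Real.log_neg (norm_pos_iff.2 (hF0 q0 hq0)) h1
  have hb : 0 < (g q0).re := by
    rw [hgr]
    exact Real.log_pos h2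
  obtain ⟨σ, hσdef⟩ : ∃ σ : ℝ, σ = -(g q0).re / (f q0).re := ⟨_, rfl⟩
  have hσ : 0 < σ := by
    rw [hσdef]
    exact div_pos_of_neg_of_neg (by linarith) ha
  obtain ⟨ρ, hρ, hρ1, hρ2, hρ3⟩ : ∃ ρ : ℝ, 0 < ρ ∧ ρ ≤ r1 ∧ ρ ≤ r2 ∧ ρ ≤ r :=
    ⟨min (min r1 r2) r, lt_min (lt_min hr1 hr2) hr,
      (min_le_left _ _).trans (min_le_left _ _), (min_le_left _ _).trans (min_le_right _ _),
      min_le_right _ _⟩
  have hfd' : DifferentiableOn ℂ f (ball q0 ρ) := hfd.mono (ball_subset_ball hρ1)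
  have hgd' : DifferentiableOn ℂ g (ball q0 ρ) := hgd.mono (ball_subset_ball hρ2)
  have hfe' : ∀ q ∈ ball q0 ρ, Complex.exp (f q) = F q := fun q hq =>
    hfe q (ball_subset_ball hρ1 hq)
  have hge' : ∀ q ∈ ball q0 ρ, Complex.exp (g q) = G q := fun q hq =>
    hge q (ball_subset_ball hρ2 hq)
  have hψd : DifferentiableOn ℂ (fun q => g q + (σ : ℂ) * f q) (ball q0 ρ) :=
    hgd'.add (hfd'.const_mul _)
  have hψ0 : g q0 + (σ : ℂ) * f q0 = (((g q0 + (σ : ℂ) * f q0).im : ℝ) : ℂ) * Complex.I := by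
    apply Complex.ext
    · simp only [Complex.add_re, Complex.mul_re, Complex.ofReal_re, Complex.ofReal_im,
        Complex.I_re, Complex.I_im, zero_mul, mul_zero, sub_zero]
      rw [hσdef, div_mul_cancel₀ _ ha.ne]
      ring
    · simp
  obtain ⟨θ, hθ⟩ : ∃ θ : ℝ, θ = (g q0 + (σ : ℂ) * f q0).im := ⟨_, rfl⟩
  rw [← hθ] at hψ0
  -- isolated value
  have hiso : ∀ᶠ z in 𝓝[≠] q0, (g z + (σ : ℂ) * f z) - (g q0 + (σ : ℂ) * f q0) ≠ 0 := by
    have han : AnalyticAt ℂ (fun z => (g z + (σ : ℂ) * f z) - (g q0 + (σ : ℂ) * f q0)) q0 :=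
      (hψd.sub_const _).analyticAt (isOpen_ball.mem_nhds (mem_ball_self hρ))
    rcases han.eventually_eq_zero_or_eventually_ne_zero with h | h
    · exfalso
      obtain ⟨δ0, hδ0, h0⟩ := Metric.eventually_nhds_iff.1 h
      obtain ⟨q, hq, hne⟩ := hnd σ hσ (min δ0 ρ) (lt_min hδ0 hρ)
      have hqρ : q ∈ ball q0 ρ := ball_subset_ball (min_le_right _ _) hq
      have hqδ : q ∈ ball q0 δ0 := ball_subset_ball (min_le_left _ _) hq
      have hdf : DifferentiableAt ℂ f q := hfd'.differentiableAt (isOpen_ball.mem_nhds hqρ)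
      have hdg : DifferentiableAt ℂ g q := hgd'.differentiableAt (isOpen_ball.mem_nhds hqρ)
      have hd1 : HasDerivAt (fun z => g z + (σ : ℂ) * f z) (deriv g q + (σ : ℂ) * deriv f q) q :=
        hdg.hasDerivAt.add (hdf.hasDerivAt.const_mul _)
      have hd2 : HasDerivAt (fun z => g z + (σ : ℂ) * f z) 0 q := by
        have hev : (fun z => g z + (σ : ℂ) * f z) =ᶠ[𝓝 q] fun _ => g q0 + (σ : ℂ) * f q0 := by
          filter_upwards [isOpen_ball.mem_nhds hqδ] with z hz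
          have := h0 hz
          exact sub_eq_zero.1 this
        exact hev.hasDerivAt_iff.2 (hasDerivAt_const q _)
      have hd3 := hd1.unique hd2
      apply hne
      rw [deriv_exp hgd' hge' hqρ, deriv_exp hfd' hfe' hqρ]
      have : G q * deriv g q * F q + (σ : ℂ) * (F q * deriv f q * G q)
          = F q * G q * (deriv g q + (σ : ℂ) * deriv f q) := by ring
      rw [this, hd3, mul_zero]
    · exact h
  rw [eventually_nhdsWithin_iff] at hiso
  obtain ⟨δ1, hδ1, hiso⟩ := Metric.eventually_nhds_iff.1 hiso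
  obtain ⟨δ, hδ, hδδ1, hδρ, hδε⟩ : ∃ δ : ℝ, 0 < δ ∧ δ < δ1 ∧ δ < ρ ∧ δ < ε := by
    refine ⟨min (min (δ1 / 2) (ρ / 2)) (ε / 2), by positivity, ?_, ?_, ?_⟩
    · exact lt_of_le_of_lt ((min_le_left _ _).trans (min_le_left _ _)) (by linarith)
    · exact lt_of_le_of_lt ((min_le_left _ _).trans (min_le_right _ _)) (by linarith)
    · exact lt_of_le_of_lt (min_le_right _ _) (by linarith)
  have hcb : closedBall q0 δ ⊆ ball q0 ρ := closedBall_subset_ball hδρ
  have hcont : ContinuousOn (fun z => ‖(g z + (σ : ℂ) * f z) - (g q0 + (σ : ℂ) * f q0)‖)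
      (sphere q0 δ) :=
    ((hψd.continuousOn.mono (sphere_subset_closedBall.trans hcb)).sub continuousOn_const).norm
  obtain ⟨η, hη, hηs⟩ : ∃ η : ℝ, 0 < η ∧ ∀ z ∈ sphere q0 δ,
      η ≤ ‖(g z + (σ : ℂ) * f z) - (g q0 + (σ : ℂ) * f q0)‖ := by
    have hne : (sphere q0 δ).Nonempty := (NormedSpace.sphere_nonempty).2 hδ.le
    obtain ⟨z0, hz0, hmin⟩ := (isCompact_sphere q0 δ).exists_isMinOn hne hcont
    refine ⟨_, norm_pos_iff.2 (hiso (y := z0) ?_ ?_), fun z hz => hmin hz⟩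
    · rw [mem_sphere.1 hz0]
      exact hδδ1
    · intro h
      have h' : z0 = q0 := h
      rw [h', mem_sphere, dist_self] at hz0
      linarith
  obtain ⟨C2, hC2⟩ := (isCompact_closedBall q0 δ).exists_bound_of_continuousOn
    (hfd'.continuousOn.mono hcb)
  obtain ⟨C, hCdef⟩ : ∃ C : ℝ, C = Real.pi + (1 + ‖Complex.log c‖) + C2 := ⟨_, rfl⟩
  have hC20 : 0 ≤ C2 := (norm_nonneg _).trans (hC2 q0 (mem_closedBall_self hδ.le))
  -- choice of t
  have hlim : Tendsto (fun t : ℕ => σ * (t : ℝ)) atTop atTop :=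
    tendsto_natCast_atTop_atTop.const_mul_atTop hσ
  have hlim0 : Tendsto (fun t : ℕ => C / (t : ℝ)) atTop (𝓝 0) :=
    tendsto_const_div_atTop_nhds_zero_nat C
  obtain ⟨t, ht⟩ := ((eventually_ge_atTop N).and ((eventually_ge_atTop N0).and
    ((eventually_ge_atTop 1).and ((hlim.eventually_ge_atTop ((N : ℝ) + 1)).and
      ((hlim.eventually_ge_atTop ((N0 : ℝ) + 1)).and
        (hlim0.eventually_lt_const (half_pos hη))))))).exists
  obtain ⟨htN, htN0, ht1, htσN, htσN0, htC⟩ := ht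
  have htpos : (0 : ℝ) < t := by exact_mod_cast ht1
  have hσt : 0 ≤ σ * (t : ℝ) := by positivity
  obtain ⟨s, hsdef⟩ : ∃ s : ℕ, s = ⌊σ * (t : ℝ)⌋₊ := ⟨_, rfl⟩
  have hs1 : (s : ℝ) ≤ σ * t := hsdef ▸ Nat.floor_le hσt
  have hs2 : σ * t < s + 1 := hsdef ▸ Nat.lt_floor_add_one _
  have hsN : N ≤ s := by
    have : (N : ℝ) < s + 1 - 1 + 1 := by linarith
    rw [hsdef]
    exact Nat.le_floor (by linarith)
  have hsN0 : N0 ≤ s := by
    rw [hsdef]
    exact Nat.le_floor (by linarith)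
  obtain ⟨h, hhd, hhe, hhb⟩ := log_T hc (hT s t hsN0 htN0) (hTc s t hsN0 htN0)
  obtain ⟨k, hkdef⟩ : ∃ k : ℤ, k = round ((t : ℝ) * θ / (2 * Real.pi)) := ⟨_, rfl⟩
  have hk : |2 * Real.pi * (k : ℝ) - t * θ| ≤ Real.pi := by
    have h3 := abs_sub_round ((t : ℝ) * θ / (2 * Real.pi))
    rw [← hkdef] at h3
    have hpi := Real.pi_pos
    have h4 : 2 * Real.pi * (k : ℝ) - t * θ
        = -(2 * Real.pi) * ((t : ℝ) * θ / (2 * Real.pi) - k) := by
      field_simp
      ring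
    rw [h4, abs_mul, abs_neg, abs_of_pos (by positivity : (0 : ℝ) < 2 * Real.pi)]
    nlinarith
  have hhd' : DifferentiableOn ℂ h (closedBall q0 δ) :=
    hhd.mono (hcb.trans (ball_subset_ball hρ3))
  have htc : (t : ℂ) ≠ 0 := by exact_mod_cast htpos.ne'
  obtain ⟨q1, hq1, hz⟩ := H37.Chrom.zero_of_close
    (f := fun q => (g q + (σ : ℂ) * f q) - (g q0 + (σ : ℂ) * f q0))
    (g := fun q => ((g q + (σ : ℂ) * f q) - (g q0 + (σ : ℂ) * f q0)) -
      (((2 * Real.pi * (k : ℝ) - t * θ : ℝ) : ℂ) * Complex.I + h q +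
        ((σ * t - s : ℝ) : ℂ) * f q) / (t : ℂ))
    (c := q0) hδ hη
    (((hψd.mono hcb).sub_const _).sub ((((differentiableOn_const _).add hhd').add
      ((hfd'.mono hcb).const_mul _)).div_const _))
    (by simp) hηs (by
      intro z hz
      have hzb : z ∈ ball q0 ρ := hcb hz
      have e1 : ∀ a b : ℂ, ‖(a - b) - a‖ = ‖b‖ := by
        intro a b
        rw [sub_sub_cancel_left, norm_neg]
      rw [e1, norm_div, Complex.norm_natCast]
      refine lt_of_le_of_lt (div_le_div_of_nonneg_right ?_ htpos.le) htC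
      have b1 : ‖((2 * Real.pi * (k : ℝ) - t * θ : ℝ) : ℂ) * Complex.I‖ ≤ Real.pi := by
        rw [norm_mul, Complex.norm_I, mul_one, Complex.norm_real, Real.norm_eq_abs]
        exact hk
      have b2 : ‖h z‖ ≤ 1 + ‖Complex.log c‖ := hhb z (ball_subset_ball hρ3 hzb)
      have b3 : ‖((σ * t - s : ℝ) : ℂ) * f z‖ ≤ C2 := by
        rw [norm_mul, Complex.norm_real, Real.norm_eq_abs, abs_of_nonneg (by linarith)]
        calc (σ * t - s) * ‖f z‖ ≤ 1 * ‖f z‖ :=
              mul_le_mul_of_nonneg_right (by linarith) (norm_nonneg _)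
          _ ≤ C2 := by rw [one_mul]; exact hC2 z hz
      calc ‖((2 * Real.pi * (k : ℝ) - t * θ : ℝ) : ℂ) * Complex.I + h z +
            ((σ * t - s : ℝ) : ℂ) * f z‖
          ≤ ‖((2 * Real.pi * (k : ℝ) - t * θ : ℝ) : ℂ) * Complex.I + h z‖ +
            ‖((σ * t - s : ℝ) : ℂ) * f z‖ := norm_add_le _ _
        _ ≤ (‖((2 * Real.pi * (k : ℝ) - t * θ : ℝ) : ℂ) * Complex.I‖ + ‖h z‖) +
            ‖((σ * t - s : ℝ) : ℂ) * f z‖ := by gcongr; exact norm_add_le _ _
        _ ≤ C := by rw [hCdef]; linarith)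
  have hq1b : q1 ∈ ball q0 ρ := hcb hq1
  refine ⟨s, t, hsN, htN, q1, ?_, ?_⟩
  · have := mem_closedBall.1 hq1
    rw [dist_eq_norm] at this
    linarith
  · have key : (s : ℂ) * f q1 + (t : ℂ) * g q1
        = (k : ℂ) * (2 * Real.pi * Complex.I) + h q1 := by
      have hz' : (t : ℂ) * ((g q1 + (σ : ℂ) * f q1) - (g q0 + (σ : ℂ) * f q0)) -
          (((2 * Real.pi * (k : ℝ) - t * θ : ℝ) : ℂ) * Complex.I + h q1 +
            ((σ * t - s : ℝ) : ℂ) * f q1) = 0 := by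
        have h5 := congrArg (fun z => (t : ℂ) * z) hz
        simp only [mul_zero] at h5
        rw [mul_sub, mul_div_cancel₀ _ htc] at h5
        exact h5
      rw [hψ0] at hz'
      push_cast at hz'
      linear_combination hz'
    rw [← hfe' q1 hq1b, ← hge' q1 hq1b, ← hhe q1 (ball_subset_ball hρ3 hq1b),
      ← Complex.exp_nat_mul, ← Complex.exp_nat_mul, ← Complex.exp_add, key, Complex.exp_add,
      Complex.exp_int_mul_two_pi_mul_I, one_mul]

end CHR
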