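import Pool.Agent.H37.Chrom.RankOne

/-!
# CHR/Wheel: subdivided wheels by transfer kernels (definitions, no sorry)

Package family CHR (MP_5e2eaf_co), architect helper80. Paper text: /team-store/CHR_Proof.md.
The distinguished colour `u` of helper37's kernels is the colour of the hub.
-/

namespace CHR

open H37.Chrom

variable {A : Type} [CommRing A]

/-- adjacency, and the second vertex is joined to the hub -/
def adjT (A : Type) [CommRing A] : Ker A := ⟨0, 1, 0, 1, -1⟩

/-- paths with inner vertices of the types `w` (`true`: joined to the hub) -/
def KA (n : A) : List Bool → Ker A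
  | [] => Ker.adj A
  | b :: w => Ker.comp n (if b then adjT A else Ker.adj A) (KA n w)

/-- walks of length `k` -/
def walkK (n : A) (k : ℕ) : Ker A :=
  ⟨thD n k + (-1) ^ k, thD n k, thD n k, thD n k, (-1) ^ k⟩

/-- the trace: `∑ x, w (x, x)` -/
def trK (n : A) (w : Ker A) : A := w.a + (n - 1) * (w.d + w.s)

/-- the chromatic polynomial of the cycle of length `2 m + 6` with a hub joined to the vertices
of type `true` of the first backbone (a path with `m + 2` inner vertices of the types `w`) -/
def WA (m : ℕ) (w : List Bool) (n : A) : A :=
  n * trK n (Ker.comp n (KA n w) (walkK n (m + 3)))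

/-- `true`, then `a` times `true`, then `b` times `false^L true` -/
def pat (a L b : ℕ) : List Bool :=
  true :: (List.replicate a true ++ (List.replicate b (List.replicate L false ++ [true])).flatten)

lemma KA_cons (n : A) (b : Bool) (w : List Bool) :
    KA n (b :: w) = Ker.comp n (if b then adjT A else Ker.adj A) (KA n w) := rfl

lemma thD_zero' (n : A) : thD n 0 = 0 := rfl

lemma thD_succ' (n : A) (L : ℕ) : thD n (L + 1) = (n - 1) * thD n L + (-1) ^ L := rfl

end CHR
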