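import Pool.Agent.CHR.RimPlanar
import Pool.Agent.CHR.RimConn
import Pool.Agent.CHR.Mats

/-!
# CHR/WordShape: the two-hub rims of the words `wordw k js` are 3-connected and planar

Package family CHR (MP_5e2eaf_co), architect helper80. Paper text: /team-store/CHR_Proof.md.

Let `k ≥ 3` and `js.length ≥ 3`. Facts on `w = wordw k js` (write `js = j1 :: j2 :: j3 :: js'`):
* `w.length ≥ 12`; `w` starts with `false`; the last three entries are `true` (each block ends
  with `true^k`, `k ≥ 3`);
* `false` is followed by `true` (also cyclically: the last entry is `true`): in `blkw k j` every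
  `false` is followed by a `true` inside the block. Suggestion:
  `List.IsChain (fun a b => a = false → b = true)` for `w`, by induction (each block starts
  with `false` and ends with `true`), or directly `w.getD`;
* three different positions with entry `false`: the starts of the first three blocks, i.e. the
  positions `0`, `(blkw k j1).length`, `(blkw k j1).length + (blkw k j2).length`.
Then `planar_rim` and `threeConnected_rim` for `τ = w.get`.
-/

namespace CHR

open H37.Chrom

/-- every `false` is followed by a `true` -/
private def GoodW (w : List Bool) : Prop := ∀ i : ℕ, w[i]? = some false → w[i + 1]? = some true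

private lemma goodW_append {u v : List Bool} (hu : GoodW u) (hv : GoodW v) : GoodW (u ++ v) := by
  intro i h
  by_cases hi : i < u.length
  · rw [List.getElem?_append_left hi] at h
    have h1 := hu i h
    have h2 : i + 1 < u.length := by
      by_contra hc
      rw [List.getElem?_eq_none (by omega)] at h1
      cases h1
    rw [List.getElem?_append_left h2]
    exact h1
  · rw [List.getElem?_append_right (by omega)] at h
    rw [List.getElem?_append_right (by omega)]
    have h1 := hv _ h
    rwa [show i + 1 - u.length = i - u.length + 1 by omega]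

private lemma goodW_nil : GoodW [] := by
  intro i h
  simp at h

private lemma goodW_pair : GoodW [false, true] := by
  intro i h
  rcases i with _ | _ | i
  · rfl
  · simp at h
  · simp at h

private lemma goodW_tail {k : ℕ} (hk : 3 ≤ k) : GoodW (false :: List.replicate k true) := by
  intro i h
  rcases i with _ | i
  · rw [List.getElem?_cons_succ, List.getElem?_replicate, if_pos (by omega)]
  · rw [List.getElem?_cons_succ, List.getElem?_replicate] at h
    split_ifs at h
    simp at h

private lemma goodW_rep (j : ℕ) : GoodW (List.replicate j [false, true]).flatten := by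
  induction j with
  | zero => exact goodW_nil
  | succ j ih =>
    rw [List.replicate_succ, List.flatten_cons]
    exact goodW_append goodW_pair ih

private lemma goodW_blk {k : ℕ} (hk : 3 ≤ k) (j : ℕ) : GoodW (blkw k j) :=
  goodW_append (goodW_rep j) (goodW_tail hk)

private lemma wordw_cons (k j : ℕ) (js : List ℕ) :
    wordw k (j :: js) = blkw k j ++ wordw k js := by
  rw [wordw, List.map_cons, List.flatten_cons, ← wordw]

private lemma goodW_word {k : ℕ} (hk : 3 ≤ k) (js : List ℕ) : GoodW (wordw k js) := by
  induction js with
  | nil => exact goodW_nil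
  | cons j js ih =>
    rw [wordw_cons]
    exact goodW_append (goodW_blk hk j) ih

private lemma blk_start (k j : ℕ) : ∃ u, blkw k j = false :: u ∧ k ≤ u.length := by
  rcases j with _ | j
  · exact ⟨List.replicate k true, rfl, by simp⟩
  · refine ⟨true :: blkw k j, ?_, ?_⟩
    · rw [blkw, List.replicate_succ, List.flatten_cons]
      rfl
    · rw [blkw]
      simp
      omega

private lemma blk_end {k : ℕ} (hk : 3 ≤ k) (j : ℕ) :
    ∃ v, blkw k j = v ++ List.replicate 3 true := by
  refine ⟨(List.replicate j [false, true]).flatten ++ (false :: List.replicate (k - 3) true), ?_⟩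
  rw [blkw, List.append_assoc, List.cons_append, List.replicate_append_replicate,
    show k - 3 + 3 = k by omega]

private lemma word_end {k : ℕ} (hk : 3 ≤ k) (js : List ℕ) (h : js ≠ []) :
    ∃ v, wordw k js = v ++ List.replicate 3 true := by
  induction js with
  | nil => exact absurd rfl h
  | cons j js ih =>
    rw [wordw_cons]
    by_cases hj : js = []
    · obtain ⟨v, hv⟩ := blk_end hk j
      refine ⟨v, ?_⟩
      rw [hj, hv]
      simp [wordw]
    · obtain ⟨v, hv⟩ := ih hj
      refine ⟨blkw k j ++ v, ?_⟩
      rw [hv, List.append_assoc]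

private lemma word_three {k : ℕ} (hk : 3 ≤ k) {js : List ℕ} (hjs : 3 ≤ js.length) :
    ∃ a b : ℕ, 0 < a ∧ a < b ∧ (wordw k js)[0]? = some false ∧ (wordw k js)[a]? = some false ∧
      (wordw k js)[b]? = some false ∧ 12 ≤ (wordw k js).length := by
  match js, hjs with
  | j1 :: j2 :: j3 :: js, _ =>
    obtain ⟨u1, h1, l1⟩ := blk_start k j1
    obtain ⟨u2, h2, l2⟩ := blk_start k j2
    obtain ⟨u3, h3, l3⟩ := blk_start k j3
    rw [wordw_cons, wordw_cons, wordw_cons, h1, h2, h3]
    refine ⟨u1.length + 1, u1.length + 1 + (u2.length + 1), by omega, by omega, rfl, ?_, ?_, ?_⟩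
    · rw [List.getElem?_append_right (by simp)]
      simp
    · rw [List.getElem?_append_right (by simp), List.getElem?_append_right (by simp)]
      simp
    · simp only [List.length_append, List.length_cons]
      omega

private lemma word_last {k : ℕ} (hk : 3 ≤ k) {js : List ℕ} (hjs : 3 ≤ js.length)
    (i : Fin (wordw k js).length) (h : (wordw k js).length ≤ i.val + 3) :
    (wordw k js).get i = true := by
  obtain ⟨v, hv⟩ := word_end hk js (by rintro rfl; simp at hjs)
  have hi := i.2
  have h1 : (wordw k js)[i.val]? = some ((wordw k js).get i) := by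
    rw [List.get_eq_getElem, List.getElem?_eq_getElem]
  have hl : (wordw k js).length = v.length + 3 := by rw [hv]; simp
  have h3 : ∀ m : ℕ, v.length ≤ m → m < v.length + 3 → (wordw k js)[m]? = some true := by
    intro m hm hm2
    rw [hv, List.getElem?_append_right (by omega), List.getElem?_replicate, if_pos (by omega)]
  have h2 := h3 i.val (by omega) (by omega)
  rw [h2] at h1
  exact (Option.some.inj h1).symm

private lemma word_get {w : List Bool} {i : ℕ} {b : Bool} (h : w[i]? = some b) :
    ∃ hi : i < w.length, w.get ⟨i, hi⟩ = b := by
  obtain ⟨hi, h2⟩ := List.getElem?_eq_some_iff.1 h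
  exact ⟨hi, h2⟩

theorem planar_word {k : ℕ} (hk : 3 ≤ k) {js : List ℕ} (hjs : 3 ≤ js.length) :
    Planar (RG (wordw k js).get) := by
  obtain ⟨a, b, _, _, h0, _, _, hl⟩ := word_three hk hjs
  refine planar_rim (by omega) _ ?_ (fun i hi => word_last hk hjs i hi)
  intro i hi
  obtain ⟨_, h2⟩ := word_get h0
  have h3 : i = ⟨0, by omega⟩ := Fin.ext hi
  rw [h3]
  exact h2

theorem threeConnected_word {k : ℕ} (hk : 3 ≤ k) {js : List ℕ} (hjs : 3 ≤ js.length) :
    ThreeConnected (RG (wordw k js).get) := by
  obtain ⟨a, b, ha, hab, h0, h1, h2, hl⟩ := word_three hk hjs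
  obtain ⟨l0, e0⟩ := word_get h0
  obtain ⟨l1, e1⟩ := word_get h1
  obtain ⟨l2, e2⟩ := word_get h2
  refine threeConnected_rim (by omega) _ ?_ ⟨0, l0⟩ ⟨a, l1⟩ ⟨b, l2⟩ ?_ ?_ ?_ e0 e1 e2
  · intro i j hij hi
    rcases hij with hij | ⟨hij, _⟩
    · have h3 : (wordw k js)[i.val]? = some false := by
        rw [← hi, List.get_eq_getElem, List.getElem?_eq_getElem]
      obtain ⟨l4, e4⟩ := word_get (goodW_word hk js _ h3)
      have h5 : j = ⟨i.val + 1, l4⟩ := Fin.ext hij
      rw [h5]
      exact e4
    · have h3 := word_last hk hjs i (by omega)
      rw [h3] at hi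
      cases hi
  · intro h
    have := congrArg Fin.val h
    simp only at this
    omega
  · intro h
    have := congrArg Fin.val h
    simp only at this
    omega
  · intro h
    have := congrArg Fin.val h
    simp only at this
    omega

end CHR
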